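import Mathlib

/-!
Systems of quadratic forms over a function field `E/k` of one variable have a nontrivial zero over
`E L` as soon as systems of quadratic forms over the extension `L` of `k` in more than `4 s`
variables (`s` = number of forms) have one (`L` linearly disjoint from `E`).
-/

open Module Polynomial

namespace Fa

/-- `s` quadratic forms over `L` in more than `4 s` variables have a common nontrivial zero. -/
def HBat (s : ℕ) (L : Type*) [Field L] : Prop :=
  ∀ N : ℕ, 4 * s < N → ∀ B : Fin s → Matrix (Fin N) (Fin N) L,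
    ∃ y : Fin N → L, y ≠ 0 ∧ ∀ i, dotProduct y ((B i).mulVec y) = 0

section growth

variable {k E : Type*} [Field k] [Field E] [Algebra k E]

open IntermediateField in
/-- A common denominator for a finite set of elements of `k(t)`. -/
theorem common_denom (t : E) (ht : Transcendental k t) (S : Finset E) (hS : ∀ x ∈ S, x ∈ k⟮t⟯) :
    ∃ (h : k[X]) (δ : ℕ), h ≠ 0 ∧ ∀ x ∈ S, ∃ r : k[X], r.natDegree < δ ∧
      x * aeval t h = aeval t r := by
  classical
  induction S using Finset.induction_on with
  | empty => exact ⟨1, 0, one_ne_zero, fun x hx => by simp at hx⟩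
  | insert a S ha ih =>
    obtain ⟨h, δ, h0, hh⟩ := ih fun x hx => hS x (Finset.mem_insert_of_mem hx)
    obtain ⟨r, s, hrs⟩ := (IntermediateField.mem_adjoin_simple_iff k a).1
      (hS a (Finset.mem_insert_self a S))
    by_cases hs : s = 0
    · refine ⟨h, δ + 1, h0, fun x hx => ?_⟩
      rcases Finset.mem_insert.1 hx with rfl | hx
      · refine ⟨0, by simp, ?_⟩
        rw [hrs, hs]
        simp
      · obtain ⟨r', h1, h2⟩ := hh x hx
        exact ⟨r', by omega, h2⟩
    · refine ⟨h * s, δ + s.natDegree + r.natDegree + h.natDegree + 1, mul_ne_zero h0 hs,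
        fun x hx => ?_⟩
      have hs' : aeval t s ≠ 0 := fun h1 => hs (by
        by_contra h2
        exact ht ⟨s, h2, h1⟩)
      rcases Finset.mem_insert.1 hx with rfl | hx
      · refine ⟨r * h, ?_, ?_⟩
        · have := natDegree_mul_le (p := r) (q := h)
          omega
        · rw [hrs, map_mul, map_mul]
          field_simp
      · obtain ⟨r', h1, h2⟩ := hh x hx
        refine ⟨r' * s, ?_, ?_⟩
        · have := natDegree_mul_le (p := r') (q := s)
          omega
        · rw [map_mul, map_mul, ← h2]
          ring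

theorem linearIndependent_pow_of_transcendental (t : E) (ht : Transcendental k t) :
    LinearIndependent k fun u : ℕ => t ^ u := by
  have h1 := (Polynomial.basisMonomials k).linearIndependent.map' (aeval (R := k) t).toLinearMap
    (LinearMap.ker_eq_bot.2 (transcendental_iff_injective.1 ht))
  have h2 : (fun u : ℕ => t ^ u) =
      (aeval (R := k) t).toLinearMap ∘ (Polynomial.basisMonomials k) := by
    funext u
    simp
  rw [h2]
  exact h1

open IntermediateField in
theorem linearIndependent_mul (t : E) (ht : Transcendental k t) {D : ℕ}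
    (b : Basis (Fin D) k⟮t⟯ E) (T : ℕ) :
    LinearIndependent k fun q : Fin (T + 1) × Fin D => t ^ (q.1 : ℕ) * b q.2 := by
  have h1 : LinearIndependent k fun u : Fin (T + 1) =>
      (⟨t ^ (u : ℕ), pow_mem (mem_adjoin_simple_self k t) _⟩ : k⟮t⟯) := by
    refine LinearIndependent.of_comp (k⟮t⟯).val.toLinearMap ?_
    exact (linearIndependent_pow_of_transcendental t ht).comp (fun u : Fin (T + 1) => (u : ℕ))
      Fin.val_injective
  exact linearIndependent_smul h1 b.linearIndependent

theorem growth_arith (n c δ : ℕ) (hn : 2 * c < n) :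
    c * (2 * (c * (δ + 1)) + δ + 1) < n * (c * (δ + 1) + 1) := by
  have h2 : (2 * c + 1) * (c * (δ + 1) + 1) ≤ n * (c * (δ + 1) + 1) :=
    Nat.mul_le_mul_right _ hn
  have h3 : (2 * c + 1) * (c * (δ + 1) + 1) = c * (2 * (c * (δ + 1)) + δ + 1) + (2 * c + 1) := by
    ring
  omega

open IntermediateField in
/-- The spaces of sections of large degree: `v v' a ∈ U` for `v, v' ∈ V`, and
`dim U` is about `2 dim V`. -/
theorem exists_growth (t : E) (ht : Transcendental k t) [FiniteDimensional k⟮t⟯ E] (S : Finset E)
    (n c : ℕ) (hn : 2 * c < n) : ∃ V U : Submodule k E, FiniteDimensional k V ∧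
      FiniteDimensional k U ∧ c * finrank k U < n * finrank k V ∧
      ∀ v ∈ V, ∀ v' ∈ V, ∀ a ∈ S, v * v' * a ∈ U := by
  classical
  obtain ⟨D, hD⟩ : ∃ D, D = finrank k⟮t⟯ E := ⟨_, rfl⟩
  have hD0 : 0 < D := hD ▸ Module.finrank_pos
  obtain ⟨b⟩ : Nonempty (Basis (Fin D) k⟮t⟯ E) := ⟨Module.finBasisOfFinrankEq _ _ hD.symm⟩
  -- the structure constants
  obtain ⟨h, δ, h0, hh⟩ := common_denom t ht
    ((S ×ˢ (Finset.univ : Finset (Fin D × Fin D × Fin D))).image
      fun q => ((b.repr (q.1 * (b q.2.1 * b q.2.2.1)) q.2.2.2 : k⟮t⟯) : E))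
    (by
      intro x hx
      obtain ⟨q, -, rfl⟩ := Finset.mem_image.1 hx
      exact SetLike.coe_mem _)
  have hh0 : aeval t h ≠ 0 := fun h1 => ht ⟨h, h0, h1⟩
  -- the number of variables
  obtain ⟨T, hT⟩ : ∃ T, T = c * (δ + 1) := ⟨_, rfl⟩
  have hli : LinearIndependent k fun q : Fin (T + 1) × Fin D => t ^ (q.1 : ℕ) * b q.2 :=
    linearIndependent_mul t ht b T
  refine ⟨Submodule.span k (Set.range fun q : Fin (T + 1) × Fin D => t ^ (q.1 : ℕ) * b q.2),
    Submodule.span k (Set.range fun q : Fin (2 * T + δ + 1) × Fin D =>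
      t ^ (q.1 : ℕ) * b q.2 * (aeval t h)⁻¹), FiniteDimensional.span_of_finite k
        (Set.finite_range _), FiniteDimensional.span_of_finite k (Set.finite_range _), ?_, ?_⟩
  · rw [finrank_span_eq_card hli]
    have h1 : finrank k (Submodule.span k (Set.range fun q : Fin (2 * T + δ + 1) × Fin D =>
      t ^ (q.1 : ℕ) * b q.2 * (aeval t h)⁻¹)) ≤ (2 * T + δ + 1) * D := by
      refine (finrank_range_le_card _).trans ?_
      simp
    simp only [Fintype.card_prod, Fintype.card_fin]
    calc c * _ ≤ c * ((2 * T + δ + 1) * D) := Nat.mul_le_mul_left _ h1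
      _ < n * ((T + 1) * D) := by
        rw [← mul_assoc, ← mul_assoc]
        refine Nat.mul_lt_mul_of_pos_right ?_ hD0
        rw [hT]
        exact growth_arith n c δ hn
  · intro v hv v' hv' a ha
    induction hv using Submodule.span_induction with
    | mem v hv =>
      obtain ⟨⟨u, i⟩, rfl⟩ := hv
      induction hv' using Submodule.span_induction with
      | mem v' hv' =>
        obtain ⟨⟨u', j⟩, rfl⟩ := hv'
        have h2 : a * (b i * b j) = ∑ l, ((b.repr (a * (b i * b j)) l : k⟮t⟯) : E) * b l := by
          conv_lhs => rw [← b.sum_repr (a * (b i * b j))]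
          rfl
        have h3 : t ^ (u : ℕ) * b i * (t ^ (u' : ℕ) * b j) * a =
            ∑ l, t ^ (u : ℕ) * t ^ (u' : ℕ) *
              (((b.repr (a * (b i * b j)) l : k⟮t⟯) : E) * b l) := by
          rw [← Finset.mul_sum, ← h2]
          ring
        show t ^ (u : ℕ) * b i * (t ^ (u' : ℕ) * b j) * a ∈ _
        rw [h3]
        refine Submodule.sum_mem _ fun l _ => ?_
        obtain ⟨r, hr1, hr2⟩ := hh _ (Finset.mem_image.2 ⟨(a, i, j, l),
          Finset.mem_product.2 ⟨ha, Finset.mem_univ _⟩, rfl⟩)
        have h4 : t ^ (u : ℕ) * t ^ (u' : ℕ) * (((b.repr (a * (b i * b j)) l : k⟮t⟯) : E) * b l) =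
            ∑ e ∈ Finset.range δ, r.coeff e •
              (t ^ ((u : ℕ) + u' + e) * b l * (aeval t h)⁻¹) := by
          have h5 : ((b.repr (a * (b i * b j)) l : k⟮t⟯) : E) = aeval t r * (aeval t h)⁻¹ := by
            rw [← hr2]
            field_simp
          rw [h5, aeval_eq_sum_range' hr1, Finset.sum_mul, Finset.sum_mul, Finset.mul_sum]
          refine Finset.sum_congr rfl fun e _ => ?_
          simp only [Algebra.smul_def]
          ring
        rw [h4]
        refine Submodule.sum_mem _ fun e he => Submodule.smul_mem _ _ (Submodule.subset_span ?_)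
        rw [Finset.mem_range] at he
        exact ⟨(⟨(u : ℕ) + u' + e, by omega⟩, l), rfl⟩
      | zero => simp
      | add x y _ _ hx hy =>
        have h2 : t ^ (u : ℕ) * b i * (x + y) * a = t ^ (u : ℕ) * b i * x * a +
          t ^ (u : ℕ) * b i * y * a := by ring
        show t ^ (u : ℕ) * b i * (x + y) * a ∈ _
        rw [h2]
        exact Submodule.add_mem _ hx hy
      | smul c x _ hx =>
        have h2 : t ^ (u : ℕ) * b i * (c • x) * a = c • (t ^ (u : ℕ) * b i * x * a) := by
          simp only [Algebra.smul_def]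
          ring
        show t ^ (u : ℕ) * b i * (c • x) * a ∈ _
        rw [h2]
        exact Submodule.smul_mem _ _ hx
    | zero => simp
    | add x y _ _ hx hy =>
      have h2 : (x + y) * v' * a = x * v' * a + y * v' * a := by ring
      rw [h2]
      exact Submodule.add_mem _ hx hy
    | smul c x _ hx =>
      have h2 : c • x * v' * a = c • (x * v' * a) := by
        simp only [Algebra.smul_def]
        ring
      rw [h2]
      exact Submodule.smul_mem _ _ hx

end growth

/-- `E/k` is a function field of one variable. -/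
def FunField (k E : Type*) [Field k] [Field E] [Algebra k E] : Prop :=
  ∃ t : E, Transcendental k t ∧ FiniteDimensional (IntermediateField.adjoin k {t}) E

/-- The hypothesis on `L` in variables and forms indexed by arbitrary finite types. -/
theorem HBat.fintype {s : ℕ} {L : Type*} [Field L] (h : HBat s L) {I J : Type*} [Fintype I]
    [Fintype J] (hI : Fintype.card I = s) (hJ : 4 * s < Fintype.card J) (B : I → J → J → L) :
    ∃ y : J → L, y ≠ 0 ∧ ∀ i, ∑ a, ∑ b, y a * (B i a b * y b) = 0 := by
  classical
  let eI : I ≃ Fin s := (Fintype.equivFin I).trans (finCongr hI)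
  let eJ : J ≃ Fin (Fintype.card J) := Fintype.equivFin J
  obtain ⟨y, hy0, hy⟩ := h (Fintype.card J) hJ
    (fun i => Matrix.of fun a b => B (eI.symm i) (eJ.symm a) (eJ.symm b))
  refine ⟨fun a => y (eJ a), fun h1 => hy0 ?_, fun i => ?_⟩
  · funext a
    have := congrFun h1 (eJ.symm a)
    simpa using this
  · have h2 := hy (eI i)
    rw [← h2]
    simp only [dotProduct, Matrix.mulVec, Matrix.of_apply, Equiv.symm_apply_apply]
    rw [← Equiv.sum_comp eJ]
    refine Finset.sum_congr rfl fun a _ => ?_
    rw [← Equiv.sum_comp eJ, Finset.mul_sum]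
    refine Finset.sum_congr rfl fun b _ => ?_
    simp

/-- `k`-linearly independent families in `E` stay `L`-linearly independent in `M`. -/
def Disj (k E L M : Type*) [Field k] [Field E] [Field L] [Field M] [Algebra k E] [Algebra E M]
    [Algebra L M] : Prop :=
  ∀ (m : ℕ) (v : Fin m → E), LinearIndependent k v →
    LinearIndependent L fun i => algebraMap E M (v i)

theorem expand {R : Type*} [CommRing R] {n d e : ℕ} (Y : Fin n × Fin d → R) (W : Fin d → R)
    (Z : Fin n → Fin n → R) (G : Fin n → Fin n → Fin d → Fin d → Fin e → R) (U : Fin e → R)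
    (h : ∀ a b s s', W s * W s' * Z a b = ∑ q, G a b s s' q * U q) :
    ∑ a, (∑ s, Y (a, s) * W s) * ∑ b, Z a b * ∑ s', Y (b, s') * W s' =
      ∑ q, (∑ as : Fin n × Fin d, ∑ bs : Fin n × Fin d,
        Y as * (G as.1 bs.1 as.2 bs.2 q * Y bs)) * U q := by
  have h1 : ∑ q, (∑ as : Fin n × Fin d, ∑ bs : Fin n × Fin d,
        Y as * (G as.1 bs.1 as.2 bs.2 q * Y bs)) * U q =
      ∑ as : Fin n × Fin d, ∑ bs : Fin n × Fin d, Y as * Y bs *
        (W as.2 * W bs.2 * Z as.1 bs.1) := by
    simp_rw [Finset.sum_mul]
    rw [Finset.sum_comm]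
    refine Finset.sum_congr rfl fun as _ => ?_
    rw [Finset.sum_comm]
    refine Finset.sum_congr rfl fun bs _ => ?_
    rw [h, Finset.mul_sum]
    refine Finset.sum_congr rfl fun q _ => ?_
    ring
  rw [h1, Fintype.sum_prod_type]
  refine Finset.sum_congr rfl fun a _ => ?_
  rw [Finset.sum_mul]
  refine Finset.sum_congr rfl fun s _ => ?_
  rw [Fintype.sum_prod_type, Finset.mul_sum]
  refine Finset.sum_congr rfl fun b _ => ?_
  rw [Finset.mul_sum, Finset.mul_sum]
  refine Finset.sum_congr rfl fun s' _ => ?_
  ring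

theorem descend {k E : Type*} [Field k] [Field E] [Algebra k E] {r n : ℕ}
    (A : Fin r → Matrix (Fin n) (Fin n) E) (V U : Submodule k E) [FiniteDimensional k V]
    [FiniteDimensional k U] (hUV : ∀ v ∈ V, ∀ v' ∈ V, ∀ i a b, v * v' * A i a b ∈ U)
    (hd : 4 * r * finrank k U < n * finrank k V) {L M : Type*} [Field L] [Field M] [Algebra k L]
    [Algebra k M] [Algebra E M] [Algebra L M] [IsScalarTower k E M] [IsScalarTower k L M]
    (hdis : Disj k E L M) (hL : HBat (r * finrank k U) L) :
    ∃ x : Fin n → M, x ≠ 0 ∧ ∀ i, dotProduct x (((A i).map (algebraMap E M)).mulVec x) = 0 := by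
  classical
  obtain ⟨d, hdd⟩ : ∃ d, d = finrank k V := ⟨_, rfl⟩
  obtain ⟨e, hee⟩ : ∃ e, e = finrank k U := ⟨_, rfl⟩
  rw [← hee] at hL
  rw [← hdd, ← hee] at hd
  obtain ⟨v⟩ : Nonempty (Basis (Fin d) k V) := ⟨Module.finBasisOfFinrankEq _ _ hdd.symm⟩
  obtain ⟨u⟩ : Nonempty (Basis (Fin e) k U) := ⟨Module.finBasisOfFinrankEq _ _ hee.symm⟩
  -- the structure constants
  have hγ : ∀ i a b s s', ∃ γ : Fin e → k,
      (v s : E) * (v s' : E) * A i a b = ∑ q, γ q • (u q : E) := by
    intro i a b s s'
    refine ⟨fun q => u.repr ⟨(v s : E) * (v s' : E) * A i a b, hUV _ (v s).2 _ (v s').2 i a b⟩ q,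
      ?_⟩
    have h1 := congrArg Subtype.val (u.sum_repr
      ⟨(v s : E) * (v s' : E) * A i a b, hUV _ (v s).2 _ (v s').2 i a b⟩)
    rw [Submodule.coe_sum] at h1
    exact h1.symm
  choose γ hγ using hγ
  obtain ⟨y, hy0, hy⟩ := hL.fintype (I := Fin r × Fin e) (J := Fin n × Fin d) (by simp)
    (by simp only [Fintype.card_prod, Fintype.card_fin]; rw [← mul_assoc]; exact hd)
    (fun iq as bs => algebraMap k L (γ iq.1 as.1 bs.1 as.2 bs.2 iq.2))
  refine ⟨fun a => ∑ s, algebraMap L M (y (a, s)) * algebraMap E M (v s), fun h1 => hy0 ?_,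
    fun i => ?_⟩
  · have h2 := hdis d (fun s => (v s : E)) (v.linearIndependent.map' V.subtype V.ker_subtype)
    funext as
    have h3 := congrFun h1 as.1
    have h4 := Fintype.linearIndependent_iff.1 h2 (fun s => y (as.1, s)) (by
      simpa [Algebra.smul_def] using h3) as.2
    exact h4
  · have h5 : ∀ a b s s', algebraMap E M (v s) * algebraMap E M (v s') *
          algebraMap E M (A i a b) =
          ∑ q, algebraMap L M (algebraMap k L (γ i a b s s' q)) * algebraMap E M (u q) := by
      intro a b s s'
      rw [← map_mul, ← map_mul, hγ, map_sum]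
      refine Finset.sum_congr rfl fun q _ => ?_
      rw [Algebra.smul_def, map_mul, ← IsScalarTower.algebraMap_apply,
        ← IsScalarTower.algebraMap_apply]
    have h6 := expand (fun as => algebraMap L M (y as)) (fun s => algebraMap E M (v s))
      (fun a b => algebraMap E M (A i a b))
      (fun a b s s' q => algebraMap L M (algebraMap k L (γ i a b s s' q)))
      (fun q => algebraMap E M (u q)) h5
    simp only [dotProduct, Matrix.mulVec, Matrix.map_apply]
    rw [h6]
    refine Finset.sum_eq_zero fun q _ => ?_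
    have h7 := congrArg (algebraMap L M) (hy (i, q))
    simp only [map_sum, map_mul, map_zero] at h7
    rw [h7, zero_mul]

/-- **Claim (H).** A system of `r` quadratic forms in `n > 8 r` variables over a function field `E`
of one variable over `k`: there is `s` such that the system has a nontrivial zero over every field
`M` which contains `E` and an extension `L` of `k`, linearly disjoint from `E`, such that `s`
quadratic forms over `L` in more than `4 s` variables always have a nontrivial zero. -/
theorem claimH {k E : Type*} [Field k] [Field E] [Algebra k E] (hE : FunField k E) {r n : ℕ}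
    (hn : 8 * r < n) (A : Fin r → Matrix (Fin n) (Fin n) E) :
    ∃ s : ℕ, ∀ (L M : Type*) [Field L] [Field M] [Algebra k L] [Algebra k M] [Algebra E M]
      [Algebra L M] [IsScalarTower k E M] [IsScalarTower k L M], Disj k E L M → HBat s L →
      ∃ x : Fin n → M, x ≠ 0 ∧
        ∀ i, dotProduct x (((A i).map (algebraMap E M)).mulVec x) = 0 := by
  classical
  obtain ⟨t, ht, hfin⟩ := hE
  obtain ⟨V, U, hV, hU, hd, hUV⟩ := exists_growth t ht
    (Finset.univ.image fun q : Fin r × Fin n × Fin n => A q.1 q.2.1 q.2.2) n (4 * r) (by omega)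
  refine ⟨r * finrank k U, fun L M _ _ _ _ _ _ _ _ hdis hL => ?_⟩
  exact descend A V U (fun v hv v' hv' i a b => hUV v hv v' hv' _
    (Finset.mem_image.2 ⟨(i, a, b), Finset.mem_univ _, rfl⟩)) hd hdis hL

/-- Linear disjointness: some basis of `L/k` is linearly independent over `E`. -/
theorem disj_of_basis {k E L M : Type*} [Field k] [Field E] [Field L] [Field M] [Algebra k E]
    [Algebra k L] [Algebra k M] [Algebra E M] [Algebra L M] [IsScalarTower k E M]
    [IsScalarTower k L M] {ι : Type*} [Fintype ι] (β : Basis ι k L)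
    (hβ : LinearIndependent E fun i => algebraMap L M (β i)) : Disj k E L M := by
  intro m v hv
  rw [Fintype.linearIndependent_iff]
  intro c hc
  -- the coefficients of `∑ c j v j` in the basis `β`
  have h1 : ∑ i, (∑ j, (β.repr (c j) i) • v j) • algebraMap L M (β i) = 0 := by
    rw [← hc]
    simp_rw [Finset.sum_smul]
    rw [Finset.sum_comm]
    refine Finset.sum_congr rfl fun j _ => ?_
    have h2 : c j = ∑ i, β.repr (c j) i • β i := (β.sum_repr (c j)).symm
    conv_rhs => rw [h2, Finset.sum_smul]
    refine Finset.sum_congr rfl fun i _ => ?_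
    simp only [Algebra.smul_def, map_mul, ← IsScalarTower.algebraMap_apply]
    ring
  have h3 := Fintype.linearIndependent_iff.1 hβ _ h1
  intro j
  have h4 : ∀ i, β.repr (c j) i = 0 := fun i =>
    Fintype.linearIndependent_iff.1 hv _ (h3 i) j
  rw [← β.sum_repr (c j)]
  exact Finset.sum_eq_zero fun i _ => by rw [h4, zero_smul]

end Fa
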