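import Mathlib
import Pool.Agent.Lib.MP_f80667_ag.Fa.FH

/-!
The compositum of a function field `E/k` and a finite extension `L/k` of degree prime to the degree
of `E` over a rational subfield.
-/

open Module Polynomial IntermediateField

namespace Fa

universe u

/-- An irreducible polynomial over `k` stays irreducible over the rational function field. -/
theorem irr_ratFunc {k : Type*} [Field k] {f : k[X]} (hm : f.Monic) (hf : Irreducible f) :
    Irreducible (f.map (algebraMap k (RatFunc k))) := by
  have h1 : Prime (f.map C : k[X][X]) := by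
    have h2 : Prime (C f : k[X][X]) := prime_C_iff.2 hf.prime
    rw [← Bivariate.swap_C]
    exact (MulEquiv.prime_iff (Bivariate.swap (R := k)).toMulEquiv).2 h2
  have h3 : (f.map C : k[X][X]).Monic := hm.map C
  have h4 := (h3.irreducible_iff_irreducible_map_fraction_map (K := RatFunc k)).1 h1.irreducible
  rw [Polynomial.map_map] at h4
  exact h4

/-- An irreducible polynomial over `k` stays irreducible over `k(t)`, `t` transcendental. -/
theorem irr_adjoin {k E : Type*} [Field k] [Field E] [Algebra k E] {t : E}
    (ht : Transcendental k t) {f : k[X]} (hm : f.Monic) (hf : Irreducible f) :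
    Irreducible (f.map (algebraMap k k⟮t⟯)) := by
  have h1 := irr_ratFunc hm hf
  have h2 := (MulEquiv.irreducible_iff (Polynomial.mapEquiv
    (RatFunc.algEquivOfTranscendental t ht).toRingEquiv).toMulEquiv).2 h1
  convert h2 using 1
  change _ = Polynomial.map _ _
  rw [Polynomial.map_map]
  congr 1
  refine RingHom.ext fun x => ?_
  exact ((RatFunc.algEquivOfTranscendental t ht).commutes x).symm

/-- An irreducible polynomial over `F` stays irreducible over extensions of degree prime to its
degree. -/
theorem irr_of_coprime {F E : Type*} [Field F] [Field E] [Algebra F E] [FiniteDimensional F E]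
    {f : F[X]} (hm : f.Monic) (hf : Irreducible f) (hc : f.natDegree.Coprime (finrank F E)) :
    Irreducible (f.map (algebraMap F E)) := by
  set K := AlgebraicClosure E
  have hd : f.degree ≠ 0 := hf.degree_pos.ne'
  obtain ⟨β, hβ⟩ := IsAlgClosed.exists_aeval_eq_zero K f hd
  have hint : IsIntegral E β := Algebra.IsIntegral.isIntegral β
  set q := minpoly E β with hq
  have hroot : aeval β (f.map (algebraMap F E)) = 0 := by
    rw [aeval_map_algebraMap]
    exact hβ
  have hdvd : q ∣ f.map (algebraMap F E) := minpoly.dvd E β hroot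
  have hfin : FiniteDimensional E E⟮β⟯ := adjoin.finiteDimensional hint
  have hfin' : FiniteDimensional F E⟮β⟯ := FiniteDimensional.trans F E E⟮β⟯
  have h1 : finrank E E⟮β⟯ = q.natDegree := adjoin.finrank hint
  have h2 : finrank F E * finrank E E⟮β⟯ = finrank F E⟮β⟯ := finrank_mul_finrank F E E⟮β⟯
  have htow : IsScalarTower F E⟮β⟯ K := IsScalarTower.of_algebraMap_eq fun x => by
    rw [IsScalarTower.algebraMap_apply F E K, IsScalarTower.algebraMap_apply F E E⟮β⟯]
    rfl
  have h3 : minpoly F (AdjoinSimple.gen E β) = f := by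
    refine (minpoly.eq_of_irreducible_of_monic hf ?_ hm).symm
    apply (algebraMap E⟮β⟯ K).injective
    rw [map_zero, ← aeval_algebraMap_apply, AdjoinSimple.algebraMap_gen]
    exact hβ
  have h4 : f.natDegree ∣ finrank F E⟮β⟯ := by
    rw [← h3]
    exact minpoly.degree_dvd (Algebra.IsIntegral.isIntegral _)
  rw [← h2, h1] at h4
  have h5 : f.natDegree ∣ q.natDegree := hc.dvd_of_dvd_mul_left h4
  have h6 : q.natDegree ≠ 0 := (minpoly.natDegree_pos hint).ne'
  have h7 : f.natDegree ≤ q.natDegree := Nat.le_of_dvd (Nat.pos_of_ne_zero h6) h5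
  have h8 : q = f.map (algebraMap F E) :=
    (Polynomial.eq_of_monic_of_dvd_of_natDegree_le (minpoly.monic hint) (hm.map _) hdvd
      (by rw [natDegree_map]; exact h7)).symm
  rw [← h8]
  exact minpoly.irreducible hint

/-- Enlarging the field of a function field of one variable. -/
theorem funField_ext {k E M : Type*} [Field k] [Field E] [Field M] [Algebra k E] [Algebra k M]
    [Algebra E M] [IsScalarTower k E M] [FiniteDimensional E M] (hE : FunField k E) :
    FunField k M := by
  obtain ⟨t, ht, hfin⟩ := hE
  refine ⟨algebraMap E M t, ?_, ?_⟩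
  · exact (transcendental_algebraMap_iff (algebraMap E M).injective).2 ht
  · have hfin2 : FiniteDimensional k⟮t⟯ M := FiniteDimensional.trans k⟮t⟯ E M
    have hmem : ∀ a : k⟮t⟯, algebraMap E M a ∈ k⟮algebraMap E M t⟯ := by
      intro a
      have h1 : (k⟮t⟯).map (IsScalarTower.toAlgHom k E M) = k⟮algebraMap E M t⟯ := by
        rw [adjoin_map, Set.image_singleton]
        rfl
      rw [← h1]
      exact ⟨a, a.2, rfl⟩
    obtain ⟨s, hs⟩ := (Module.Finite.fg_top (R := k⟮t⟯) (M := M))
    refine ⟨⟨s, ?_⟩⟩
    rw [eq_top_iff]
    intro x _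
    have hx : x ∈ Submodule.span k⟮t⟯ (s : Set M) := by rw [hs]; trivial
    induction hx using Submodule.span_induction with
    | mem y hy => exact Submodule.subset_span hy
    | zero => exact zero_mem _
    | add y z _ _ hy hz => exact add_mem (hy trivial) (hz trivial)
    | smul a y _ hy =>
      have h2 : a • y = (⟨algebraMap E M a, hmem a⟩ : k⟮algebraMap E M t⟯) • y := by
        rw [Algebra.smul_def, Algebra.smul_def]
        rfl
      rw [h2]
      exact Submodule.smul_mem _ _ (hy trivial)

/-- The compositum. -/
theorem exists_comp {k E Ω : Type u} [Field k] [CharZero k] [Field E] [Algebra k E] [Field Ω]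
    [Algebra k Ω] {t : E} (ht : Transcendental k t) [FiniteDimensional k⟮t⟯ E]
    (L : IntermediateField k Ω) [FiniteDimensional k L]
    (hc : (finrank k L).Coprime (finrank k⟮t⟯ E)) :
    ∃ (M : Type u) (_ : Field M) (_ : Algebra k M) (_ : Algebra E M) (_ : Algebra L M)
      (_ : IsScalarTower k E M) (_ : IsScalarTower k L M) (θ : M) (f : k[X]),
      f.Monic ∧ f.Separable ∧ f.map (algebraMap k E) = minpoly E θ ∧ IsIntegral E θ ∧
      Algebra.adjoin E {θ} = ⊤ ∧ f.natDegree = finrank k L ∧ Disj k E L M ∧ FunField k M := by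
  set pb := Field.powerBasisOfFiniteOfSeparable k L with hpb
  set f := minpoly k pb.gen with hf
  have hint : IsIntegral k pb.gen := pb.isIntegral_gen
  have hmon : f.Monic := minpoly.monic hint
  have hirr : Irreducible f := minpoly.irreducible hint
  have hdeg : f.natDegree = finrank k L := by
    rw [hf, pb.natDegree_minpoly, pb.finrank]
  have hirrE : Irreducible (f.map (algebraMap k E)) := by
    have h1 := irr_adjoin ht hmon hirr
    have h2 := irr_of_coprime (E := E) (hmon.map (algebraMap k k⟮t⟯)) h1
      (by rw [natDegree_map, hdeg]; exact hc)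
    rwa [Polynomial.map_map, ← IsScalarTower.algebraMap_eq] at h2
  have : Fact (Irreducible (f.map (algebraMap k E))) := ⟨hirrE⟩
  let M := AdjoinRoot (f.map (algebraMap k E))
  let θ : M := AdjoinRoot.root _
  have hθ : aeval θ (minpoly k pb.gen) = 0 := by
    rw [← hf, ← aeval_map_algebraMap E, AdjoinRoot.aeval_eq, AdjoinRoot.mk_self]
  let φ : L →ₐ[k] M := pb.lift θ hθ
  let : Algebra L M := φ.toRingHom.toAlgebra
  have hLM : IsScalarTower k L M := IsScalarTower.of_algebraMap_eq fun x => (φ.commutes x).symm
  have hne : f.map (algebraMap k E) ≠ 0 := hirrE.ne_zero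
  have hmin : minpoly E θ = f.map (algebraMap k E) := by
    rw [AdjoinRoot.minpoly_root hne, (hmon.map (algebraMap k E)).leadingCoeff, inv_one, C_1,
      mul_one]
  have hintE : IsIntegral E θ := AdjoinRoot.isIntegral_root hne
  refine ⟨M, inferInstance, inferInstance, inferInstance, inferInstance, inferInstance, hLM, θ, f,
    hmon, hirr.separable, hmin.symm, hintE, AdjoinRoot.adjoinRoot_eq_top, hdeg, ?_, ?_⟩
  · refine disj_of_basis pb.basis ?_
    have h1 : ∀ i : Fin pb.dim, algebraMap L M (pb.basis i) = θ ^ (i : ℕ) := by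
      intro i
      rw [pb.basis_eq_pow]
      change φ (pb.gen ^ (i : ℕ)) = _
      rw [map_pow, pb.lift_gen]
    have h2 := linearIndependent_pow (K := E) θ
    have h3 : (minpoly E θ).natDegree = pb.dim := by
      rw [hmin, natDegree_map, hdeg, pb.finrank]
    simp only [h1]
    rw [h3] at h2
    exact h2
  · have : FiniteDimensional E M := (AdjoinRoot.powerBasis hne).finite
    exact funField_ext ⟨t, ht, inferInstance⟩

end Fa
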