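import Pool.Agent.Lib.MP_f80667_ag.Fa.Ext0

/-! Extension of constants `M = E(θ)` of a function field: the places of `M` over a place of `E`
with a uniformizer. -/

open Polynomial

open scoped LinearAlgebra.Projectivization

namespace Fa

open ZC

universe u

variable {k E M Ω : Type u} [Field k] [Field E] [Field M] [Field Ω] [Algebra k E] [Algebra k Ω]
  [Algebra E M]

/-- A common denominator in the valuation ring. -/
theorem exists_den {f : k[X]} {θ : M} (H : Cst k E f θ) (w : Place k E Ω) (y : M) :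
    ∃ (c : w.V) (p : w.V[X]), c ≠ 0 ∧ y * algebraMap E M c = ev w θ p := by
  obtain ⟨P, hP⟩ := H.gen y
  obtain ⟨b, hbM, hb⟩ := IsLocalization.integerNormalization_spec (nonZeroDivisors w.V) P
  refine ⟨b, IsLocalization.integerNormalization (nonZeroDivisors w.V) P,
    nonZeroDivisors.ne_zero hbM, ?_⟩
  rw [ev_eq]
  have h1 : (algebraMap w.V E) = w.V.subtype := rfl
  rw [← h1, hb, ← hP]
  have h2 : (b • P) = C (b : E) * P := by
    ext i
    rw [coeff_smul, coeff_C_mul]
    rfl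
  rw [h2, map_mul, aeval_C, mul_comm]

/-- The data of an extension of constants and a place with a uniformizer. -/
structure Ram (w : Place k E Ω) (f : k[X]) (θ : M) (β : Ω) (π : E) : Prop where
  H : Cst k E f θ
  hE : IsFunField k E
  hβ : aeval β f = 0
  hπ0 : π ≠ 0
  hπ : ∀ x : E, x ∈ w.V.nonunits ↔ x / π ∈ w.V

/-- `y = π ^ e u`, `u` a unit at the place of `M` with `θ ↦ β`. -/
def Rep (w : Place k E Ω) (θ : M) (β : Ω) (π : E) (y : M) (e : ℤ) : Prop :=
  ∃ p q : w.V[X], ph w β p ≠ 0 ∧ ph w β q ≠ 0 ∧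
    y * ev w θ q = algebraMap E M π ^ e * ev w θ p

variable {f : k[X]} {θ : M} {β : Ω} {w : Place k E Ω} {π : E}

theorem Ram.map_ne (R : Ram w f θ β π) : algebraMap E M π ≠ 0 :=
  (_root_.map_ne_zero _).2 R.hπ0

theorem Ram.ev_ne (R : Ram w f θ β π) {q : w.V[X]} (hq : ph w β q ≠ 0) : ev w θ q ≠ 0 :=
  fun h => hq (wd R.H R.hβ h)

theorem Ram.rep_poly (R : Ram w f θ β π) {r : w.V[X]} (hr : ev w θ r ≠ 0) :
    ∃ e : ℕ, Rep w θ β π (ev w θ r) e := by
  classical
  by_contra hcon
  push Not at hcon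
  have key : ∀ n : ℕ, ∃ σ r' : w.V[X], ph w β σ ≠ 0 ∧
      ev w θ r * ev w θ σ = algebraMap E M π ^ n * ev w θ r' := by
    intro n
    induction n with
    | zero => exact ⟨1, r, by simp, by simp⟩
    | succ n ih =>
      obtain ⟨σ, r', h1, h2⟩ := ih
      have h3 : ph w β r' = 0 := by
        by_contra h3
        exact hcon n ⟨r', σ, h3, h1, by rw [zpow_natCast]; exact h2⟩
      obtain ⟨s, r'', h4, h5⟩ := step R.H R.hβ R.hπ0 R.hπ h3
      refine ⟨σ * s, r'', by rw [map_mul]; exact mul_ne_zero h1 h4, ?_⟩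
      rw [map_mul, ← mul_assoc, h2, pow_succ]
      linear_combination (algebraMap E M π) ^ n * h5
  obtain ⟨c, r1, hc0, hr1⟩ := exists_den R.H w (ev w θ r)⁻¹
  have hc0' : (c : E) ≠ 0 := fun h => hc0 (by ext; exact h)
  obtain ⟨n, hn⟩ := disc R.hE w R.hπ0 R.hπ hc0'
  have hd : π ^ n / (c : E) ∈ w.V.nonunits := by
    rw [ValuationSubring.mem_nonunits_iff_or]
    right
    rw [inv_div]
    exact hn
  obtain ⟨σ, r', h1, h2⟩ := key n
  have h3 : ev w θ σ = ev w θ (C ⟨π ^ n / (c : E), w.V.nonunits_subset hd⟩ * (r' * r1)) := by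
    rw [map_mul, ev_C, map_mul, ← hr1, map_div₀, map_pow]
    have h4 : algebraMap E M (c : E) ≠ 0 := (_root_.map_ne_zero _).2 hc0'
    field_simp
    linear_combination h2
  have h4 := wd' R.H R.hβ h3
  rw [map_mul, ph_C, (res_eq_zero_iff w _).2 hd, zero_mul] at h4
  exact h1 h4

theorem Ram.exists_rep (R : Ram w f θ β π) {y : M} (hy : y ≠ 0) :
    ∃ e : ℤ, Rep w θ β π y e := by
  obtain ⟨c, r, hc0, hr⟩ := exists_den R.H w y
  have hc0' : algebraMap E M (c : E) ≠ 0 := (_root_.map_ne_zero _).2 (fun h => hc0 (by ext; exact h))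
  have hr0 : ev w θ r ≠ 0 := by
    rw [← hr]
    exact mul_ne_zero hy hc0'
  obtain ⟨e1, p1, q1, hp1, hq1, h1⟩ := R.rep_poly hr0
  obtain ⟨e2, p2, q2, hp2, hq2, h2⟩ := R.rep_poly (r := C c) (by rw [ev_C]; exact hc0')
  refine ⟨e1 - e2, p1 * q2, p2 * q1, by rw [map_mul]; exact mul_ne_zero hp1 hq2,
    by rw [map_mul]; exact mul_ne_zero hp2 hq1, ?_⟩
  rw [ev_C] at h2
  rw [zpow_natCast] at h1 h2
  rw [zpow_sub₀ R.map_ne, zpow_natCast, zpow_natCast, map_mul, map_mul]
  have h3 : algebraMap E M π ^ e2 ≠ 0 := pow_ne_zero _ R.map_ne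
  field_simp
  rw [← hr] at h1
  have h4 : y * ev w θ p2 * ev w θ q1 * algebraMap E M π ^ e2 =
      (y * algebraMap E M c * ev w θ q1) * ev w θ q2 := by
    linear_combination (-y * ev w θ q1) * h2
  linear_combination h4 + ev w θ q2 * h1

/-- The valuation ring of the place `θ ↦ β` of `M` over `w`. -/
def Ram.V1 (R : Ram w f θ β π) : ValuationSubring M where
  carrier := {y | ∃ p q : w.V[X], ph w β q ≠ 0 ∧ y * ev w θ q = ev w θ p}
  mul_mem' := by
    rintro x y ⟨p, q, hq, hx⟩ ⟨p', q', hq', hy⟩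
    exact ⟨p * p', q * q', by rw [map_mul]; exact mul_ne_zero hq hq',
      by rw [map_mul, map_mul, ← hx, ← hy]; ring⟩
  one_mem' := ⟨1, 1, by simp, by simp⟩
  add_mem' := by
    rintro x y ⟨p, q, hq, hx⟩ ⟨p', q', hq', hy⟩
    exact ⟨p * q' + p' * q, q * q', by rw [map_mul]; exact mul_ne_zero hq hq',
      by simp only [map_add, map_mul, ← hx, ← hy]; ring⟩
  zero_mem' := ⟨0, 1, by simp, by simp⟩
  neg_mem' := by
    rintro x ⟨p, q, hq, hx⟩
    exact ⟨-p, q, hq, by simp only [map_neg, ← hx]; ring⟩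
  mem_or_inv_mem' := by
    intro y
    by_cases hy0 : y = 0
    · left
      exact ⟨0, 1, by simp, by simp [hy0]⟩
    obtain ⟨e, p, q, hp, hq, h⟩ := R.exists_rep hy0
    have hπV : π ∈ w.V := by
      have h1 : π ∈ w.V.nonunits := by
        rw [R.hπ, div_self R.hπ0]
        exact w.V.one_mem
      exact w.V.nonunits_subset h1
    rcases le_total 0 e with he | he
    · left
      obtain ⟨n, rfl⟩ := Int.eq_ofNat_of_zero_le he
      refine ⟨C (⟨π, hπV⟩ ^ n) * p, q, hq, ?_⟩
      rw [h, map_mul, ev_C]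
      simp
    · right
      obtain ⟨n, hn⟩ := Int.eq_ofNat_of_zero_le (show 0 ≤ -e by omega)
      refine ⟨C (⟨π, hπV⟩ ^ n) * q, p, hp, ?_⟩
      have he' : e = -(n : ℤ) := by omega
      rw [he', zpow_neg, zpow_natCast] at h
      rw [map_mul, ev_C]
      have h3 : algebraMap E M π ^ n ≠ 0 := pow_ne_zero _ R.map_ne
      have h4 : ev w θ p = algebraMap E M π ^ n * (y * ev w θ q) := by
        rw [h]
        field_simp
      rw [h4]
      simp
      field_simp

theorem Ram.mem_V1 (R : Ram w f θ β π) {y : M} :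
    y ∈ R.V1 ↔ ∃ p q : w.V[X], ph w β q ≠ 0 ∧ y * ev w θ q = ev w θ p := Iff.rfl

/-- The value at the place. -/
noncomputable def Ram.val1 (_ : Ram w f θ β π) (y : M) : Ω :=
  open Classical in
  if h : ∃ p q : w.V[X], ph w β q ≠ 0 ∧ y * ev w θ q = ev w θ p then
    ph w β h.choose / ph w β h.choose_spec.choose else 0

theorem Ram.val1_eq (R : Ram w f θ β π) {y : M} {p q : w.V[X]} (hq : ph w β q ≠ 0)
    (hy : y * ev w θ q = ev w θ p) : R.val1 y = ph w β p / ph w β q := by
  have h : ∃ p q : w.V[X], ph w β q ≠ 0 ∧ y * ev w θ q = ev w θ p := ⟨p, q, hq, hy⟩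
  have h2 := h.choose_spec.choose_spec
  rw [val1, dif_pos h]
  rw [div_eq_div_iff h2.1 hq, ← map_mul, ← map_mul]
  refine wd' R.H R.hβ ?_
  rw [map_mul, map_mul]
  linear_combination (-ev w θ q) * h2.2 + ev w θ h.choose_spec.choose * hy

/-- The residue map. -/
noncomputable def Ram.res1 (R : Ram w f θ β π) : R.V1 →+* Ω where
  toFun x := R.val1 x
  map_one' := by
    rw [R.val1_eq (y := ((1 : R.V1) : M)) (p := 1) (q := 1) (by simp) (by simp)]
    simp
  map_zero' := by
    rw [R.val1_eq (y := ((0 : R.V1) : M)) (p := 0) (q := 1) (by simp) (by simp)]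
    simp
  map_mul' := by
    intro x y
    obtain ⟨p, q, hq, hx⟩ := R.mem_V1.1 x.2
    obtain ⟨p', q', hq', hy⟩ := R.mem_V1.1 y.2
    have h3 := R.val1_eq (y := (x : M) * y) (p := p * p') (q := q * q')
      (by rw [map_mul]; exact mul_ne_zero hq hq')
      (by rw [map_mul, map_mul, ← hx, ← hy]; ring)
    rw [R.val1_eq hq hx, R.val1_eq hq' hy, MulMemClass.coe_mul, h3, map_mul, map_mul]
    field_simp
  map_add' := by
    intro x y
    obtain ⟨p, q, hq, hx⟩ := R.mem_V1.1 x.2
    obtain ⟨p', q', hq', hy⟩ := R.mem_V1.1 y.2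
    have h3 := R.val1_eq (y := (x : M) + y) (p := p * q' + p' * q) (q := q * q')
      (by rw [map_mul]; exact mul_ne_zero hq hq')
      (by simp only [map_add, map_mul, ← hx, ← hy]; ring)
    rw [R.val1_eq hq hx, R.val1_eq hq' hy, AddMemClass.coe_add, h3, map_add, map_mul, map_mul,
      map_mul]
    field_simp

theorem Ram.ev_mem (R : Ram w f θ β π) (p : w.V[X]) : ev w θ p ∈ R.V1 :=
  ⟨p, 1, by simp, by simp⟩

theorem Ram.val1_ev (R : Ram w f θ β π) (p : w.V[X]) : R.val1 (ev w θ p) = ph w β p := by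
  rw [R.val1_eq (y := ev w θ p) (p := p) (q := 1) (by simp) (by simp)]
  simp

theorem Ram.map_mem (R : Ram w f θ β π) {a : E} (ha : a ∈ w.V) : algebraMap E M a ∈ R.V1 := by
  have := R.ev_mem (C ⟨a, ha⟩)
  rwa [ev_C] at this

theorem Ram.val1_map (R : Ram w f θ β π) {a : E} (ha : a ∈ w.V) :
    R.val1 (algebraMap E M a) = w.res ⟨a, ha⟩ := by
  have := R.val1_ev (C ⟨a, ha⟩)
  rwa [ev_C, ph_C] at this

theorem Ram.pi_mem (R : Ram w f θ β π) : π ∈ w.V.nonunits := by
  rw [R.hπ, div_self R.hπ0]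
  exact w.V.one_mem

theorem Ram.val1_pi (R : Ram w f θ β π) : R.val1 (algebraMap E M π) = 0 := by
  rw [R.val1_map (w.V.nonunits_subset R.pi_mem)]
  exact (res_eq_zero_iff w ⟨π, w.V.nonunits_subset R.pi_mem⟩).2 R.pi_mem

theorem Ram.val1_mul (R : Ram w f θ β π) {x y : M} (hx : x ∈ R.V1) (hy : y ∈ R.V1) :
    R.val1 (x * y) = R.val1 x * R.val1 y := R.res1.map_mul ⟨x, hx⟩ ⟨y, hy⟩

theorem Ram.val1_one (R : Ram w f θ β π) : R.val1 1 = 1 := R.res1.map_one

/-- `π` is a uniformizer of the place of `M`. -/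
theorem Ram.mem_nonunits (R : Ram w f θ β π) (y : M) :
    y ∈ R.V1.nonunits ↔ y / algebraMap E M π ∈ R.V1 := by
  rw [ValuationSubring.mem_nonunits_iff_or]
  have hπ0 := R.map_ne
  constructor
  · intro h
    by_cases hy0 : y = 0
    · rw [hy0, zero_div]
      exact R.V1.zero_mem
    have h' := h.resolve_left hy0
    obtain ⟨e, p, q, hp, hq, hy⟩ := R.exists_rep hy0
    rcases lt_or_ge 0 e with he | he
    · obtain ⟨n, hn⟩ := Int.eq_ofNat_of_zero_le (show 0 ≤ e - 1 by omega)
      refine ⟨C (⟨π, w.V.nonunits_subset R.pi_mem⟩ ^ n) * p, q, hq, ?_⟩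
      have he' : e = (n : ℤ) + 1 := by omega
      rw [he', zpow_add_one₀ hπ0, zpow_natCast] at hy
      rw [map_mul, ev_C, div_mul_eq_mul_div, hy]
      simp
      field_simp
    · exfalso
      apply h'
      obtain ⟨n, hn⟩ := Int.eq_ofNat_of_zero_le (show 0 ≤ -e by omega)
      refine ⟨C (⟨π, w.V.nonunits_subset R.pi_mem⟩ ^ n) * q, p, hp, ?_⟩
      have he' : e = -(n : ℤ) := by omega
      rw [he', zpow_neg, zpow_natCast] at hy
      have h3 : algebraMap E M π ^ n ≠ 0 := pow_ne_zero _ hπ0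
      have h4 : ev w θ p = algebraMap E M π ^ n * (y * ev w θ q) := by
        rw [hy]
        field_simp
      rw [map_mul, ev_C, h4]
      simp
      field_simp
  · intro h
    by_cases hy0 : y = 0
    · exact Or.inl hy0
    right
    intro hcon
    have h1 := R.V1.mul_mem _ _ hcon h
    have h2 : y⁻¹ * (y / algebraMap E M π) = (algebraMap E M π)⁻¹ := by field_simp
    rw [h2] at h1
    have h3 := R.val1_mul (R.map_mem (w.V.nonunits_subset R.pi_mem)) h1
    rw [mul_inv_cancel₀ hπ0, R.val1_one, R.val1_pi, zero_mul] at h3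
    exact one_ne_zero h3

theorem Ram.val1_nonunit (R : Ram w f θ β π) {y : M} (hy : y ∈ R.V1.nonunits) :
    R.val1 y = 0 := by
  have h1 := (R.mem_nonunits y).1 hy
  have h2 : y = algebraMap E M π * (y / algebraMap E M π) := by
    have := R.map_ne
    field_simp
  rw [h2, R.val1_mul (R.map_mem (w.V.nonunits_subset R.pi_mem)) h1, R.val1_pi, zero_mul]

variable [Algebra k M] [IsScalarTower k E M]

/-- The place of `M` over `w` with `θ ↦ β`. -/
noncomputable def Ram.place (R : Ram w f θ β π) : Place k M Ω where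
  V := R.V1
  ne_top := by
    intro h
    have h1 : (algebraMap E M π)⁻¹ ∈ R.V1 := by
      rw [h]
      exact ValuationSubring.mem_top _
    have h3 := R.val1_mul (R.map_mem (w.V.nonunits_subset R.pi_mem)) h1
    rw [mul_inv_cancel₀ R.map_ne, R.val1_one, R.val1_pi, zero_mul] at h3
    exact one_ne_zero h3
  mem := by
    intro a
    rw [IsScalarTower.algebraMap_apply k E M]
    exact R.map_mem (w.mem a)
  res := R.res1
  res_k := by
    intro a
    show R.val1 (algebraMap k M a) = _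
    rw [IsScalarTower.algebraMap_apply k E M, R.val1_map (w.mem a)]
    exact w.res_k a
  res_zero := by
    intro x hx
    refine R.val1_nonunit ?_
    rw [ValuationSubring.coe_mem_nonunits_iff, IsLocalRing.mem_maximalIdeal]
    exact hx

theorem Ram.place_V (R : Ram w f θ β π) : (R.place : Place k M Ω).V = R.V1 := rfl

theorem Ram.place_res (R : Ram w f θ β π) (y : M) (hy : y ∈ (R.place : Place k M Ω).V) :
    (R.place : Place k M Ω).res ⟨y, hy⟩ = R.val1 y := rfl

/-- The order of an element of `E` does not change. -/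
theorem Ram.place_ord (R : Ram w f θ β π) {g : E} {m : ℤ} (hg : w.IsOrd g m) :
    (R.place : Place k M Ω).IsOrd (algebraMap E M g) m := by
  obtain ⟨π', u, hπ0, hπ', hu, hu', hu0, hgu⟩ := hg
  have R' : Ram w f θ β π' := ⟨R.H, R.hE, R.hβ, hπ0, hπ'⟩
  refine ⟨algebraMap E M π', algebraMap E M u, R'.map_ne, fun x => ?_, R.map_mem hu, ?_,
    (_root_.map_ne_zero _).2 hu0, by rw [hgu, map_mul, map_zpow₀]⟩
  · exact R'.mem_nonunits x
  · rw [← map_inv₀]
    exact R.map_mem hu'

/-- The value of a point over `E` does not change. -/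
theorem Ram.place_val (R : Ram w f θ β π) {n : ℕ} {p : Fin n → E}
    {x : ℙ Ω (Fin n → Ω)} (hp : w.IsVal p x) :
    (R.place : Place k M Ω).IsVal (fun i => algebraMap E M (p i)) x := by
  obtain ⟨c, hc, h0, rfl⟩ := hp
  have h1 : ∀ i, algebraMap E M c * algebraMap E M (p i) ∈ R.V1 := by
    intro i
    rw [← map_mul]
    exact R.map_mem (hc i)
  have h2 : ∀ i, R.val1 (algebraMap E M c * algebraMap E M (p i)) = w.res ⟨c * p i, hc i⟩ := by
    intro i
    rw [← map_mul, R.val1_map (hc i)]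
  refine ⟨algebraMap E M c, h1, ?_, ?_⟩
  · intro h
    apply h0
    funext i
    rw [← h2]
    exact congrFun h i
  · congr 1
    funext i
    exact (h2 i).symm

theorem mem_of_monic {V : ValuationSubring M} {p : V[X]} (hp : p.Monic) {y : M}
    (hy : eval₂ V.subtype y p = 0) : y ∈ V := by
  have h1 : IsIntegral V y := ⟨p, hp, hy⟩
  obtain ⟨z, hz⟩ := IsIntegrallyClosed.isIntegral_iff.1 h1
  rw [← hz]
  exact z.2

theorem theta_root (H : Cst k E f θ) : aeval θ f = 0 := by
  have h1 := H.root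
  rwa [aeval_map_algebraMap] at h1

theorem theta_mem (H : Cst k E f θ) (w' : Place k M Ω) : θ ∈ w'.V := by
  refine mem_of_monic (p := f.map (kV w')) (H.monic.map _) ?_
  rw [eval₂_map, subtype_comp_kV]
  exact theta_root H

theorem theta_val (H : Cst k E f θ) (w' : Place k M Ω) :
    aeval (w'.res ⟨θ, theta_mem H w'⟩) f = 0 := by
  have h1 : eval₂ (kV w') ⟨θ, theta_mem H w'⟩ f = 0 := by
    ext
    have := hom_eval₂ f (kV w') w'.V.subtype ⟨θ, theta_mem H w'⟩
    rw [subtype_comp_kV] at this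
    exact this.trans (theta_root H)
  have h2 := congrArg w'.res h1
  rw [hom_eval₂, res_comp_kV, map_zero] at h2
  exact h2

omit [Algebra k M] [IsScalarTower k E M] in
theorem Cst.isAlgebraic (H : Cst k E f θ) : Algebra.IsAlgebraic E M := by
  have h1 : IsIntegral E θ := ⟨f.map (algebraMap k E), H.monic.map _, by
    have := H.root
    rwa [aeval_def] at this⟩
  refine ⟨fun y => ?_⟩
  obtain ⟨P, rfl⟩ := H.gen y
  have h2 : Algebra.adjoin E {θ} ≤ integralClosure E M :=
    Algebra.adjoin_le (Set.singleton_subset_iff.2 h1)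
  exact (h2 (aeval_mem_adjoin_singleton E θ)).isAlgebraic

/-- The restriction of a place. -/
noncomputable def restr (alg : Algebra.IsAlgebraic E M) (w' : Place k M Ω) : Place k E Ω where
  V := w'.V.comap (algebraMap E M)
  ne_top := by
    intro h
    apply w'.ne_top
    rw [eq_top_iff]
    intro y _
    have hE : ∀ a : E, algebraMap E M a ∈ w'.V := by
      intro a
      have : a ∈ w'.V.comap (algebraMap E M) := by
        rw [h]
        exact ValuationSubring.mem_top _
      exact this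
    let ψ : E →+* w'.V := (algebraMap E M).codRestrict w'.V.toSubring hE
    refine mem_of_monic (p := (minpoly E y).map ψ)
      ((minpoly.monic (alg.isAlgebraic y).isIntegral).map _) ?_
    rw [eval₂_map]
    exact minpoly.aeval E y
  mem := by
    intro a
    show algebraMap E M (algebraMap k E a) ∈ w'.V
    rw [← IsScalarTower.algebraMap_apply]
    exact w'.mem a
  res := w'.res.comp
    { toFun := fun x => ⟨algebraMap E M x, x.2⟩
      map_one' := by ext; simp
      map_zero' := by ext; simp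
      map_mul' := by intro x y; ext; simp
      map_add' := by intro x y; ext; simp }
  res_k := by
    intro a
    rw [← w'.res_k a]
    show w'.res _ = _
    congr 1
    ext
    show algebraMap E M (algebraMap k E a) = _
    rw [← IsScalarTower.algebraMap_apply]
  res_zero := by
    intro x hx
    show w'.res _ = 0
    rw [res_eq_zero_iff, ValuationSubring.mem_nonunits_iff_or]
    by_cases hx0 : x = 0
    · left
      simp [hx0]
    right
    intro h
    apply hx
    refine ⟨⟨x, ⟨(x : E)⁻¹, ?_⟩, ?_, ?_⟩, rfl⟩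
    · show algebraMap E M (x : E)⁻¹ ∈ w'.V
      rw [map_inv₀]
      exact h
    · ext
      have : (x : E) ≠ 0 := fun h => hx0 (by ext; exact h)
      simp [this]
    · ext
      have : (x : E) ≠ 0 := fun h => hx0 (by ext; exact h)
      simp [this]

theorem mem_restr (alg : Algebra.IsAlgebraic E M) (w' : Place k M Ω) (a : E) :
    a ∈ (restr alg w').V ↔ algebraMap E M a ∈ w'.V := Iff.rfl

theorem restr_res (alg : Algebra.IsAlgebraic E M) (w' : Place k M Ω) (a : E)
    (h : a ∈ (restr alg w').V) :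
    (restr alg w').res ⟨a, h⟩ = w'.res ⟨algebraMap E M a, h⟩ := rfl

theorem Ram.restr_place (R : Ram w f θ β π) (alg : Algebra.IsAlgebraic E M) :
    restr alg (R.place : Place k M Ω) = w := by
  have hV : ∀ a : E, algebraMap E M a ∈ R.V1 ↔ a ∈ w.V := by
    intro a
    refine ⟨fun h => ?_, fun h => R.map_mem h⟩
    by_contra h1
    have h2 : a⁻¹ ∈ w.V.nonunits := (w.V.inv_mem_nonunits_iff).2 (Or.inr h1)
    have ha0 : a ≠ 0 := by
      rintro rfl
      exact h1 w.V.zero_mem
    have h3 := R.val1_mul h (R.map_mem (w.V.nonunits_subset h2))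
    rw [← map_mul, mul_inv_cancel₀ ha0, map_one, R.val1_one,
      R.val1_map (w.V.nonunits_subset h2), (res_eq_zero_iff w ⟨a⁻¹, _⟩).2 h2, mul_zero] at h3
    exact one_ne_zero h3
  refine Place.ext' (SetLike.ext fun a => hV a) fun a h h' => ?_
  exact R.val1_map h'

theorem Ram.place_theta (R : Ram w f θ β π) (h : θ ∈ (R.place : Place k M Ω).V) :
    (R.place : Place k M Ω).res ⟨θ, h⟩ = β := by
  rw [R.place_res]
  have := R.val1_ev X
  rwa [ev_X, ph_X] at this

/-- Uniqueness of the extension. -/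
theorem Ram.unique (R : Ram w f θ β π) (alg : Algebra.IsAlgebraic E M) (w' : Place k M Ω)
    (hw : restr alg w' = w) (hθ : w'.res ⟨θ, theta_mem R.H w'⟩ = β) : w' = R.place := by
  subst hw
  -- the subring `V[θ]`
  have hev : ∀ p : (restr alg w').V[X], ∃ h : ev (restr alg w') θ p ∈ w'.V,
      w'.res ⟨ev (restr alg w') θ p, h⟩ = ph (restr alg w') β p := by
    intro p
    let ψ : (restr alg w').V →+* w'.V :=
      { toFun := fun x => ⟨algebraMap E M x, x.2⟩
        map_one' := by ext; simp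
        map_zero' := by ext; simp
        map_mul' := by intro x y; ext; simp
        map_add' := by intro x y; ext; simp }
    have h1 : ((eval₂ ψ ⟨θ, theta_mem R.H w'⟩ p : w'.V) : M) = ev (restr alg w') θ p :=
      hom_eval₂ p ψ w'.V.subtype ⟨θ, theta_mem R.H w'⟩
    refine ⟨h1 ▸ (eval₂ ψ ⟨θ, theta_mem R.H w'⟩ p).2, ?_⟩
    have h2 : (⟨ev (restr alg w') θ p, h1 ▸ (eval₂ ψ ⟨θ, theta_mem R.H w'⟩ p).2⟩ : w'.V) =
        eval₂ ψ ⟨θ, theta_mem R.H w'⟩ p := by
      ext
      exact h1.symm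
    rw [h2, hom_eval₂, hθ]
    rfl
  have hval : ∀ y ∈ R.V1, ∃ h : y ∈ w'.V, w'.res ⟨y, h⟩ = R.val1 y := by
    intro y hy
    obtain ⟨p, q, hq, hpq⟩ := R.mem_V1.1 hy
    obtain ⟨hp1, hp2⟩ := hev p
    obtain ⟨hq1, hq2⟩ := hev q
    have hq3 : (ev (restr alg w') θ q)⁻¹ ∈ w'.V := by
      by_contra h
      have h1 := (w'.V.mem_nonunits_iff_or (x := ev (restr alg w') θ q)).2 (Or.inr h)
      have h2 := (res_eq_zero_iff w' ⟨_, hq1⟩).2 h1
      rw [hq2] at h2
      exact hq h2
    have hq4 := R.ev_ne hq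
    have hy1 : y = ev (restr alg w') θ p * (ev (restr alg w') θ q)⁻¹ := by
      rw [← hpq]
      field_simp
    have hy2 : y ∈ w'.V := by
      rw [hy1]
      exact w'.V.mul_mem _ _ hp1 hq3
    refine ⟨hy2, ?_⟩
    rw [R.val1_eq hq hpq, eq_div_iff hq, ← hq2, ← hp2, ← map_mul]
    congr 1
    ext
    exact hpq
  have hV : ∀ y : M, y ∈ w'.V ↔ y ∈ R.V1 := by
    intro y
    refine ⟨fun h => ?_, fun h => (hval y h).1⟩
    by_contra h1
    have h2 : y⁻¹ ∈ R.V1.nonunits := (R.V1.inv_mem_nonunits_iff).2 (Or.inr h1)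
    have hy0 : y ≠ 0 := by
      rintro rfl
      exact h1 R.V1.zero_mem
    obtain ⟨h3, h4⟩ := hval y⁻¹ (R.V1.nonunits_subset h2)
    rw [R.val1_nonunit h2] at h4
    have h5 : w'.res (⟨y, h⟩ * ⟨y⁻¹, h3⟩) = 0 := by rw [map_mul, h4, mul_zero]
    have h6 : (⟨y, h⟩ * ⟨y⁻¹, h3⟩ : w'.V) = 1 := by
      ext
      exact mul_inv_cancel₀ hy0
    rw [h6, map_one] at h5
    exact one_ne_zero h5
  refine Place.ext' (SetLike.ext fun y => hV y) fun y h h' => ?_
  obtain ⟨h1, h2⟩ := hval y h'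
  rw [R.place_res]
  exact h2

omit [Algebra k M] [IsScalarTower k E M] in
theorem card_roots [IsAlgClosed Ω] (H : Cst k E f θ) :
    (f.rootSet Ω).ncard = f.natDegree := by
  classical
  have h1 := card_rootSet_eq_natDegree (K := Ω) H.sep (IsAlgClosed.splits _)
  rw [← h1, Set.ncard_eq_toFinset_card', Set.toFinset_card]

/-- **The places of `M` over the places in `S`.** -/
theorem exists_places [IsAlgClosed Ω] (H : Cst k E f θ) (hE : IsFunField k E) {g : E}
    (S : Finset (Place k E Ω)) (hS : ∀ w ∉ S, g ∈ w.V ∧ g⁻¹ ∈ w.V) (m : Place k E Ω → ℤ)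
    (hm : ∀ w ∈ S, w.IsOrd g (m w)) :
    ∃ (S' : Finset (Place k M Ω)) (ρ : Place k M Ω → Place k E Ω),
      (∀ w' ∉ S', algebraMap E M g ∈ w'.V ∧ (algebraMap E M g)⁻¹ ∈ w'.V) ∧
      (∀ w' ∈ S', ρ w' ∈ S ∧ w'.IsOrd (algebraMap E M g) (m (ρ w')) ∧
        ∀ (n : ℕ) (p : Fin n → E) (x : ℙ Ω (Fin n → Ω)), (ρ w').IsVal p x →
          w'.IsVal (fun i => algebraMap E M (p i)) x) ∧
      ∀ (A : Type u) [AddCommMonoid A] (F : Place k E Ω → A),
        ∑ w' ∈ S', F (ρ w') = f.natDegree • ∑ w ∈ S, F w := by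
  classical
  have alg := H.isAlgebraic
  let φ : Place k M Ω → Place k E Ω × Ω := fun w' => (restr alg w', w'.res ⟨θ, theta_mem H w'⟩)
  have hram : ∀ w ∈ S, ∀ β : Ω, aeval β f = 0 → ∃ π, Ram (M := M) w f θ β π := by
    intro w hw β hβ
    obtain ⟨π, u, h0, h1, -⟩ := hm w hw
    exact ⟨π, H, hE, hβ, h0, h1⟩
  have heq : ∀ w' : Place k M Ω, restr alg w' ∈ S → ∃ (π : E)
      (R : Ram (M := M) (restr alg w') f θ (w'.res ⟨θ, theta_mem H w'⟩) π), w' = R.place := by
    intro w' hw'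
    obtain ⟨π, R⟩ := hram _ hw' _ (theta_val H w')
    exact ⟨π, R, R.unique alg w' rfl rfl⟩
  have hinj : Set.InjOn φ {w' | restr alg w' ∈ S} := by
    intro w1 h1 w2 h2 h12
    obtain ⟨π, R⟩ := hram _ h1 _ (theta_val H w1)
    rw [R.unique alg w1 rfl rfl, R.unique alg w2 (congrArg Prod.fst h12).symm
      (congrArg Prod.snd h12).symm]
  have hmaps : Set.MapsTo φ {w' | restr alg w' ∈ S} (S ×ˢ (f.rootSet Ω).toFinset : Finset _) := by
    intro w' hw'
    rw [Finset.mem_coe, Finset.mem_product]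
    refine ⟨hw', ?_⟩
    rw [Set.mem_toFinset, mem_rootSet]
    exact ⟨H.monic.ne_zero, theta_val H w'⟩
  have hfin : {w' : Place k M Ω | restr alg w' ∈ S}.Finite :=
    Set.Finite.of_injOn hmaps hinj (Finset.finite_toSet _)
  refine ⟨hfin.toFinset, restr alg, fun w' hw' => ?_, fun w' hw' => ?_, fun A _ F => ?_⟩
  · have h1 : restr alg w' ∉ S := fun h => hw' (hfin.mem_toFinset.2 h)
    obtain ⟨h2, h3⟩ := hS _ h1
    refine ⟨h2, ?_⟩
    rw [← map_inv₀]
    exact h3
  · have h1 : restr alg w' ∈ S := hfin.mem_toFinset.1 hw'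
    obtain ⟨π, R, hR⟩ := heq w' h1
    refine ⟨h1, ?_, fun n p x hx => ?_⟩
    · have h2 := R.place_ord (hm _ h1)
      rwa [← hR] at h2
    · have h2 := R.place_val hx
      rwa [← hR] at h2
  · have h1 : ∑ w' ∈ hfin.toFinset, F (restr alg w') =
        ∑ q ∈ S ×ˢ (f.rootSet Ω).toFinset, F q.1 := by
      refine Finset.sum_nbij φ ?_ ?_ ?_ ?_
      · intro w' hw'
        exact hmaps (hfin.mem_toFinset.1 hw')
      · intro w1 h1 w2 h2
        exact hinj (hfin.mem_toFinset.1 h1) (hfin.mem_toFinset.1 h2)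
      · rintro ⟨w, β⟩ hq
        rw [Finset.mem_coe, Finset.mem_product, Set.mem_toFinset, mem_rootSet] at hq
        obtain ⟨hw, -, hβ⟩ := hq
        obtain ⟨π, R⟩ := hram w hw β hβ
        refine ⟨R.place, ?_, ?_⟩
        · rw [Finset.mem_coe, hfin.mem_toFinset]
          show restr alg R.place ∈ S
          rw [R.restr_place]
          exact hw
        · exact Prod.ext (R.restr_place alg) (R.place_theta _)
      · intro w' _
        rfl
    rw [h1, Finset.sum_product]
    simp only [Finset.sum_const]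
    rw [← Finset.smul_sum]
    congr 1
    rw [Set.toFinset_card]
    exact card_rootSet_eq_natDegree H.sep (IsAlgClosed.splits _)

/-- The push-forward over `M` is `[M : E]` times the push-forward over `E`. -/
theorem isPush_ext [IsAlgClosed Ω] (H : Cst k E f θ) (hE : IsFunField k E) {g : E} {n : ℕ}
    {p : Fin n → E} {z : ℙ Ω (Fin n → Ω) →₀ ℤ} (hz : IsPush k Ω g p z) :
    IsPush k Ω (algebraMap E M g) (fun i => algebraMap E M (p i)) (f.natDegree • z) := by
  obtain ⟨S, m, x, hS, hm, rfl⟩ := hz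
  obtain ⟨S', ρ, h1, h2, h3⟩ := exists_places (M := M) H hE S hS m fun w hw => (hm w hw).1
  refine ⟨S', fun w' => m (ρ w'), fun w' => x (ρ w'), h1, fun w' hw' => ?_, ?_⟩
  · obtain ⟨h4, h5, h6⟩ := h2 w' hw'
    exact ⟨h5, h6 n p _ (hm _ h4).2⟩
  · rw [h3 _ fun w => Finsupp.single (x w) (m w)]

end Fa
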