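import Mathlib
import Pool.Agent.Lib.MP_f80667_ag.ZC.Defs

/-!
Zero-cycles on a family of intersections of quadrics.

`W ⊆ P^(N-1)` is the closed subset given by homogeneous polynomials `h j ∈ k[w_0, ..., w_(N-1)]`, and
`X ⊆ W × P^(n-1)` is the set of the pairs `([w], [x])` with `[w] ∈ W` and `x · (A i (w) x) = 0` for
all `i`, where `A i` is a square matrix of `n` rows whose entries are homogeneous polynomials of
degree `e i` in `w`. The fibre of `X` over `[w]` is an intersection of `r` quadrics; the fibres may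
degenerate.

* `Zer2 h A E w x`: the pair `(w, x) ∈ E^N × E^n` satisfies all equations of `X`.
* `cyc2 h A`: the zero-cycles of `X` over `k` (Galois invariant elements of `ℤ[X(Ω)]`).
* `IsPush2 g w p z`: the cycle `z` is the push-forward of the divisor of `g` from the normal
  projective curve with function field `E` under the morphism to `P^(N-1) × P^(n-1)` given by
  `([w], [p]) ∈ P^(N-1)(E) × P^(n-1)(E)`.
* `ratEq2 h A`: the zero-cycles rationally equivalent to `0` on `X`.
* `pushW`: the push-forward of zero-cycles from `X` to `W`.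
-/

open scoped LinearAlgebra.Projectivization

namespace ZC

universe u

section basic

variable {k : Type u} [Field k] {N n r : ℕ} {κ : Type}

/-- `(w, x)` satisfies all equations of the family. -/
def Zer2 (h : κ → MvPolynomial (Fin N) k)
    (A : Fin r → Matrix (Fin n) (Fin n) (MvPolynomial (Fin N) k)) (E : Type*) [CommRing E]
    [Algebra k E] (w : Fin N → E) (x : Fin n → E) : Prop :=
  Zer h E w ∧ ∀ i, dotProduct x (((A i).map (MvPolynomial.aeval w)).mulVec x) = 0

end basic

/-- Pairs of points. -/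
abbrev Pt2 (Ω : Type u) [Field Ω] (N n : ℕ) : Type u :=
  ℙ Ω (Fin N → Ω) × ℙ Ω (Fin n → Ω)

/-- The map on pairs of points induced by a homomorphism of fields. -/
noncomputable def mapPt2 {N n : ℕ} {M Ω : Type u} [Field M] [Field Ω] (φ : M →+* Ω)
    (x : Pt2 M N n) : Pt2 Ω N n :=
  (mapPt φ x.1, mapPt φ x.2)

section cycles

variable (k : Type u) [Field k] (Ω : Type u) [Field Ω] [Algebra k Ω]

/-- `z` is the push-forward of the divisor of `g` along `(w, p)`: `S` is a finite set of places which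
contains all zeros and poles of `g`. -/
def IsPush2 {E : Type u} [Field E] [Algebra k E] {N n : ℕ} (g : E) (w : Fin N → E)
    (p : Fin n → E) (z : Pt2 Ω N n →₀ ℤ) : Prop :=
  ∃ (S : Finset (Place k E Ω)) (m : Place k E Ω → ℤ) (x : Place k E Ω → Pt2 Ω N n),
    (∀ v, v ∉ S → g ∈ v.V ∧ g⁻¹ ∈ v.V) ∧
    (∀ v ∈ S, v.IsOrd g (m v) ∧ v.IsVal w (x v).1 ∧ v.IsVal p (x v).2) ∧
    z = ∑ v ∈ S, Finsupp.single (x v) (m v)

variable {k} {N n r : ℕ} {κ : Type}

/-- The zero-cycles of the family rationally equivalent to `0`. -/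
noncomputable def ratEq2 (h : κ → MvPolynomial (Fin N) k)
    (A : Fin r → Matrix (Fin n) (Fin n) (MvPolynomial (Fin N) k)) :
    AddSubgroup (Pt2 Ω N n →₀ ℤ) :=
  AddSubgroup.closure {z | ∃ (E : Type u) (_ : Field E) (_ : Algebra k E), IsFunField k E ∧
    ∃ (g : E) (w : Fin N → E) (p : Fin n → E), g ≠ 0 ∧ w ≠ 0 ∧ p ≠ 0 ∧ Zer2 h A E w p ∧
      IsPush2 k Ω g w p z}

/-- The zero-cycles of the family over `k`: the Galois invariant elements of `ℤ[X(Ω)]`. -/
noncomputable def cyc2 (h : κ → MvPolynomial (Fin N) k)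
    (A : Fin r → Matrix (Fin n) (Fin n) (MvPolynomial (Fin N) k)) :
    AddSubgroup (Pt2 Ω N n →₀ ℤ) where
  carrier := {z | (∀ x ∈ z.support, Zer2 h A Ω x.1.rep x.2.rep) ∧
    ∀ (σ : Ω ≃ₐ[k] Ω) (x : Pt2 Ω N n), z (mapPt2 (σ : Ω →+* Ω) x) = z x}
  zero_mem' := ⟨fun x hx => by simp at hx, fun σ x => by simp⟩
  add_mem' := by
    classical
    rintro a b ⟨ha, ha'⟩ ⟨hb, hb'⟩
    refine ⟨fun x hx => ?_, fun σ x => by simp [ha', hb']⟩
    rcases Finset.mem_union.1 (Finsupp.support_add hx) with h | h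
    · exact ha x h
    · exact hb x h
  neg_mem' := by
    rintro a ⟨ha, ha'⟩
    exact ⟨fun x hx => ha x (by simpa using hx), fun σ x => by simp [ha']⟩

/-- The degree of a zero-cycle of the family. -/
noncomputable def deg2 : (Pt2 Ω N n →₀ ℤ) →+ ℤ :=
  Finsupp.liftAddHom (fun _ => AddMonoidHom.id ℤ)

/-- The push-forward of zero-cycles from the family to its base. -/
noncomputable def pushW : (Pt2 Ω N n →₀ ℤ) →+ (ℙ Ω (Fin N → Ω) →₀ ℤ) :=
  Finsupp.mapDomain.addMonoidHom Prod.fst

end cycles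

end ZC
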