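import Mathlib
import Pool.Agent.Lib.MP_f80667_ag.Fa.Defs
import Pool.Agent.Lib.MP_f80667_ag.ZC.Rel

/-!
Elementary properties of the equations and of the zero-cycles of a family: scaling, base change,
the push-forward to the base.
-/

open scoped LinearAlgebra.Projectivization
open MvPolynomial

namespace ZC

universe u

section zer

variable {k : Type u} [Field k] {N n r : ℕ} {κ : Type}

theorem aeval_smul_of_hom {f : MvPolynomial (Fin N) k} {d : ℕ} (hf : f.IsHomogeneous d)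
    {E : Type*} [CommRing E] [Algebra k E] (c : E) (w : Fin N → E) :
    aeval (c • w) f = c ^ d * aeval w f := by
  rw [aeval_def, eval₂_eq, aeval_def, eval₂_eq, Finset.mul_sum]
  refine Finset.sum_congr rfl fun m hm => ?_
  have h1 : ∑ i ∈ m.support, m i = d := by
    have h2 : m.degree = d := by
      rw [Finsupp.degree_eq_weight_one]
      exact hf (mem_support_iff.1 hm)
    rw [← h2]
    rfl
  simp only [Pi.smul_apply, smul_eq_mul, mul_pow, Finset.prod_mul_distrib,
    Finset.prod_pow_eq_pow_sum, h1]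
  ring

theorem Zer.smul {h : κ → MvPolynomial (Fin N) k} (hh : ∀ j, ∃ d, (h j).IsHomogeneous d)
    {E : Type*} [CommRing E] [Algebra k E] {w : Fin N → E} (hw : Zer h E w) (c : E) :
    Zer h E (c • w) := by
  intro j
  obtain ⟨d, hd⟩ := hh j
  rw [aeval_smul_of_hom hd, hw j, mul_zero]

theorem Zer.map {h : κ → MvPolynomial (Fin N) k} {E E' : Type*} [CommRing E] [Algebra k E]
    [CommRing E'] [Algebra k E'] (φ : E →ₐ[k] E') {w : Fin N → E} (hw : Zer h E w) :
    Zer h E' (fun i => φ (w i)) := by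
  intro j
  have h1 := congrArg φ (hw j)
  rw [map_zero, comp_aeval_apply] at h1
  exact h1

theorem Zer.of_map {h : κ → MvPolynomial (Fin N) k} {E E' : Type*} [CommRing E] [Algebra k E]
    [CommRing E'] [Algebra k E'] (φ : E →ₐ[k] E') (hφ : Function.Injective φ) {w : Fin N → E}
    (hw : Zer h E' (fun i => φ (w i))) : Zer h E w := by
  intro j
  apply hφ
  rw [map_zero, comp_aeval_apply]
  exact hw j

theorem map_aeval_smul {a : Matrix (Fin n) (Fin n) (MvPolynomial (Fin N) k)} {e : ℕ}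
    (ha : ∀ i j, (a i j).IsHomogeneous e) {E : Type*} [CommRing E] [Algebra k E] (c : E)
    (w : Fin N → E) : a.map (aeval (c • w)) = c ^ e • a.map (aeval w) := by
  ext i j
  simp only [Matrix.map_apply, Matrix.smul_apply, smul_eq_mul]
  exact aeval_smul_of_hom (ha i j) c w

theorem Zer2.smul {h : κ → MvPolynomial (Fin N) k}
    {A : Fin r → Matrix (Fin n) (Fin n) (MvPolynomial (Fin N) k)}
    (hh : ∀ j, ∃ d, (h j).IsHomogeneous d) (hA : ∀ i, ∃ e, ∀ a b, (A i a b).IsHomogeneous e)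
    {E : Type*} [CommRing E] [Algebra k E] {w : Fin N → E} {x : Fin n → E}
    (hw : Zer2 h A E w x) (c d : E) : Zer2 h A E (c • w) (d • x) := by
  refine ⟨hw.1.smul hh c, fun i => ?_⟩
  obtain ⟨e, he⟩ := hA i
  rw [map_aeval_smul he, Matrix.mulVec_smul, Matrix.smul_mulVec, dotProduct_smul,
    smul_dotProduct, dotProduct_smul, hw.2 i]
  simp

theorem map_mulVec_aeval {a : Matrix (Fin n) (Fin n) (MvPolynomial (Fin N) k)}
    {E E' : Type*} [CommRing E] [Algebra k E] [CommRing E'] [Algebra k E'] (φ : E →ₐ[k] E')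
    (w : Fin N → E) (x : Fin n → E) :
    φ (dotProduct x ((a.map (aeval w)).mulVec x)) =
      dotProduct (fun i => φ (x i)) ((a.map (aeval fun i => φ (w i))).mulVec
        fun i => φ (x i)) := by
  simp only [dotProduct, Matrix.mulVec, map_sum, map_mul, Matrix.map_apply, comp_aeval_apply]

theorem Zer2.map {h : κ → MvPolynomial (Fin N) k}
    {A : Fin r → Matrix (Fin n) (Fin n) (MvPolynomial (Fin N) k)} {E E' : Type*} [CommRing E]
    [Algebra k E] [CommRing E'] [Algebra k E'] (φ : E →ₐ[k] E') {w : Fin N → E} {x : Fin n → E}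
    (hw : Zer2 h A E w x) : Zer2 h A E' (fun i => φ (w i)) (fun i => φ (x i)) := by
  refine ⟨hw.1.map φ, fun i => ?_⟩
  rw [← map_mulVec_aeval, hw.2 i, map_zero]

theorem Zer2.of_map {h : κ → MvPolynomial (Fin N) k}
    {A : Fin r → Matrix (Fin n) (Fin n) (MvPolynomial (Fin N) k)} {E E' : Type*} [CommRing E]
    [Algebra k E] [CommRing E'] [Algebra k E'] (φ : E →ₐ[k] E') (hφ : Function.Injective φ)
    {w : Fin N → E} {x : Fin n → E} (hw : Zer2 h A E' (fun i => φ (w i)) (fun i => φ (x i))) :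
    Zer2 h A E w x := by
  refine ⟨Zer.of_map φ hφ hw.1, fun i => ?_⟩
  apply hφ
  rw [map_mulVec_aeval, hw.2 i, map_zero]

end zer

section points

variable {k : Type u} [Field k] {N n r : ℕ} {κ : Type}

/-- A nonzero multiple: the representative of the class of `v`. -/
theorem exists_rep {Ω : Type*} [Field Ω] {m : ℕ} (v : Fin m → Ω) (hv : v ≠ 0) :
    ∃ a : Ω, a ≠ 0 ∧ (Projectivization.mk Ω v hv).rep = a • v := by
  obtain ⟨a, ha⟩ := Projectivization.exists_smul_eq_mk_rep Ω v hv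
  exact ⟨a, a.ne_zero, ha.symm⟩

theorem zer_mk_iff {h : κ → MvPolynomial (Fin N) k} (hh : ∀ j, ∃ d, (h j).IsHomogeneous d)
    {Ω : Type*} [Field Ω] [Algebra k Ω] (v : Fin N → Ω) (hv : v ≠ 0) :
    Zer h Ω (Projectivization.mk Ω v hv).rep ↔ Zer h Ω v := by
  obtain ⟨a, ha, hr⟩ := exists_rep v hv
  rw [hr]
  constructor
  · intro h1
    have h2 := h1.smul hh a⁻¹
    rwa [smul_smul, inv_mul_cancel₀ ha, one_smul] at h2
  · intro h1
    exact h1.smul hh a

theorem zer_mapPt_iff {h : κ → MvPolynomial (Fin N) k} (hh : ∀ j, ∃ d, (h j).IsHomogeneous d)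
    {M Ω : Type*} [Field M] [Algebra k M] [Field Ω] [Algebra k Ω] (φ : M →ₐ[k] Ω)
    (x : ℙ M (Fin N → M)) : Zer h Ω (mapPt (φ : M →+* Ω) x).rep ↔ Zer h M x.rep := by
  rw [mapPt, zer_mk_iff hh]
  constructor
  · intro h1
    exact Zer.of_map φ φ.toRingHom.injective h1
  · intro h1
    exact h1.map φ

theorem zer2_mk_iff {h : κ → MvPolynomial (Fin N) k}
    {A : Fin r → Matrix (Fin n) (Fin n) (MvPolynomial (Fin N) k)}
    (hh : ∀ j, ∃ d, (h j).IsHomogeneous d) (hA : ∀ i, ∃ e, ∀ a b, (A i a b).IsHomogeneous e)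
    {Ω : Type*} [Field Ω] [Algebra k Ω] (v : Fin N → Ω) (hv : v ≠ 0) (x : Fin n → Ω)
    (hx : x ≠ 0) : Zer2 h A Ω (Projectivization.mk Ω v hv).rep (Projectivization.mk Ω x hx).rep ↔
      Zer2 h A Ω v x := by
  obtain ⟨a, ha, hr⟩ := exists_rep v hv
  obtain ⟨b, hb, hs⟩ := exists_rep x hx
  rw [hr, hs]
  constructor
  · intro h1
    have h2 := h1.smul hh hA a⁻¹ b⁻¹
    rwa [smul_smul, inv_mul_cancel₀ ha, one_smul, smul_smul, inv_mul_cancel₀ hb, one_smul] at h2
  · intro h1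
    exact h1.smul hh hA a b

theorem zer2_mapPt_iff {h : κ → MvPolynomial (Fin N) k}
    {A : Fin r → Matrix (Fin n) (Fin n) (MvPolynomial (Fin N) k)}
    (hh : ∀ j, ∃ d, (h j).IsHomogeneous d) (hA : ∀ i, ∃ e, ∀ a b, (A i a b).IsHomogeneous e)
    {M Ω : Type u} [Field M] [Algebra k M] [Field Ω] [Algebra k Ω] (φ : M →ₐ[k] Ω)
    (x : Pt2 M N n) : Zer2 h A Ω (mapPt2 (φ : M →+* Ω) x).1.rep (mapPt2 (φ : M →+* Ω) x).2.rep ↔
      Zer2 h A M x.1.rep x.2.rep := by
  rw [mapPt2]
  dsimp only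
  rw [mapPt, mapPt, zer2_mk_iff hh hA]
  constructor
  · intro h1
    exact Zer2.of_map φ φ.toRingHom.injective h1
  · intro h1
    exact h1.map φ

theorem mapPt_comp {M M' Ω : Type*} [Field M] [Field M'] [Field Ω] {m : ℕ} (φ : M →+* M')
    (ψ : M' →+* Ω) (x : ℙ M (Fin m → M)) : mapPt ψ (mapPt φ x) = mapPt (ψ.comp φ) x := by
  have h : mapPt φ x = Projectivization.mk M' (fun i => φ (x.rep i)) (comp_ne φ x.rep_nonzero) :=
    rfl
  rw [h, mapPt_mk]
  rfl

theorem mapPt_id {M : Type*} [Field M] {m : ℕ} (x : ℙ M (Fin m → M)) :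
    mapPt (RingHom.id M) x = x := by
  rw [mapPt]
  exact Projectivization.mk_rep x

theorem mapPt_symm {k Ω : Type*} [Field k] [Field Ω] [Algebra k Ω] {m : ℕ} (σ : Ω ≃ₐ[k] Ω)
    (x : ℙ Ω (Fin m → Ω)) : mapPt (σ : Ω →+* Ω) (mapPt (σ.symm : Ω →+* Ω) x) = x := by
  rw [mapPt_comp]
  have h : ((σ : Ω →+* Ω).comp (σ.symm : Ω →+* Ω)) = RingHom.id Ω := by
    ext y
    simp
  rw [h, mapPt_id]

theorem mapPt_symm' {k Ω : Type*} [Field k] [Field Ω] [Algebra k Ω] {m : ℕ} (σ : Ω ≃ₐ[k] Ω)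
    (x : ℙ Ω (Fin m → Ω)) : mapPt (σ.symm : Ω →+* Ω) (mapPt (σ : Ω →+* Ω) x) = x := by
  rw [mapPt_comp]
  have h : ((σ.symm : Ω →+* Ω).comp (σ : Ω →+* Ω)) = RingHom.id Ω := by
    ext y
    simp
  rw [h, mapPt_id]

theorem mapPt_injective {M Ω : Type*} [Field M] [Field Ω] {m : ℕ} (φ : M →+* Ω) :
    Function.Injective (mapPt φ : ℙ M (Fin m → M) → ℙ Ω (Fin m → Ω)) := by
  intro x y hxy
  induction x using Projectivization.ind with
  | h v hv =>
  induction y using Projectivization.ind with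
  | h w hw =>
  rw [mapPt_mk, mapPt_mk, Projectivization.mk_eq_mk_iff'] at hxy
  obtain ⟨a, ha⟩ := hxy
  rw [Projectivization.mk_eq_mk_iff']
  -- choose a coordinate of `w` which is not zero
  obtain ⟨j, hj⟩ : ∃ j, w j ≠ 0 := by
    by_contra h
    push Not at h
    exact hw (funext h)
  have hφj : φ (w j) ≠ 0 := (map_ne_zero φ).2 hj
  have haj : a * φ (w j) = φ (v j) := by simpa using congrFun ha j
  refine ⟨v j / w j, ?_⟩
  funext i
  apply φ.injective
  have hai : a * φ (w i) = φ (v i) := by simpa using congrFun ha i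
  rw [Pi.smul_apply, smul_eq_mul, map_mul, map_div₀, ← haj, ← hai]
  field_simp

end points

section push

variable {k : Type u} [Field k] {Ω : Type u} [Field Ω] [Algebra k Ω] {N n r : ℕ} {κ : Type}
  {h : κ → MvPolynomial (Fin N) k} {A : Fin r → Matrix (Fin n) (Fin n) (MvPolynomial (Fin N) k)}

theorem pushW_single (x : Pt2 Ω N n) (m : ℤ) :
    pushW Ω (Finsupp.single x m) = Finsupp.single x.1 m := by
  simp [pushW]

theorem deg_pushW (z : Pt2 Ω N n →₀ ℤ) : deg Ω (pushW Ω z) = deg2 Ω z := by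
  induction z using Finsupp.induction_linear with
  | zero => simp
  | add f g hf hg => rw [map_add, map_add, hf, hg, map_add]
  | single x m => rw [pushW_single]; simp [deg, deg2]

/-- Galois action on pairs as a permutation. -/
noncomputable def perm2 (σ : Ω ≃ₐ[k] Ω) : Pt2 Ω N n ≃ Pt2 Ω N n where
  toFun := mapPt2 (σ : Ω →+* Ω)
  invFun := mapPt2 (σ.symm : Ω →+* Ω)
  left_inv := fun x => Prod.ext (mapPt_symm' σ x.1) (mapPt_symm' σ x.2)
  right_inv := fun x => Prod.ext (mapPt_symm σ x.1) (mapPt_symm σ x.2)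

/-- Galois action on points as a permutation. -/
noncomputable def perm1 (σ : Ω ≃ₐ[k] Ω) : ℙ Ω (Fin N → Ω) ≃ ℙ Ω (Fin N → Ω) where
  toFun := mapPt (σ : Ω →+* Ω)
  invFun := mapPt (σ.symm : Ω →+* Ω)
  left_inv := fun x => mapPt_symm' σ x
  right_inv := fun x => mapPt_symm σ x

/-- The push-forward of a zero-cycle of the family is a zero-cycle of the base. -/
theorem pushW_mem {z : Pt2 Ω N n →₀ ℤ} (hz : z ∈ cyc2 Ω h A) : pushW Ω z ∈ cyc Ω h := by
  classical
  obtain ⟨h1, h2⟩ := hz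
  constructor
  · intro x hx
    have h3 := Finsupp.mapDomain_support (f := Prod.fst) (s := z) hx
    obtain ⟨y, hy, rfl⟩ := Finset.mem_image.1 h3
    exact (h1 y hy).1
  · intro σ x
    have h4 : Finsupp.mapDomain (perm2 σ) z = z := by
      ext y
      obtain ⟨y', rfl⟩ := (perm2 (N := N) (n := n) σ).surjective y
      rw [Finsupp.mapDomain_apply (perm2 σ).injective]
      exact (h2 σ y').symm
    have h5 : Finsupp.mapDomain (perm1 σ) (pushW Ω z) = pushW Ω z := by
      conv_rhs => rw [← h4]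
      change Finsupp.mapDomain _ (Finsupp.mapDomain Prod.fst z) =
        Finsupp.mapDomain Prod.fst (Finsupp.mapDomain _ z)
      rw [← Finsupp.mapDomain_comp, ← Finsupp.mapDomain_comp]
      rfl
    have h6 : Finsupp.mapDomain (perm1 σ) (pushW Ω z) (perm1 σ x) = pushW Ω z x :=
      Finsupp.mapDomain_apply (perm1 σ).injective _ _
    rw [h5] at h6
    exact h6

theorem IsPush2.push {E : Type u} [Field E] [Algebra k E] {g : E} {w : Fin N → E}
    {p : Fin n → E} {z : Pt2 Ω N n →₀ ℤ} (hz : IsPush2 k Ω g w p z) :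
    IsPush k Ω g w (pushW Ω z) := by
  obtain ⟨S, m, x, h1, h2, rfl⟩ := hz
  refine ⟨S, m, fun v => (x v).1, h1, fun v hv => ⟨(h2 v hv).1, (h2 v hv).2.1⟩, ?_⟩
  rw [map_sum]
  simp only [pushW_single]

/-- The push-forward respects rational equivalence. -/
theorem pushW_ratEq {z : Pt2 Ω N n →₀ ℤ} (hz : z ∈ ratEq2 Ω h A) : pushW Ω z ∈ ratEq Ω h := by
  induction hz using AddSubgroup.closure_induction with
  | mem z hz =>
    obtain ⟨E, _, _, hE, g, w, p, hg, hw, _, hZ, hP⟩ := hz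
    exact AddSubgroup.subset_closure ⟨E, _, _, hE, g, w, hg, hw, hZ.1, hP.push⟩
  | zero => rw [map_zero]; exact zero_mem _
  | add a b _ _ ha hb => rw [map_add]; exact add_mem ha hb
  | neg a _ ha => rw [map_neg]; exact neg_mem ha

end push

end ZC
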