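import Mathlib
import Pool.Agent.Lib.MP_f80667_ag.Fa.Push

/-!
Cycles rationally equivalent to `0` are zero-cycles over the base field: the push-forward of the
divisor of a function is Galois invariant and its points satisfy the equations.
-/

open scoped LinearAlgebra.Projectivization
open MvPolynomial

namespace ZC

universe u

section uniq

variable {k E Ω : Type u} [Field k] [Field E] [Field Ω] [Algebra k E] [Algebra k Ω]

/-- The valuation of the parameter of a place. -/
theorem Place.ord_aux {v : Place k E Ω} {g : E} {m : ℤ} (h : v.IsOrd g m) :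
    ∃ π : E, v.V.valuation π < 1 ∧ v.V.valuation π ≠ 0 ∧
      (∀ x : E, v.V.valuation x < 1 → v.V.valuation x ≤ v.V.valuation π) ∧
      v.V.valuation g = v.V.valuation π ^ m := by
  obtain ⟨π, u, hπ, hx, hu, hu', hu0, rfl⟩ := h
  have h1 : v.V.valuation π ≠ 0 := (map_ne_zero _).2 hπ
  refine ⟨π, ?_, h1, fun x hx1 => ?_, ?_⟩
  · rw [← ValuationSubring.mem_nonunits_iff, hx π, div_self hπ]
    exact v.V.one_mem
  · rw [← ValuationSubring.mem_nonunits_iff, hx x, ← ValuationSubring.valuation_le_one_iff,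
      map_div₀, div_le_one₀ (zero_lt_iff.2 h1)] at hx1
    exact hx1
  · have h2 : v.V.valuation u = 1 := by
      refine le_antisymm ((v.V.valuation_le_one_iff u).2 hu) ?_
      have h3 := (v.V.valuation_le_one_iff _).2 hu'
      rw [map_inv₀, inv_le_one₀ (zero_lt_iff.2 ((map_ne_zero _).2 hu0))] at h3
      exact h3
    rw [map_mul, h2, one_mul, map_zpow₀]

theorem zpow_inj_aux {Γ : Type*} [LinearOrderedCommGroupWithZero Γ] {a : Γ} (ha : a < 1)
    (ha0 : a ≠ 0) {m m' : ℤ} (h : a ^ m = a ^ m') : m = m' := by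
  have key : ∀ m m' : ℤ, m < m' → a ^ m ≠ a ^ m' := by
    intro m m' hlt heq
    obtain ⟨d, hd⟩ := Int.eq_ofNat_of_zero_le (sub_nonneg.2 hlt.le)
    have hd0 : d ≠ 0 := by
      rintro rfl
      rw [Int.natCast_zero] at hd
      omega
    have h1 : a ^ d = 1 := by
      have h2 : a ^ m' = a ^ m * a ^ d := by
        rw [← zpow_natCast, ← hd, ← zpow_add₀ ha0]
        congr 1
        ring
      rw [h2] at heq
      have h3 : a ^ m * 1 = a ^ m * a ^ d := by rw [mul_one]; exact heq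
      exact (mul_left_cancel₀ (zpow_ne_zero _ ha0) h3).symm
    exact absurd h1 (pow_lt_one₀ zero_le' ha hd0).ne
  rcases lt_trichotomy m m' with hlt | heq | hgt
  · exact absurd h (key _ _ hlt)
  · exact heq
  · exact absurd h.symm (key _ _ hgt)

/-- The order of a function at two places with the same valuation ring. -/
theorem Place.IsOrd.unique {v v' : Place k E Ω} (hV : v.V = v'.V) {g : E} {m m' : ℤ}
    (h : v.IsOrd g m) (h' : v'.IsOrd g m') : m = m' := by
  have h'' : v.IsOrd g m' := by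
    obtain ⟨π, u, hπ, hx, hu, hu', hu0, hg⟩ := h'
    exact ⟨π, u, hπ, by rw [hV]; exact hx, by rw [hV]; exact hu, by rw [hV]; exact hu', hu0, hg⟩
  obtain ⟨π, h1, h2, h3, h4⟩ := Place.ord_aux h
  obtain ⟨π', h1', h2', h3', h4'⟩ := Place.ord_aux h''
  have h5 : v.V.valuation π = v.V.valuation π' := le_antisymm (h3' _ h1) (h3 _ h1')
  rw [← h5] at h4'
  exact zpow_inj_aux h1 h2 (h4.symm.trans h4')

/-- A unit has order `0`. -/
theorem Place.IsOrd.eq_zero {v : Place k E Ω} {g : E} {m : ℤ} (h : v.IsOrd g m) (hg : g ∈ v.V)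
    (hg' : g⁻¹ ∈ v.V) : m = 0 := by
  obtain ⟨π, h1, h2, _, h4⟩ := Place.ord_aux h
  refine zpow_inj_aux h1 h2 ?_
  rw [← h4, zpow_zero]
  have hg0 : g ≠ 0 := by
    rintro rfl
    rw [map_zero] at h4
    exact zpow_ne_zero _ h2 h4.symm
  refine le_antisymm ((v.V.valuation_le_one_iff g).2 hg) ?_
  have h3 := (v.V.valuation_le_one_iff _).2 hg'
  rw [map_inv₀, inv_le_one₀ (zero_lt_iff.2 ((map_ne_zero _).2 hg0))] at h3
  exact h3

theorem Place.val_aux {v : Place k E Ω} {m : ℕ} {p : Fin m → E} {c : E}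
    (hc : ∀ i, c * p i ∈ v.V) (h0 : (fun i => v.res ⟨c * p i, hc i⟩) ≠ 0) :
    ∃ i, v.V.valuation (c * p i) = 1 := by
  by_contra hcon
  push Not at hcon
  apply h0
  funext i
  refine v.res_zero _ fun hu => hcon i ?_
  exact (v.V.valuation_eq_one_iff ⟨c * p i, hc i⟩).1 hu

/-- The value of a point at a place is unique. -/
theorem Place.IsVal.unique {v : Place k E Ω} {m : ℕ} {p : Fin m → E} {x x' : ℙ Ω (Fin m → Ω)}
    (h : v.IsVal p x) (h' : v.IsVal p x') : x = x' := by
  obtain ⟨c, hc, h0, rfl⟩ := h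
  obtain ⟨c', hc', h0', rfl⟩ := h'
  have key : ∀ (c c' : E) (hc : ∀ i, c * p i ∈ v.V) (hc' : ∀ i, c' * p i ∈ v.V),
      (fun i => v.res ⟨c * p i, hc i⟩) ≠ 0 → v.V.valuation (c' / c) ≤ 1 ∧ c ≠ 0 := by
    intro c c' hc hc' h0
    obtain ⟨i, hi⟩ := Place.val_aux hc h0
    have hc0 : c ≠ 0 := by
      rintro rfl
      rw [zero_mul, map_zero] at hi
      exact zero_ne_one hi
    refine ⟨?_, hc0⟩
    have h1 := (v.V.valuation_le_one_iff _).2 (hc' i)
    have h2 : c' * p i = c' / c * (c * p i) := by field_simp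
    rw [h2, map_mul, hi, mul_one] at h1
    exact h1
  obtain ⟨h1, hc0⟩ := key c c' hc hc' h0
  obtain ⟨h2, hc0'⟩ := key c' c hc' hc h0'
  have hd : c' / c ∈ v.V := (v.V.valuation_le_one_iff _).1 h1
  rw [Projectivization.mk_eq_mk_iff']
  have hd' : c / c' ∈ v.V := (v.V.valuation_le_one_iff _).1 h2
  refine ⟨v.res ⟨c / c', hd'⟩, ?_⟩
  funext i
  rw [Pi.smul_apply, smul_eq_mul, ← map_mul]
  congr 1
  ext
  change c / c' * (c' * p i) = c * p i
  field_simp

/-- The action of an automorphism on places. -/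
noncomputable def Place.gal (σ : Ω ≃ₐ[k] Ω) (v : Place k E Ω) : Place k E Ω where
  V := v.V
  ne_top := v.ne_top
  mem := v.mem
  res := (σ : Ω →+* Ω).comp v.res
  res_k := by
    intro a
    rw [RingHom.comp_apply, v.res_k a]
    exact σ.commutes a
  res_zero := by
    intro x hx
    rw [RingHom.comp_apply, v.res_zero x hx, map_zero]

theorem Place.gal_V (σ : Ω ≃ₐ[k] Ω) (v : Place k E Ω) : (v.gal σ).V = v.V := rfl

theorem Place.gal_res (σ : Ω ≃ₐ[k] Ω) (v : Place k E Ω) (x : v.V) :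
    (v.gal σ).res x = σ (v.res x) := rfl

/-- The action of an automorphism on places as a permutation. -/
noncomputable def Place.galE (σ : Ω ≃ₐ[k] Ω) : Place k E Ω ≃ Place k E Ω where
  toFun := Place.gal σ
  invFun := Place.gal σ.symm
  left_inv := by
    intro v
    refine Place.ext' rfl fun x _ _ => ?_
    change σ.symm (σ (v.res _)) = _
    rw [AlgEquiv.symm_apply_apply]
    rfl
  right_inv := by
    intro v
    refine Place.ext' rfl fun x _ _ => ?_
    change σ (σ.symm (v.res _)) = _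
    rw [AlgEquiv.apply_symm_apply]
    rfl

theorem Place.IsVal.gal {v : Place k E Ω} {m : ℕ} {p : Fin m → E} {x : ℙ Ω (Fin m → Ω)}
    (h : v.IsVal p x) (σ : Ω ≃ₐ[k] Ω) : (v.gal σ).IsVal p (mapPt (σ : Ω →+* Ω) x) := by
  obtain ⟨c, hc, h0, rfl⟩ := h
  refine ⟨c, hc, comp_ne (σ : Ω →+* Ω) h0, ?_⟩
  rw [mapPt_mk]
  rfl

/-- The values of a point of the family are points of the family. -/
theorem Place.zer2 {N n r : ℕ} {κ : Type} {h : κ → MvPolynomial (Fin N) k}
    {A : Fin r → Matrix (Fin n) (Fin n) (MvPolynomial (Fin N) k)}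
    (hh : ∀ j, ∃ d, (h j).IsHomogeneous d) (hA : ∀ i, ∃ e, ∀ a b, (A i a b).IsHomogeneous e)
    (v : Place k E Ω) {w : Fin N → E} {p : Fin n → E} (hz : Zer2 h A E w p)
    {x : ℙ Ω (Fin N → Ω)} {y : ℙ Ω (Fin n → Ω)} (hx : v.IsVal w x) (hy : v.IsVal p y) :
    Zer2 h A Ω x.rep y.rep := by
  obtain ⟨c, hc, h0, rfl⟩ := hx
  obtain ⟨d, hd, h0', rfl⟩ := hy
  rw [zer2_mk_iff hh hA]
  let : Algebra k v.V := ((algebraMap k E).codRestrict v.V.toSubring v.mem).toAlgebra
  let φ : v.V →ₐ[k] E := { v.V.subtype with commutes' := fun a => rfl }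
  let ψ : v.V →ₐ[k] Ω := { v.res with commutes' := fun a => v.res_k a }
  have h1 : Zer2 h A v.V (fun i => ⟨c * w i, hc i⟩) (fun i => ⟨d * p i, hd i⟩) := by
    refine Zer2.of_map φ Subtype.val_injective ?_
    exact hz.smul hh hA c d
  exact h1.map ψ

/-- The values of a point of the base are points of the base. -/
theorem Place.zer {N : ℕ} {κ : Type} {h : κ → MvPolynomial (Fin N) k}
    (hh : ∀ j, ∃ d, (h j).IsHomogeneous d) (v : Place k E Ω) {w : Fin N → E}
    (hz : Zer h E w) {x : ℙ Ω (Fin N → Ω)} (hx : v.IsVal w x) : Zer h Ω x.rep := by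
  obtain ⟨c, hc, h0, rfl⟩ := hx
  rw [zer_mk_iff hh]
  let : Algebra k v.V := ((algebraMap k E).codRestrict v.V.toSubring v.mem).toAlgebra
  let φ : v.V →ₐ[k] E := { v.V.subtype with commutes' := fun a => rfl }
  let ψ : v.V →ₐ[k] Ω := { v.res with commutes' := fun a => v.res_k a }
  have h1 : Zer h v.V (fun i => ⟨c * w i, hc i⟩) := by
    refine Zer.of_map φ Subtype.val_injective ?_
    exact hz.smul hh c
  exact h1.map ψ

end uniq

section inv

variable {k E Ω : Type u} [Field k] [Field E] [Field Ω] [Algebra k E] [Algebra k Ω]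

/-- The divisor of a function is Galois invariant, general form: `x` are the values of an object
at the places, with an action `act` of `σ` on the values. -/
theorem sum_inv {Y : Type*} (σ : Ω ≃ₐ[k] Ω) (act : Y → Y) {g : E} (S : Finset (Place k E Ω))
    (m : Place k E Ω → ℤ) (x : Place k E Ω → Y)
    (h1 : ∀ v, v ∉ S → g ∈ v.V ∧ g⁻¹ ∈ v.V) (h2 : ∀ v ∈ S, v.IsOrd g (m v))
    (h3 : ∀ v ∈ S, v.gal σ ∈ S → x (v.gal σ) = act (x v)) :
    Finsupp.mapDomain act (∑ v ∈ S, Finsupp.single (x v) (m v)) =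
      ∑ v ∈ S, Finsupp.single (x v) (m v) := by
  classical
  -- only the places with nonzero order count
  set S' := S.filter fun v => m v ≠ 0 with hS'
  have hsum : ∑ v ∈ S, Finsupp.single (x v) (m v) = ∑ v ∈ S', Finsupp.single (x v) (m v) := by
    rw [hS', Finset.sum_filter]
    refine Finset.sum_congr rfl fun v _ => ?_
    split_ifs with h
    · rfl
    · push Not at h
      rw [h, Finsupp.single_zero]
  have hstab : ∀ (τ : Ω ≃ₐ[k] Ω) (v : Place k E Ω), v ∈ S' → v.gal τ ∈ S' := by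
    intro τ v hv
    rw [hS', Finset.mem_filter] at hv ⊢
    have hS : v.gal τ ∈ S := by
      by_contra hcon
      obtain ⟨hg, hg'⟩ := h1 _ hcon
      exact hv.2 ((h2 v hv.1).eq_zero hg hg')
    refine ⟨hS, ?_⟩
    rw [(h2 _ hS).unique (v.gal_V τ) (h2 v hv.1)]
    exact hv.2
  rw [hsum, Finsupp.mapDomain_finset_sum]
  simp only [Finsupp.mapDomain_single]
  refine Finset.sum_equiv (Place.galE σ) (fun v => ⟨fun hv => hstab σ v hv, fun hv => ?_⟩)
    fun v hv => ?_
  · have h4 := hstab σ.symm _ hv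
    have h5 : Place.gal σ.symm (Place.galE σ v) = v := (Place.galE σ).left_inv v
    rwa [h5] at h4
  · have hv' := hstab σ v hv
    rw [hS', Finset.mem_filter] at hv hv'
    change Finsupp.single (act (x v)) (m v) = Finsupp.single (x (v.gal σ)) (m (v.gal σ))
    rw [h3 v hv.1 hv'.1, (h2 _ hv'.1).unique (v.gal_V σ) (h2 v hv.1)]

variable {N n r : ℕ} {κ : Type}

theorem IsPush2.inv {g : E} {w : Fin N → E} {p : Fin n → E} {z : Pt2 Ω N n →₀ ℤ}
    (hz : IsPush2 k Ω g w p z) (σ : Ω ≃ₐ[k] Ω) : Finsupp.mapDomain (perm2 σ) z = z := by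
  obtain ⟨S, m, x, h1, h2, rfl⟩ := hz
  refine sum_inv σ (perm2 σ) S m x h1 (fun v hv => (h2 v hv).1) fun v hv hv' => ?_
  exact Prod.ext ((h2 _ hv').2.1.unique ((h2 v hv).2.1.gal σ))
    ((h2 _ hv').2.2.unique ((h2 v hv).2.2.gal σ))

theorem IsPush.inv {g : E} {w : Fin N → E} {z : ℙ Ω (Fin N → Ω) →₀ ℤ}
    (hz : IsPush k Ω g w z) (σ : Ω ≃ₐ[k] Ω) : Finsupp.mapDomain (perm1 σ) z = z := by
  obtain ⟨S, m, x, h1, h2, rfl⟩ := hz
  refine sum_inv σ (perm1 σ) S m x h1 (fun v hv => (h2 v hv).1) fun v hv hv' => ?_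
  exact (h2 _ hv').2.unique ((h2 v hv).2.gal σ)

end inv

section main

variable {k : Type u} [Field k] {Ω : Type u} [Field Ω] [Algebra k Ω] {N n r : ℕ} {κ : Type}
  {h : κ → MvPolynomial (Fin N) k} {A : Fin r → Matrix (Fin n) (Fin n) (MvPolynomial (Fin N) k)}

/-- A combination of the points `x v` is supported in a set which contains them. -/
theorem supp_sum {ι Y : Type*} (S : Finset ι) (x : ι → Y) (m : ι → ℤ) (P : Y → Prop)
    (hP : ∀ v ∈ S, P (x v)) : ∀ y ∈ (∑ v ∈ S, Finsupp.single (x v) (m v)).support, P y := by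
  classical
  intro y hy
  by_contra hcon
  apply Finsupp.mem_support_iff.1 hy
  rw [Finsupp.finset_sum_apply]
  refine Finset.sum_eq_zero fun v hv => ?_
  rw [Finsupp.single_apply, if_neg]
  rintro rfl
  exact hcon (hP v hv)

/-- Cycles rationally equivalent to `0` on the family are zero-cycles over `k`. -/
theorem ratEq2_le (hh : ∀ j, ∃ d, (h j).IsHomogeneous d)
    (hA : ∀ i, ∃ e, ∀ a b, (A i a b).IsHomogeneous e) : ratEq2 Ω h A ≤ cyc2 Ω h A := by
  refine (AddSubgroup.closure_le _).2 ?_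
  rintro z ⟨E, _, _, _, g, w, p, _, _, _, hZ, hP⟩
  constructor
  · obtain ⟨S, m, x, h1, h2, rfl⟩ := hP
    exact supp_sum S x m (fun y => Zer2 h A Ω y.1.rep y.2.rep) fun v hv =>
      v.zer2 hh hA hZ (h2 v hv).2.1 (h2 v hv).2.2
  · intro σ x
    have h6 : Finsupp.mapDomain (perm2 σ) z (perm2 σ x) = z x :=
      Finsupp.mapDomain_apply (perm2 σ).injective _ _
    rw [hP.inv σ] at h6
    exact h6

/-- Cycles rationally equivalent to `0` are zero-cycles over `k`. -/
theorem ratEq_le (hh : ∀ j, ∃ d, (h j).IsHomogeneous d) : ratEq Ω h ≤ cyc Ω h := by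
  refine (AddSubgroup.closure_le _).2 ?_
  rintro z ⟨E, _, _, _, g, p, _, _, hZ, hP⟩
  constructor
  · obtain ⟨S, m, x, h1, h2, rfl⟩ := hP
    exact supp_sum S x m (fun y => Zer h Ω y.rep) fun v hv => v.zer hh hZ (h2 v hv).2
  · intro σ x
    have h6 : Finsupp.mapDomain (perm1 σ) z (perm1 σ x) = z x :=
      Finsupp.mapDomain_apply (perm1 σ).injective _ _
    rw [hP.inv σ] at h6
    exact h6

end main

end ZC
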