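import Mathlib
import Pool.Agent.Lib.MP_f80667_ag.Fa.Inv
import Pool.Agent.Lib.MP_f80667_ag.Fa.Comp
import Pool.Agent.Lib.MP_f80667_ag.Fa.Ext
import Pool.Agent.Lib.MP_f80667_ag.ZC.Good

/-!
Relations on the base lift to relations on the family, up to a multiple prime to a given number.
-/

open scoped LinearAlgebra.Projectivization
open Module MvPolynomial

namespace ZC

universe u

/-- Every point has a value at every place. -/
theorem Place.exists_isVal {k E Ω : Type u} [Field k] [Field E] [Field Ω] [Algebra k E]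
    [Algebra k Ω] (v : Place k E Ω) {n : ℕ} {p : Fin n → E} (hp : p ≠ 0) :
    ∃ x, v.IsVal p x := by
  obtain ⟨j, hj⟩ : ∃ j, p j ≠ 0 := by
    by_contra h
    push Not at h
    exact hp (funext h)
  obtain ⟨i, _, hi⟩ := Finset.exists_max_image Finset.univ (fun i => v.V.valuation (p i))
    ⟨j, Finset.mem_univ j⟩
  have hi0 : p i ≠ 0 := by
    intro h0
    have h1 := hi j (Finset.mem_univ j)
    rw [h0, map_zero] at h1
    exact (map_ne_zero v.V.valuation).2 hj (le_zero_iff.1 h1)
  have hc : ∀ j, (p i)⁻¹ * p j ∈ v.V := by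
    intro j
    rw [← ValuationSubring.valuation_le_one_iff, map_mul, map_inv₀]
    have h1 := hi j (Finset.mem_univ j)
    have h2 : v.V.valuation (p i) ≠ 0 := (map_ne_zero _).2 hi0
    calc (v.V.valuation (p i))⁻¹ * v.V.valuation (p j)
        ≤ (v.V.valuation (p i))⁻¹ * v.V.valuation (p i) := mul_le_mul_right h1 _
      _ = 1 := inv_mul_cancel₀ h2
  have h0 : (fun j => v.res ⟨(p i)⁻¹ * p j, hc j⟩) ≠ 0 := by
    intro h
    have h1 := congrFun h i
    have h2 : (⟨(p i)⁻¹ * p i, hc i⟩ : v.V) = 1 := by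
      ext
      exact inv_mul_cancel₀ hi0
    rw [h2, map_one] at h1
    exact one_ne_zero h1
  exact ⟨_, (p i)⁻¹, hc, h0, rfl⟩

section lift

variable {k E M Ω : Type u} [Field k] [Field E] [Field M] [Field Ω] [Algebra k E]
  [Algebra k M] [Algebra k Ω] [Algebra E M] [IsScalarTower k E M] [IsAlgClosed Ω] {N n r : ℕ}
  {κ : Type} {h : κ → MvPolynomial (Fin N) k}
  {A : Fin r → Matrix (Fin n) (Fin n) (MvPolynomial (Fin N) k)} {f : Polynomial k} {θ : M}

/-- A relation on the base lifts to a relation on the family over `M`. -/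
theorem lift_push (H : Fa.Cst k E f θ) (hE : IsFunField k E) {g : E} {w : Fin N → E}
    {z : ℙ Ω (Fin N → Ω) →₀ ℤ} (hz : IsPush k Ω g w z) {p : Fin n → M} (hp : p ≠ 0) :
    ∃ y : Pt2 Ω N n →₀ ℤ, pushW Ω y = f.natDegree • z ∧
      IsPush2 k Ω (algebraMap E M g) (fun i => algebraMap E M (w i)) p y := by
  classical
  obtain ⟨S, m, x, h1, h2, rfl⟩ := hz
  obtain ⟨S', ρ, ha, hb, hc⟩ := Fa.exists_places (Ω := Ω) H hE S h1 m fun v hv => (h2 v hv).1
  choose y hy using fun v' : Place k M Ω => v'.exists_isVal hp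
  refine ⟨∑ v' ∈ S', Finsupp.single ((x (ρ v'), y v') : Pt2 Ω N n) (m (ρ v')), ?_, ?_⟩
  · rw [map_sum]
    simp only [pushW_single]
    exact hc _ fun v => Finsupp.single (x v) (m v)
  · refine ⟨S', fun v' => m (ρ v'), fun v' => (x (ρ v'), y v'), ha, ?_, rfl⟩
    intro v' hv'
    obtain ⟨h3, h4, h5⟩ := hb v' hv'
    exact ⟨h4, h5 _ _ _ (h2 _ h3).2, hy v'⟩

end lift

section main

variable {k : Type u} [Field k] [CharZero k] {Ω : Type u} [Field Ω] [Algebra k Ω]
  [IsAlgClosure k Ω] {N n r : ℕ} {κ : Type} {h : κ → MvPolynomial (Fin N) k}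
  {A : Fin r → Matrix (Fin n) (Fin n) (MvPolynomial (Fin N) k)}

/-- **Step 2.** Relations on the base lift up to a multiple prime to `D`. -/
theorem fam_lift (hG : ∀ s, Good k Ω s) (hn : 8 * r < n)
    {z : ℙ Ω (Fin N → Ω) →₀ ℤ} (hz : z ∈ ratEq Ω h) (D : ℕ) (hD : D ≠ 0) :
    ∃ m : ℕ, m.Coprime D ∧ ∃ y ∈ ratEq2 Ω h A, pushW Ω y = m • z := by
  have hcl : IsAlgClosed Ω := IsAlgClosure.isAlgClosed k
  induction hz using AddSubgroup.closure_induction with
  | zero => exact ⟨1, Nat.coprime_one_left D, 0, zero_mem _, by simp⟩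
  | add a b _ _ ha hb =>
    obtain ⟨m, hm, y, hy, hyz⟩ := ha
    obtain ⟨m', hm', y', hy', hyz'⟩ := hb
    refine ⟨m * m', Nat.Coprime.mul_left hm hm', m' • y + m • y',
      add_mem (nsmul_mem hy _) (nsmul_mem hy' _), ?_⟩
    rw [map_add, map_nsmul, map_nsmul, hyz, hyz', smul_smul, smul_smul, mul_comm m' m, smul_add]
  | neg a _ ha =>
    obtain ⟨m, hm, y, hy, hyz⟩ := ha
    exact ⟨m, hm, -y, neg_mem hy, by rw [map_neg, hyz, smul_neg]⟩
  | mem z hz =>
    obtain ⟨E, _, _, hE, g, w, hg, hw, hZ, hP⟩ := hz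
    obtain ⟨t, ht, hfin⟩ := id hE
    have hd0 : finrank (IntermediateField.adjoin k {t}) E ≠ 0 := finrank_pos.ne'
    obtain ⟨s, hs⟩ := Fa.claimH.{u, u, u, u} hE hn fun i => (A i).map (aeval w)
    obtain ⟨L, hL, hc, hI⟩ := hG s (D * finrank (IntermediateField.adjoin k {t}) E)
      (mul_ne_zero hD hd0)
    obtain ⟨M, _, _, _, _, _, _, θ, f, hf1, hf2, hf3, hf4, hf5, hf6, hf7, hf8⟩ :=
      Fa.exists_comp ht L (Nat.Coprime.coprime_mul_left_right hc)
    have H : Fa.Cst k E f θ :=
      { monic := hf1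
        sep := hf2
        root := by rw [hf3]; exact minpoly.aeval E θ
        min := by
          intro p hp hp0
          by_contra hne
          have h1 := minpoly.degree_le_of_ne_zero E θ hne hp0
          rw [← hf3, Polynomial.degree_map] at h1
          exact absurd hp (not_lt.2 h1)
        gen := by
          intro y
          have h1 : y ∈ Algebra.adjoin E {θ} := by rw [hf5]; trivial
          rw [Algebra.adjoin_singleton_eq_range_aeval] at h1
          exact h1 }
    obtain ⟨p, hp, hpz⟩ := hs L M hf7 (hI L hL le_rfl s le_rfl)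
    obtain ⟨y, hy1, hy2⟩ := lift_push H hE hP hp
    refine ⟨f.natDegree, ?_, y, ?_, hy1⟩
    · rw [hf6]
      exact Nat.Coprime.coprime_mul_right_right hc
    · refine AddSubgroup.subset_closure ⟨M, inferInstance, inferInstance, hf8, algebraMap E M g,
        fun i => algebraMap E M (w i), p, (map_ne_zero _).2 hg, ?_, hp, ⟨?_, fun i => ?_⟩, hy2⟩
      · exact comp_ne (algebraMap E M) hw
      · exact hZ.map (IsScalarTower.toAlgHom k E M)
      · have h1 := hpz i
        have h2 : ((A i).map (aeval w)).map (algebraMap E M) =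
            (A i).map (aeval fun i => algebraMap E M (w i)) := by
          ext a b
          simp only [Matrix.map_apply]
          exact comp_aeval_apply (φ := IsScalarTower.toAlgHom k E M) (f := w) (A i a b)
        rw [h2] at h1
        exact h1

end main

end ZC
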