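import Pool.Agent.Lib.MP_f80667_ag.Fa.Arc

/-!
The adelic groups `F^1_A` of the base and of the family over a number field, their completions, and
the image of the diagonal map `Δ`.

* `Hat G` is the completion `lim G/mG` (over all `m ≥ 1`), `Hat.map φ` the homomorphism induced by
  `φ`.
* `F1A h` is the product of the groups `F1` of the base over the completions `F_v`, `v` finite, and
  of the groups `F1bar`, `v` infinite; `F1A2 h A` is the same for the family.
* `IsDelta h hh x z`: `z = Δ(x)` for `x` in the completion of `F1` over `F`: for every `m` the class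
  of `x` modulo `m` is the class of a zero-cycle `c` of degree `0` over `F`, and the class of `z`
  modulo `m` is the class of the family of the base changes of `c` to the `F_v`.
* `imDelta h hh`: the image of `Δ`.
-/

open scoped LinearAlgebra.Projectivization
open MvPolynomial IsDedekindDomain NumberField

namespace ZC

section hat

variable {G H J : Type*} [AddCommGroup G] [AddCommGroup H] [AddCommGroup J]

/-- The subgroup `m G`. -/
def mulm (G : Type*) [AddCommGroup G] (m : ℕ) : AddSubgroup G := (nsmulAddMonoidHom (α := G) m).range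

theorem mem_mulm {m : ℕ} {x : G} : x ∈ mulm G m ↔ ∃ y, m • y = x := Iff.rfl

theorem mulm_le {m m' : ℕ} (h : m ∣ m') : mulm G m' ≤ mulm G m := by
  rintro x hx
  obtain ⟨y, rfl⟩ := mem_mulm.1 hx
  obtain ⟨d, rfl⟩ := h
  exact mem_mulm.2 ⟨d • y, by rw [smul_smul]⟩

theorem mulm_map (φ : G →+ H) (m : ℕ) : mulm G m ≤ (mulm H m).comap φ := by
  rintro x hx
  obtain ⟨y, rfl⟩ := mem_mulm.1 hx
  exact mem_mulm.2 ⟨φ y, by rw [map_nsmul]⟩

/-- The completion `lim G/mG`. -/
def Hat (G : Type*) [AddCommGroup G] : AddSubgroup (∀ m : ℕ+, G ⧸ mulm G m) where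
  carrier := {x | ∀ (m m' : ℕ+) (hm : (m : ℕ) ∣ m'),
    QuotientAddGroup.map (mulm G m') (mulm G m) (AddMonoidHom.id G) (mulm_le hm) (x m') = x m}
  zero_mem' := fun m m' hm => map_zero _
  add_mem' := fun {a b} ha hb m m' hm => by
    rw [Pi.add_apply, map_add, ha m m' hm, hb m m' hm]
    rfl
  neg_mem' := fun {a} ha m m' hm => by
    rw [Pi.neg_apply, map_neg, ha m m' hm]
    rfl

/-- The homomorphism of completions induced by `φ`. -/
def Hat.map (φ : G →+ H) : Hat G →+ Hat H where
  toFun := fun x => ⟨fun m => QuotientAddGroup.map (mulm G m) (mulm H m) φ (mulm_map φ m) (x.1 m), by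
    intro m m' hm
    have h1 := x.2 m m' hm
    dsimp only
    rw [← h1]
    obtain ⟨y, hy⟩ := QuotientAddGroup.mk_surjective (x.1 m')
    rw [← hy]
    rfl⟩
  map_zero' := Subtype.ext (funext fun m => map_zero _)
  map_add' := fun x y => Subtype.ext (funext fun m => map_add _ _ _)

theorem Hat.map_apply (φ : G →+ H) (x : Hat G) (m : ℕ+) :
    (Hat.map φ x).1 m = QuotientAddGroup.map (mulm G m) (mulm H m) φ (mulm_map φ m) (x.1 m) := rfl

theorem Hat.map_map (φ : G →+ H) (ψ : H →+ J) (x : Hat G) :
    Hat.map ψ (Hat.map φ x) = Hat.map (ψ.comp φ) x := by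
  refine Subtype.ext (funext fun m => ?_)
  rw [Hat.map_apply, Hat.map_apply, Hat.map_apply]
  obtain ⟨y, hy⟩ := QuotientAddGroup.mk_surjective (x.1 m)
  rw [← hy]
  rfl

theorem Hat.map_id (x : Hat G) : Hat.map (AddMonoidHom.id G) x = x := by
  refine Subtype.ext (funext fun m => ?_)
  rw [Hat.map_apply]
  obtain ⟨y, hy⟩ := QuotientAddGroup.mk_surjective (x.1 m)
  rw [← hy]
  rfl

theorem Hat.map_bijective (φ : G →+ H) (hφ : Function.Bijective φ) :
    Function.Bijective (Hat.map φ) := by
  let e : G ≃+ H := AddEquiv.ofBijective φ hφ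
  have h1 : (e.symm : H →+ G).comp φ = AddMonoidHom.id G := by
    ext x
    exact e.symm_apply_apply x
  have h2 : φ.comp (e.symm : H →+ G) = AddMonoidHom.id H := by
    ext x
    exact e.apply_symm_apply x
  refine Function.bijective_iff_has_inverse.2 ⟨Hat.map (e.symm : H →+ G), fun x => ?_, fun x => ?_⟩
  · rw [Hat.map_map, h1, Hat.map_id]
  · rw [Hat.map_map, h2, Hat.map_id]

/-- A bijective homomorphism is injective modulo `m`. -/
theorem quot_inj (φ : G →+ H) (hφ : Function.Bijective φ) (m : ℕ) {x y : G ⧸ mulm G m}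
    (hxy : QuotientAddGroup.map (mulm G m) (mulm H m) φ (mulm_map φ m) x =
      QuotientAddGroup.map (mulm G m) (mulm H m) φ (mulm_map φ m) y) : x = y := by
  obtain ⟨a, rfl⟩ := QuotientAddGroup.mk_surjective x
  obtain ⟨b, rfl⟩ := QuotientAddGroup.mk_surjective y
  rw [QuotientAddGroup.map_mk, QuotientAddGroup.map_mk, QuotientAddGroup.eq] at hxy
  rw [QuotientAddGroup.eq]
  obtain ⟨c, hc⟩ := mem_mulm.1 hxy
  obtain ⟨d, rfl⟩ := hφ.2 c
  refine mem_mulm.2 ⟨d, hφ.1 ?_⟩
  rw [map_nsmul, hc, map_add, map_neg]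

end hat

section loc

universe u

variable {k : Type u} [Field k] {Ω : Type u} [Field Ω] [Algebra k Ω] [IsAlgClosure k Ω]
  {N n r : ℕ} {κ : Type}
  {K : Type u} [Field K] [Algebra k K] {Ω' : Type u} [Field Ω'] [Algebra K Ω'] [Algebra k Ω']
  [IsScalarTower k K Ω'] {h : κ → MvPolynomial (Fin N) k}
  {A : Fin r → Matrix (Fin n) (Fin n) (MvPolynomial (Fin N) k)}

/-- Base change of zero-cycles of degree `0`, as a homomorphism. -/
noncomputable def loc (e : Ω →ₐ[k] Ω') (hh : ∀ j, ∃ d, (h j).IsHomogeneous d) :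
    cyc0 Ω h →+ cyc0 Ω' (hK K h) :=
  ((bc e).comp (cyc0 Ω h).subtype).codRestrict _ (fun z => bc_mem0 e hh z.2)

/-- Base change of zero-cycles of degree `0` of the family, as a homomorphism. -/
noncomputable def loc2 (e : Ω →ₐ[k] Ω') (hh : ∀ j, ∃ d, (h j).IsHomogeneous d)
    (hA : ∀ i, ∃ e, ∀ a b, (A i a b).IsHomogeneous e) :
    cyc02 Ω h A →+ cyc02 Ω' (hK K h) (AK K A) :=
  ((bc2 e).comp (cyc02 Ω h A).subtype).codRestrict _ (fun z => bc2_mem0 e hh hA z.2)

end loc

section adele

variable {F : Type} [Field F] [NumberField F] {N n r : ℕ} {κ : Type}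

/-- The algebraic closure of `F` inside the algebraic closure of an extension field. -/
noncomputable def emb (F : Type) [Field F] (K : Type) [Field K] [Algebra F K] :
    AlgebraicClosure F →ₐ[F] AlgebraicClosure K :=
  IsAlgClosed.lift

/-- The adelic group `F^1_A` of the base: the product of the groups of zero-cycles of degree `0`
modulo rational equivalence over all completions, at the infinite places modulo norms. -/
abbrev F1A (h : κ → MvPolynomial (Fin N) F) : Type :=
  (∀ v : HeightOneSpectrum (𝓞 F),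
    F1 (AlgebraicClosure (v.adicCompletion F)) (hK (v.adicCompletion F) h)) ×
  (∀ v : InfinitePlace F, F1bar (AlgebraicClosure v.Completion) (hK v.Completion h))

/-- The adelic group `F^1_A` of the family. -/
abbrev F1A2 (h : κ → MvPolynomial (Fin N) F)
    (A : Fin r → Matrix (Fin n) (Fin n) (MvPolynomial (Fin N) F)) : Type :=
  (∀ v : HeightOneSpectrum (𝓞 F),
    F12 (AlgebraicClosure (v.adicCompletion F)) (hK (v.adicCompletion F) h)
      (AK (v.adicCompletion F) A)) ×
  (∀ v : InfinitePlace F, F1bar2 (AlgebraicClosure v.Completion) (hK v.Completion h)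
    (AK v.Completion A))

/-- The family of the classes of the base changes of a zero-cycle of degree `0` over `F`. -/
noncomputable def diag (h : κ → MvPolynomial (Fin N) F) (hh : ∀ j, ∃ d, (h j).IsHomogeneous d) :
    cyc0 (AlgebraicClosure F) h →+ F1A h where
  toFun := fun c => (fun v => QuotientAddGroup.mk (loc (emb F (v.adicCompletion F)) hh c),
    fun v => QuotientAddGroup.mk (loc (emb F v.Completion) hh c))
  map_zero' := by
    refine Prod.ext (funext fun v => ?_) (funext fun v => ?_)
    · dsimp only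
      rw [map_zero]
      rfl
    · dsimp only
      rw [map_zero]
      rfl
  map_add' := fun a b => by
    refine Prod.ext (funext fun v => ?_) (funext fun v => ?_)
    · dsimp only
      rw [map_add]
      rfl
    · dsimp only
      rw [map_add]
      rfl

/-- The same for the family. -/
noncomputable def diag2 (h : κ → MvPolynomial (Fin N) F)
    (A : Fin r → Matrix (Fin n) (Fin n) (MvPolynomial (Fin N) F))
    (hh : ∀ j, ∃ d, (h j).IsHomogeneous d) (hA : ∀ i, ∃ e, ∀ a b, (A i a b).IsHomogeneous e) :
    cyc02 (AlgebraicClosure F) h A →+ F1A2 h A where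
  toFun := fun c => (fun v => QuotientAddGroup.mk (loc2 (emb F (v.adicCompletion F)) hh hA c),
    fun v => QuotientAddGroup.mk (loc2 (emb F v.Completion) hh hA c))
  map_zero' := by
    refine Prod.ext (funext fun v => ?_) (funext fun v => ?_)
    · dsimp only
      rw [map_zero]
      rfl
    · dsimp only
      rw [map_zero]
      rfl
  map_add' := fun a b => by
    refine Prod.ext (funext fun v => ?_) (funext fun v => ?_)
    · dsimp only
      rw [map_add]
      rfl
    · dsimp only
      rw [map_add]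
      rfl

/-- `z = Δ(x)`. -/
def IsDelta (h : κ → MvPolynomial (Fin N) F) (hh : ∀ j, ∃ d, (h j).IsHomogeneous d)
    (x : Hat (F1 (AlgebraicClosure F) h)) (z : Hat (F1A h)) : Prop :=
  ∀ m : ℕ+, ∃ c : cyc0 (AlgebraicClosure F) h,
    x.1 m = QuotientAddGroup.mk (QuotientAddGroup.mk c) ∧
    z.1 m = QuotientAddGroup.mk (diag h hh c)

/-- `z = Δ(x)` for the family. -/
def IsDelta2 (h : κ → MvPolynomial (Fin N) F)
    (A : Fin r → Matrix (Fin n) (Fin n) (MvPolynomial (Fin N) F))
    (hh : ∀ j, ∃ d, (h j).IsHomogeneous d) (hA : ∀ i, ∃ e, ∀ a b, (A i a b).IsHomogeneous e)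
    (x : Hat (F12 (AlgebraicClosure F) h A)) (z : Hat (F1A2 h A)) : Prop :=
  ∀ m : ℕ+, ∃ c : cyc02 (AlgebraicClosure F) h A,
    x.1 m = QuotientAddGroup.mk (QuotientAddGroup.mk c) ∧
    z.1 m = QuotientAddGroup.mk (diag2 h A hh hA c)

/-- The image of `Δ` for the base. -/
def imDelta (h : κ → MvPolynomial (Fin N) F) (hh : ∀ j, ∃ d, (h j).IsHomogeneous d) :
    Set (Hat (F1A h)) := {z | ∃ x, IsDelta h hh x z}

/-- The image of `Δ` for the family. -/
def imDelta2 (h : κ → MvPolynomial (Fin N) F)
    (A : Fin r → Matrix (Fin n) (Fin n) (MvPolynomial (Fin N) F))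
    (hh : ∀ j, ∃ d, (h j).IsHomogeneous d) (hA : ∀ i, ∃ e, ∀ a b, (A i a b).IsHomogeneous e) :
    Set (Hat (F1A2 h A)) := {z | ∃ x, IsDelta2 h A hh hA x z}

/-- The push-forward on the adelic groups. -/
noncomputable def pushA (h : κ → MvPolynomial (Fin N) F)
    (A : Fin r → Matrix (Fin n) (Fin n) (MvPolynomial (Fin N) F)) : F1A2 h A →+ F1A h where
  toFun := fun z => (fun v => pushF1 _ _ _ (z.1 v), fun v => pushF1bar _ _ _ (z.2 v))
  map_zero' := by
    refine Prod.ext (funext fun v => map_zero _) (funext fun v => map_zero _)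
  map_add' := fun a b => by
    refine Prod.ext (funext fun v => map_add _ _ _) (funext fun v => map_add _ _ _)

variable {h : κ → MvPolynomial (Fin N) F}
  {A : Fin r → Matrix (Fin n) (Fin n) (MvPolynomial (Fin N) F)}

theorem pushA_fst (z : F1A2 h A) (v : HeightOneSpectrum (𝓞 F)) :
    (pushA h A z).1 v = pushF1 _ _ _ (z.1 v) := rfl

theorem pushA_snd (z : F1A2 h A) (v : InfinitePlace F) :
    (pushA h A z).2 v = pushF1bar _ _ _ (z.2 v) := rfl

theorem pushA_bijective (hh : ∀ j, ∃ d, (h j).IsHomogeneous d)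
    (hfin : ∀ v : HeightOneSpectrum (𝓞 F), Function.Bijective
      (pushF1 (AlgebraicClosure (v.adicCompletion F)) (hK (v.adicCompletion F) h)
        (AK (v.adicCompletion F) A)))
    (hreal : ∀ v : InfinitePlace F, v.IsReal →
      ∀ w : Fin N → v.Completion, Zer (hK v.Completion h) v.Completion w → w = 0) :
    Function.Bijective (pushA h A) := by
  have hinf : ∀ v : InfinitePlace F,
      Subsingleton (F1bar (AlgebraicClosure v.Completion) (hK v.Completion h)) ∧
      Subsingleton (F1bar2 (AlgebraicClosure v.Completion) (hK v.Completion h)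
        (AK v.Completion A)) := by
    intro v
    by_cases hv : v.IsReal
    · have e := InfinitePlace.Completion.ringEquivRealOfIsReal hv
      have := finite_real (k := v.Completion) (Ω := AlgebraicClosure v.Completion) e
      have hf := free_real (k := v.Completion) (Ω := AlgebraicClosure v.Completion)
        (hK_hom hh) e (hreal v hv)
      exact ⟨F1bar_free hf, F1bar2_free hf⟩
    · have hc := InfinitePlace.not_isReal_iff_isComplex.1 hv
      have e := InfinitePlace.Completion.ringEquivComplexOfIsComplex hc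
      have : IsAlgClosed v.Completion := IsAlgClosed.of_ringEquiv _ _ e.symm
      have := subsingleton_complex (k := v.Completion) (Ω := AlgebraicClosure v.Completion)
      have hf : ∀ w : ℙ (AlgebraicClosure v.Completion) (Fin N → AlgebraicClosure v.Completion),
          Zer (hK v.Completion h) (AlgebraicClosure v.Completion) w.rep →
          ∀ σ τ : AlgebraicClosure v.Completion ≃ₐ[v.Completion] AlgebraicClosure v.Completion,
          mapPt (σ : AlgebraicClosure v.Completion →+* AlgebraicClosure v.Completion) w =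
            mapPt (τ : AlgebraicClosure v.Completion →+* AlgebraicClosure v.Completion) w →
          σ = τ := fun w _ σ τ _ => Subsingleton.elim σ τ
      exact ⟨F1bar_free hf, F1bar2_free hf⟩
  constructor
  · intro a b hab
    refine Prod.ext (funext fun v => ?_) (funext fun v => ?_)
    · apply (hfin v).1
      rw [← pushA_fst, ← pushA_fst, hab]
    · have := (hinf v).2
      exact Subsingleton.elim _ _
  · intro b
    choose a ha using fun v => (hfin v).2 (b.1 v)
    refine ⟨(a, fun v => 0), Prod.ext (funext fun v => ?_) (funext fun v => ?_)⟩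
    · rw [pushA_fst]
      exact ha v
    · have := (hinf v).1
      exact Subsingleton.elim _ _

/-- The push-forward of the class of a cycle over `F`. -/
theorem pushA_diag2 (hh : ∀ j, ∃ d, (h j).IsHomogeneous d)
    (hA : ∀ i, ∃ e, ∀ a b, (A i a b).IsHomogeneous e) (c : cyc02 (AlgebraicClosure F) h A) :
    pushA h A (diag2 h A hh hA c) = diag h hh ⟨pushW (AlgebraicClosure F) c.1, pushW_mem0 c.2⟩ := by
  refine Prod.ext (funext fun v => ?_) (funext fun v => ?_)
  · change pushF1 _ _ _ (QuotientAddGroup.mk _) = QuotientAddGroup.mk _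
    rw [pushF1, indMap_mk]
    congr 1
    exact Subtype.ext (pushW_bc2 _ _)
  · change pushF1bar _ _ _ (QuotientAddGroup.mk _) = QuotientAddGroup.mk _
    rw [pushF1bar, indMap_mk]
    congr 1
    exact Subtype.ext (pushW_bc2 _ _)

/-- The push-forward of the image of `Δ` of the family is in the image of `Δ` of the base. -/
theorem imDelta2_push (hh : ∀ j, ∃ d, (h j).IsHomogeneous d)
    (hA : ∀ i, ∃ e, ∀ a b, (A i a b).IsHomogeneous e) {z : Hat (F1A2 h A)}
    (hz : z ∈ imDelta2 h A hh hA) : Hat.map (pushA h A) z ∈ imDelta h hh := by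
  obtain ⟨x, hx⟩ := hz
  refine ⟨Hat.map (pushF1 (AlgebraicClosure F) h A) x, fun m => ?_⟩
  obtain ⟨c, hc1, hc2⟩ := hx m
  refine ⟨⟨pushW (AlgebraicClosure F) c.1, pushW_mem0 c.2⟩, ?_, ?_⟩
  · rw [Hat.map_apply, hc1]
    rfl
  · rw [Hat.map_apply, hc2, QuotientAddGroup.map_mk, pushA_diag2]

/-- If the push-forward is bijective at all places and there is a section, an element whose
push-forward is in the image of `Δ` of the base is in the image of `Δ` of the family. -/
theorem mem_imDelta2 (hh : ∀ j, ∃ d, (h j).IsHomogeneous d)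
    (hA : ∀ i, ∃ e, ∀ a b, (A i a b).IsHomogeneous e) (hb : Function.Bijective (pushA h A))
    {s : Fin n → MvPolynomial (Fin N) F} (hS : IsSection h A s) (hn : 0 < n)
    {z : Hat (F1A2 h A)} (hz : Hat.map (pushA h A) z ∈ imDelta h hh) :
    z ∈ imDelta2 h A hh hA := by
  obtain ⟨x, hx⟩ := hz
  have hne : (fun _ => 1 : Fin n → AlgebraicClosure F) ≠ 0 := fun h0 =>
    one_ne_zero (congrFun h0 ⟨0, hn⟩)
  set y₀ : ℙ (AlgebraicClosure F) (Fin n → AlgebraicClosure F) :=
    Projectivization.mk (AlgebraicClosure F) _ hne with hy₀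
  refine ⟨Hat.map (secF1 hS hh hA y₀) x, fun m => ?_⟩
  obtain ⟨c, hc1, hc2⟩ := hx m
  refine ⟨⟨secC s y₀ c.1, secC_mem0 hS hh hA y₀ c.2⟩, ?_, ?_⟩
  · rw [Hat.map_apply, hc1]
    rfl
  · apply quot_inj (pushA h A) hb
    rw [← Hat.map_apply, hc2, QuotientAddGroup.map_mk, pushA_diag2]
    congr 2
    exact Subtype.ext (pushW_secC y₀ c.1).symm

end adele

end ZC
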