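import Pool.Agent.Lib.MP_f80667_ag.Fa.Dfs
import Pool.Agent.Lib.MP_f80667_ag.Fa.Glob

/-!
The push-forward on the completed adelic groups (definitions in `Dfs`): bijectivity and the image of
the diagonal map `Δ`.
-/

open scoped LinearAlgebra.Projectivization
open MvPolynomial IsDedekindDomain NumberField

namespace ZC

section hat

variable {G H : Type*} [AddCommGroup G] [AddCommGroup H]

/-- The map on `G/mG` induced by `φ`. -/
def qmap (φ : G →+ H) (m : ℕ+) (x : G ⧸ mlt G m) : H ⧸ mlt H m :=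
  QuotientAddGroup.map (mlt G m) (mlt H m) φ (mulm_map φ m) x

theorem qmap_mk (φ : G →+ H) (m : ℕ+) (a : G) :
    qmap φ m (QuotientAddGroup.mk a) = QuotientAddGroup.mk (φ a) := rfl

theorem qmap_compat (φ : G →+ H) (x : LHat G) (m m' : ℕ+) (hm : m ∣ m') (a : H)
    (h : qmap φ m' (x.1 m') = QuotientAddGroup.mk a) :
    qmap φ m (x.1 m) = QuotientAddGroup.mk a := by
  obtain ⟨y, hy⟩ := QuotientAddGroup.mk_surjective (x.1 m')
  rw [x.2 m m' hm y hy.symm, qmap_mk]
  rw [← hy, qmap_mk] at h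
  rw [QuotientAddGroup.eq] at h ⊢
  exact mulm_le (PNat.dvd_iff.1 hm) h

/-- The map of completions induced by `φ`. -/
def LHat.map (φ : G →+ H) (x : LHat G) : LHat H :=
  ⟨fun m => qmap φ m (x.1 m), qmap_compat φ x⟩

theorem LHat.Rep.map (φ : G →+ H) {x : LHat G} {m : ℕ+} {a : G} (hx : x.Rep m a) :
    (LHat.map φ x).Rep m (φ a) := by
  change qmap φ m (x.1 m) = _
  rw [LHat.Rep] at hx
  rw [hx]
  rfl

theorem LHat.Rep.of_map (φ : G →+ H) (hφ : Function.Bijective φ) {x : LHat G} {m : ℕ+} {a : G}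
    (hx : (LHat.map φ x).Rep m (φ a)) : x.Rep m a :=
  quot_inj φ hφ m hx

theorem LHat.exists_rep (x : LHat G) (m : ℕ+) : ∃ a, x.Rep m a := by
  obtain ⟨a, ha⟩ := QuotientAddGroup.mk_surjective (x.1 m)
  exact ⟨a, ha.symm⟩

theorem LHat.ext_rep {x y : LHat G} (h : ∀ m : ℕ+, ∃ a, x.Rep m a ∧ y.Rep m a) : x = y := by
  refine Subtype.ext (funext fun m => ?_)
  obtain ⟨a, ha, hb⟩ := h m
  exact ha.trans hb.symm

theorem LHat.map_bijective (φ : G →+ H) (hφ : Function.Bijective φ) :
    Function.Bijective (LHat.map φ) := by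
  constructor
  · intro x y hxy
    refine LHat.ext_rep fun m => ?_
    obtain ⟨a, ha⟩ := x.exists_rep m
    refine ⟨a, ha, LHat.Rep.of_map φ hφ ?_⟩
    rw [← hxy]
    exact ha.map φ
  · let e : G ≃+ H := AddEquiv.ofBijective φ hφ
    intro y
    refine ⟨LHat.map (e.symm : H →+ G) y, LHat.ext_rep fun m => ?_⟩
    obtain ⟨a, ha⟩ := y.exists_rep m
    refine ⟨a, ?_, ha⟩
    have h1 := (ha.map (e.symm : H →+ G)).map φ
    have h2 : φ ((e.symm : H →+ G) a) = a := e.apply_symm_apply a
    rwa [h2] at h1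

end hat

section push

variable {K : Type} [Field K] {N n r : ℕ} {κ : Type} {h : κ → MvPolynomial (Fin N) K}
  {A : Fin r → Matrix (Fin n) (Fin n) (MvPolynomial (Fin N) K)}

variable (K h A) in
/-- The push-forward of zero-cycles of degree `0` modulo rational equivalence. -/
noncomputable def p1 : G2 K h A →+ G1 K h := pushF1 (AlgebraicClosure K) h A

variable (K h A) in
/-- The push-forward modulo rational equivalence and norms. -/
noncomputable def p1b : G2b K h A →+ G1b K h := pushF1bar (AlgebraicClosure K) h A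

theorem p1_cls (c : Z2 K h A) : p1 K h A (G2.cls c) = G1.cls (pfZ c) := rfl

theorem p1b_cls (c : Z2 K h A) : p1b K h A (G2b.cls c) = G1b.cls (pfZ c) := rfl

theorem G1.cls_surj (x : G1 K h) : ∃ c, G1.cls c = x := Quotient.exists_rep x

end push

section adele

variable {F : Type} [Field F] [NumberField F] {N n r : ℕ} {κ : Type}

variable (h : κ → MvPolynomial (Fin N) F)
  (A : Fin r → Matrix (Fin n) (Fin n) (MvPolynomial (Fin N) F))

/-- The push-forward on the adelic groups. -/
noncomputable def pA : FA2 h A →+ FA h where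
  toFun := fun z => (fun v => p1 _ _ _ (z.1 v), fun v => p1b _ _ _ (z.2 v))
  map_zero' := Prod.ext (funext fun _ => map_zero _) (funext fun _ => map_zero _)
  map_add' := fun _ _ => Prod.ext (funext fun _ => map_add _ _ _) (funext fun _ => map_add _ _ _)

variable {h A}

theorem pA_fst (z : FA2 h A) (v : HeightOneSpectrum (𝓞 F)) :
    (pA h A z).1 v = p1 _ _ _ (z.1 v) := rfl

theorem pA_snd (z : FA2 h A) (v : InfinitePlace F) :
    (pA h A z).2 v = p1b _ _ _ (z.2 v) := rfl

theorem pA_clA2 (c : ZA2 h A) : pA h A (clA2 c) = clA (pfA c) := rfl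

omit [NumberField F] in
theorem sub_inf (hh : ∀ j, ∃ d, (h j).IsHomogeneous d) (v : InfinitePlace F)
    (hv' : v.IsComplex ∨ ∀ w : Fin N → IK F v, Zer (hE (IK F v) h) (IK F v) w → w = 0) :
    Subsingleton (F1bar (AlgebraicClosure (IK F v)) (hK (IK F v) h)) ∧
    Subsingleton (F1bar2 (AlgebraicClosure (IK F v)) (hK (IK F v) h) (AK (IK F v) A)) := by
  by_cases hv : v.IsReal
  · have e : IK F v ≃+* ℝ := InfinitePlace.Completion.ringEquivRealOfIsReal hv
    have := finite_real (k := IK F v) (Ω := AlgebraicClosure (IK F v)) e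
    have hf := free_real (k := IK F v) (Ω := AlgebraicClosure (IK F v))
      (hK_hom hh) e (hv'.resolve_left (InfinitePlace.not_isComplex_iff_isReal.2 hv))
    exact ⟨F1bar_free hf, F1bar2_free hf⟩
  · have hc := InfinitePlace.not_isReal_iff_isComplex.1 hv
    have e : IK F v ≃+* ℂ := InfinitePlace.Completion.ringEquivComplexOfIsComplex hc
    have : IsAlgClosed (IK F v) := IsAlgClosed.of_ringEquiv _ _ e.symm
    have := subsingleton_complex (k := IK F v) (Ω := AlgebraicClosure (IK F v))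
    have hf : ∀ w : ℙ (AlgebraicClosure (IK F v)) (Fin N → AlgebraicClosure (IK F v)),
        Zer (hK (IK F v) h) (AlgebraicClosure (IK F v)) w.rep →
        ∀ σ τ : AlgebraicClosure (IK F v) ≃ₐ[IK F v] AlgebraicClosure (IK F v),
        mapPt (σ : AlgebraicClosure (IK F v) →+* AlgebraicClosure (IK F v)) w =
          mapPt (τ : AlgebraicClosure (IK F v) →+* AlgebraicClosure (IK F v)) w →
        σ = τ := fun w _ σ τ _ => Subsingleton.elim σ τ
    exact ⟨F1bar_free hf, F1bar2_free hf⟩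

theorem PfBijN.bij {K : Type} [Field K] {h : κ → MvPolynomial (Fin N) K}
    {A : Fin r → Matrix (Fin n) (Fin n) (MvPolynomial (Fin N) K)} (H : PfBijN K h A) :
    Function.Bijective (p1b K h A) := by
  constructor
  · rw [injective_iff_map_eq_zero]
    intro x hx
    obtain ⟨c, rfl⟩ : ∃ c : Z2 K h A, G2b.cls c = x := Quotient.exists_rep x
    exact H.2 c hx
  · intro y
    obtain ⟨c, rfl⟩ : ∃ c : Z1 K h, G1b.cls c = y := Quotient.exists_rep y
    obtain ⟨c', hc'⟩ := H.1 c
    exact ⟨G2b.cls c', hc'⟩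

omit [NumberField F] in
theorem sub_G1b (hh : ∀ j, ∃ d, (h j).IsHomogeneous d) (v : InfinitePlace F)
    (hv : v.IsComplex ∨ ∀ w : Fin N → IK F v, Zer (hE (IK F v) h) (IK F v) w → w = 0) :
    Subsingleton (G1b (IK F v) (hE (IK F v) h)) ∧
    Subsingleton (G2b (IK F v) (hE (IK F v) h) (AE (IK F v) A)) :=
  sub_inf hh v hv

theorem pA_bijective (hh : ∀ j, ∃ d, (h j).IsHomogeneous d)
    (hfin : ∀ v : HeightOneSpectrum (𝓞 F), Function.Bijective
      (p1 (FK F v) (hE (FK F v) h) (AE (FK F v) A)))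
    (hreal : ∀ v : InfinitePlace F, v.IsReal → PfBijN (IK F v) (hE (IK F v) h) (AE (IK F v) A)) :
    Function.Bijective (pA h A) := by
  have hinf : ∀ v : InfinitePlace F, Function.Bijective
      (p1b (IK F v) (hE (IK F v) h) (AE (IK F v) A)) := by
    intro v
    by_cases hv : v.IsReal
    · exact (hreal v hv).bij
    · have h1 := sub_G1b (A := A) hh v (Or.inl (InfinitePlace.not_isReal_iff_isComplex.1 hv))
      have := h1.1
      have := h1.2
      exact ⟨fun a b _ => Subsingleton.elim _ _, fun b => ⟨0, Subsingleton.elim _ _⟩⟩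
  constructor
  · intro a b hab
    refine Prod.ext (funext fun v => ?_) (funext fun v => ?_)
    · apply (hfin v).1
      rw [← pA_fst, ← pA_fst, hab]
    · apply (hinf v).1
      rw [← pA_snd, ← pA_snd, hab]
  · intro b
    choose a ha using fun v => (hfin v).2 (b.1 v)
    choose a' ha' using fun v => (hinf v).2 (b.2 v)
    refine ⟨(a, a'), Prod.ext (funext fun v => ?_) (funext fun v => ?_)⟩
    · rw [pA_fst]
      exact ha v
    · rw [pA_snd]
      exact ha' v

omit [NumberField F] in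
theorem pfZ_bcZ2 (E : Type) [Field E] [Algebra F E] (hh : ∀ j, ∃ d, (h j).IsHomogeneous d)
    (hA : ∀ i, ∃ e, ∀ a b, (A i a b).IsHomogeneous e) (c : Z2 F h A) :
    pfZ (bcZ2 E hh hA c) = bcZ E hh (pfZ c) :=
  Subtype.ext (pushW_bc2 _ _)

theorem pfA_dgA2 (hh : ∀ j, ∃ d, (h j).IsHomogeneous d)
    (hA : ∀ i, ∃ e, ∀ a b, (A i a b).IsHomogeneous e) (c : Z2 F h A) :
    pfA (dgA2 hh hA c) = dgA hh (pfZ c) :=
  Prod.ext (funext fun _ => pfZ_bcZ2 _ hh hA c) (funext fun _ => pfZ_bcZ2 _ hh hA c)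

/-- The push-forward of the image of `Δ` of the family is in the image of `Δ` of the base. -/
theorem ImD2.push {hh : ∀ j, ∃ d, (h j).IsHomogeneous d}
    {hA : ∀ i, ∃ e, ∀ a b, (A i a b).IsHomogeneous e} {z : LHat (FA2 h A)}
    (hz : ImD2 hh hA z) : ImD hh (LHat.map (pA h A) z) := by
  obtain ⟨x, hx⟩ := hz
  refine ⟨LHat.map (p1 F h A) x, fun m => ?_⟩
  obtain ⟨c, hc1, hc2⟩ := hx m
  refine ⟨pfZ c, hc1.map (p1 F h A), ?_⟩
  have h1 := hc2.map (pA h A)
  rwa [pA_clA2, pfA_dgA2] at h1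

end adele

end ZC
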