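import Pool.Agent.Lib.MP_f80667_ag.Fa.Sec

/-!
Base change of zero-cycles along a homomorphism `e : Ω → Ω'` of algebraic closures of `k` and of an
extension field `K` of `k`.
-/

open scoped LinearAlgebra.Projectivization
open MvPolynomial

namespace ZC

universe u

section bc

variable {k : Type u} [Field k] {Ω : Type u} [Field Ω] [Algebra k Ω] {N n r : ℕ} {κ : Type}
  {K : Type u} [Field K] [Algebra k K] {Ω' : Type u} [Field Ω'] [Algebra K Ω'] [Algebra k Ω']
  [IsScalarTower k K Ω']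

/-- The equations of the base over an extension field. -/
noncomputable def hK (K : Type u) [Field K] [Algebra k K] (h : κ → MvPolynomial (Fin N) k) :
    κ → MvPolynomial (Fin N) K := fun j => MvPolynomial.map (algebraMap k K) (h j)

/-- The equations of the family over an extension field. -/
noncomputable def AK (K : Type u) [Field K] [Algebra k K]
    (A : Fin r → Matrix (Fin n) (Fin n) (MvPolynomial (Fin N) k)) :
    Fin r → Matrix (Fin n) (Fin n) (MvPolynomial (Fin N) K) :=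
  fun i => (A i).map (MvPolynomial.map (algebraMap k K))

theorem hK_hom {h : κ → MvPolynomial (Fin N) k} (hh : ∀ j, ∃ d, (h j).IsHomogeneous d) :
    ∀ j, ∃ d, (hK K h j).IsHomogeneous d := by
  intro j
  obtain ⟨d, hd⟩ := hh j
  exact ⟨d, hd.map _⟩

theorem AK_hom {A : Fin r → Matrix (Fin n) (Fin n) (MvPolynomial (Fin N) k)}
    (hA : ∀ i, ∃ e, ∀ a b, (A i a b).IsHomogeneous e) :
    ∀ i, ∃ e, ∀ a b, (AK K A i a b).IsHomogeneous e := by
  intro i
  obtain ⟨e, he⟩ := hA i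
  exact ⟨e, fun a b => (he a b).map _⟩

theorem zer_hK (h : κ → MvPolynomial (Fin N) k) {E : Type*} [CommRing E] [Algebra K E]
    [Algebra k E] [IsScalarTower k K E] (w : Fin N → E) : Zer (hK K h) E w ↔ Zer h E w := by
  refine forall_congr' fun j => ?_
  rw [hK, aeval_map_algebraMap]

theorem zer2_hK (h : κ → MvPolynomial (Fin N) k)
    (A : Fin r → Matrix (Fin n) (Fin n) (MvPolynomial (Fin N) k)) {E : Type*} [CommRing E]
    [Algebra K E] [Algebra k E] [IsScalarTower k K E] (w : Fin N → E) (x : Fin n → E) :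
    Zer2 (hK K h) (AK K A) E w x ↔ Zer2 h A E w x := by
  refine and_congr (zer_hK h w) (forall_congr' fun i => ?_)
  have h1 : (AK K A i).map (aeval w) = (A i).map (aeval w) := by
    ext a b
    simp only [AK, Matrix.map_apply]
    rw [aeval_map_algebraMap]
  rw [h1]

/-- Base change of cycles. -/
noncomputable def bc (e : Ω →ₐ[k] Ω') : (ℙ Ω (Fin N → Ω) →₀ ℤ) →+ (ℙ Ω' (Fin N → Ω') →₀ ℤ) :=
  Finsupp.mapDomain.addMonoidHom (mapPt (e : Ω →+* Ω'))

/-- Base change of cycles of pairs. -/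
noncomputable def bc2 (e : Ω →ₐ[k] Ω') : (Pt2 Ω N n →₀ ℤ) →+ (Pt2 Ω' N n →₀ ℤ) :=
  Finsupp.mapDomain.addMonoidHom (mapPt2 (e : Ω →+* Ω'))

theorem bc_single (e : Ω →ₐ[k] Ω') (x : ℙ Ω (Fin N → Ω)) (m : ℤ) :
    bc e (Finsupp.single x m) = Finsupp.single (mapPt (e : Ω →+* Ω') x) m := by
  simp [bc]

theorem bc2_single (e : Ω →ₐ[k] Ω') (x : Pt2 Ω N n) (m : ℤ) :
    bc2 e (Finsupp.single x m) = Finsupp.single (mapPt2 (e : Ω →+* Ω') x) m := by
  simp [bc2]

/-- An automorphism of `Ω'` over `K` restricts to `Ω`. -/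
theorem exists_restrict [IsAlgClosure k Ω] (e : Ω →ₐ[k] Ω') (σ : Ω' ≃ₐ[K] Ω') :
    ∃ τ : Ω ≃ₐ[k] Ω, ∀ x, σ (e x) = e (τ x) := by
  have : Normal k Ω := IsAlgClosure.normal k Ω
  have : Algebra.IsAlgebraic k Ω := IsAlgClosure.isAlgebraic
  let : Algebra Ω Ω' := (e : Ω →+* Ω').toAlgebra
  have : IsScalarTower k Ω Ω' := IsScalarTower.of_algebraMap_eq (fun x => (e.commutes x).symm)
  let σ' : Ω' ≃ₐ[k] Ω' := σ.restrictScalars k
  refine ⟨σ'.restrictNormal Ω, fun x => ?_⟩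
  exact (σ'.restrictNormal_commutes Ω x).symm

theorem bc_mem [IsAlgClosure k Ω] (e : Ω →ₐ[k] Ω') {h : κ → MvPolynomial (Fin N) k}
    (hh : ∀ j, ∃ d, (h j).IsHomogeneous d) {z : ℙ Ω (Fin N → Ω) →₀ ℤ} (hz : z ∈ cyc Ω h) :
    bc e z ∈ cyc Ω' (hK K h) := by
  classical
  constructor
  · intro x hx
    have h3 := Finsupp.mapDomain_support (f := mapPt (e : Ω →+* Ω')) (s := z) hx
    obtain ⟨y, hy, rfl⟩ := Finset.mem_image.1 h3
    rw [zer_hK]
    exact (zer_mapPt_iff hh e y).2 (hz.1 y hy)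
  · intro σ x
    obtain ⟨τ, hτ⟩ := exists_restrict e σ
    refine mapDomain_inv (mapPt (e : Ω →+* Ω')) (perm1 τ) (perm1 σ) z (fun y hy => ?_) (hz.2 τ) x
    change mapPt (e : Ω →+* Ω') (mapPt (τ : Ω →+* Ω) y) =
      mapPt (σ : Ω' →+* Ω') (mapPt (e : Ω →+* Ω') y)
    rw [mapPt_comp, mapPt_comp]
    congr 1
    ext a
    exact (hτ a).symm

theorem deg_bc (e : Ω →ₐ[k] Ω') (z : ℙ Ω (Fin N → Ω) →₀ ℤ) : deg Ω' (bc e z) = deg Ω z := by
  induction z using Finsupp.induction_linear with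
  | zero => simp
  | add f g hf hg => rw [map_add, map_add, hf, hg, map_add]
  | single x m => rw [bc_single]; simp [deg]

theorem bc2_mem [IsAlgClosure k Ω] (e : Ω →ₐ[k] Ω') {h : κ → MvPolynomial (Fin N) k}
    {A : Fin r → Matrix (Fin n) (Fin n) (MvPolynomial (Fin N) k)}
    (hh : ∀ j, ∃ d, (h j).IsHomogeneous d) (hA : ∀ i, ∃ e, ∀ a b, (A i a b).IsHomogeneous e)
    {z : Pt2 Ω N n →₀ ℤ} (hz : z ∈ cyc2 Ω h A) :
    bc2 e z ∈ cyc2 Ω' (hK K h) (AK K A) := by
  classical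
  constructor
  · intro x hx
    have h3 := Finsupp.mapDomain_support (f := mapPt2 (e : Ω →+* Ω')) (s := z) hx
    obtain ⟨y, hy, rfl⟩ := Finset.mem_image.1 h3
    rw [zer2_hK]
    exact (zer2_mapPt_iff hh hA e y).2 (hz.1 y hy)
  · intro σ x
    obtain ⟨τ, hτ⟩ := exists_restrict e σ
    refine mapDomain_inv (mapPt2 (e : Ω →+* Ω')) (perm2 τ) (perm2 σ) z (fun y hy => ?_) (hz.2 τ) x
    change mapPt2 (e : Ω →+* Ω') (mapPt2 (τ : Ω →+* Ω) y) =
      mapPt2 (σ : Ω' →+* Ω') (mapPt2 (e : Ω →+* Ω') y)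
    simp only [mapPt2]
    rw [mapPt_comp, mapPt_comp, mapPt_comp, mapPt_comp]
    have e1 : ((e : Ω →+* Ω')).comp (τ : Ω →+* Ω) = (σ : Ω' →+* Ω').comp (e : Ω →+* Ω') := by
      ext a
      exact (hτ a).symm
    rw [e1]

theorem deg2_bc2 (e : Ω →ₐ[k] Ω') (z : Pt2 Ω N n →₀ ℤ) : deg2 Ω' (bc2 e z) = deg2 Ω z := by
  induction z using Finsupp.induction_linear with
  | zero => simp
  | add f g hf hg => rw [map_add, map_add, hf, hg, map_add]
  | single x m => rw [bc2_single]; simp [deg2]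

theorem pushW_bc2 (e : Ω →ₐ[k] Ω') (z : Pt2 Ω N n →₀ ℤ) :
    pushW Ω' (bc2 e z) = bc e (pushW Ω z) := by
  induction z using Finsupp.induction_linear with
  | zero => simp
  | add f g hf hg => rw [map_add, map_add, hf, hg, map_add, map_add]
  | single x m => rw [bc2_single, pushW_single, pushW_single, bc_single]; rfl

end bc

end ZC
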