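import Pool.Agent.Lib.MP_f80667_ag.Fa.Main
import Pool.Agent.Lib.MP_f80667_ag.Fa.Bc

/-!
Definitions for the statement on families of intersections of quadrics over a number field `F`.

* `FK F v`, `IK F v`: the completions of `F` at a finite and at an infinite place.
* `hE E h`, `AE E A`: the equations over an extension field `E`.
* `D0 K h`, `D02 K h A`: the zero-cycles of degree `0` over `K` on the base `W` and on the family `X`
  (with the algebraic closure `AlgebraicClosure K`), `Z1`, `Z2` the corresponding types.
* `G1 K h`: zero-cycles of degree `0` on `W` modulo rational equivalence, `G1b K h`: modulo rational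
  equivalence and norms; `G2 K h A`, `G2b K h A`: the same for `X`; `cls`: the class of a cycle.
* `LHat G`: the completion `lim G/mG` over all `m ≥ 1`; `x.Rep m a`: `a` represents the component of
  `x` in `G/mG`.
* `ZA h`, `ZA2 h A`: the families of zero-cycles of degree `0` over all places of `F`;
  `FA h`, `FA2 h A`: the adelic groups `F^1_A`; `clA`, `clA2`: the class of a family of cycles.
* `PfBij K h A`: the push-forward is bijective on zero-cycles modulo rational equivalence;
  `PfOnto K h A`: it is surjective on zero-cycles of degree `0` modulo rational equivalence;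
  `PfBijN K h A`: it is bijective on zero-cycles of degree `0` modulo rational equivalence and norms.
* `pfZ`, `pfA`: the push-forward of cycles from `X` to `W`.
* `bcZ`, `bcZ2`: base change of cycles, `dgA`, `dgA2`: the family of the base changes of a cycle to
  all completions.
* `ImD h hh z`, `ImD2 h A hh hA z`: `z` is in the image of `Δ`.
-/

open scoped LinearAlgebra.Projectivization
open MvPolynomial IsDedekindDomain NumberField

namespace ZC

/-! ### Completions -/

section fields

variable (F : Type) [Field F]

/-- The completion of the number field `F` at a finite place. -/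
def FK [NumberField F] (v : HeightOneSpectrum (𝓞 F)) : Type := v.adicCompletion F

noncomputable instance FK.field [NumberField F] (v : HeightOneSpectrum (𝓞 F)) : Field (FK F v) :=
  (inferInstance : Field (v.adicCompletion F))

noncomputable instance FK.algebra [NumberField F] (v : HeightOneSpectrum (𝓞 F)) :
    Algebra F (FK F v) :=
  (inferInstance : Algebra F (v.adicCompletion F))

/-- The completion of the number field `F` at an infinite place. -/
def IK (v : InfinitePlace F) : Type := v.Completion

noncomputable instance IK.field (v : InfinitePlace F) : Field (IK F v) :=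
  (inferInstance : Field v.Completion)

noncomputable instance IK.algebra (v : InfinitePlace F) : Algebra F (IK F v) :=
  (inferInstance : Algebra F v.Completion)

end fields

/-! ### Cycles and groups over a field -/

section groups

variable (K : Type) [Field K] {N n r : ℕ} {κ : Type}
  (h : κ → MvPolynomial (Fin N) K) (A : Fin r → Matrix (Fin n) (Fin n) (MvPolynomial (Fin N) K))

/-- The zero-cycles of degree `0` of the base. -/
noncomputable def D0 : AddSubgroup (ℙ (AlgebraicClosure K) (Fin N → AlgebraicClosure K) →₀ ℤ) :=
  cyc0 (AlgebraicClosure K) h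

/-- The zero-cycles of degree `0` of the family. -/
noncomputable def D02 : AddSubgroup (Pt2 (AlgebraicClosure K) N n →₀ ℤ) :=
  cyc2 (AlgebraicClosure K) h A ⊓ (deg2 (AlgebraicClosure K)).ker

/-- The group generated by the norms of the points of the family over the algebraic closure. -/
noncomputable def nrm2 : AddSubgroup (Pt2 (AlgebraicClosure K) N n →₀ ℤ) :=
  AddSubgroup.closure {z | ∃ x : Pt2 (AlgebraicClosure K) N n,
    Zer2 h A (AlgebraicClosure K) x.1.rep x.2.rep ∧
    z = ∑ᶠ σ : AlgebraicClosure K ≃ₐ[K] AlgebraicClosure K,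
      Finsupp.single (mapPt2 (σ : AlgebraicClosure K →+* AlgebraicClosure K) x) 1}

/-- Zero-cycles of degree `0` of the base. -/
def Z1 : Type := D0 K h

/-- Zero-cycles of degree `0` of the family. -/
def Z2 : Type := D02 K h A

/-- Zero-cycles of degree `0` of the base modulo rational equivalence. -/
def G1 : Type := D0 K h ⧸ (ratEq (AlgebraicClosure K) h).addSubgroupOf (D0 K h)

/-- Zero-cycles of degree `0` of the base modulo rational equivalence and norms. -/
def G1b : Type :=
  D0 K h ⧸ (ratEq (AlgebraicClosure K) h ⊔ normCyc (AlgebraicClosure K) h).addSubgroupOf (D0 K h)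

/-- Zero-cycles of degree `0` of the family modulo rational equivalence. -/
def G2 : Type := D02 K h A ⧸ (ratEq2 (AlgebraicClosure K) h A).addSubgroupOf (D02 K h A)

/-- Zero-cycles of degree `0` of the family modulo rational equivalence and norms. -/
def G2b : Type :=
  D02 K h A ⧸ (ratEq2 (AlgebraicClosure K) h A ⊔ nrm2 K h A).addSubgroupOf (D02 K h A)

noncomputable instance G1.group : AddCommGroup (G1 K h) := QuotientAddGroup.Quotient.addCommGroup _

noncomputable instance G1b.group : AddCommGroup (G1b K h) :=
  QuotientAddGroup.Quotient.addCommGroup _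

noncomputable instance G2.group : AddCommGroup (G2 K h A) :=
  QuotientAddGroup.Quotient.addCommGroup _

noncomputable instance G2b.group : AddCommGroup (G2b K h A) :=
  QuotientAddGroup.Quotient.addCommGroup _

/-- The push-forward from the family to the base is bijective on zero-cycles modulo rational
equivalence: every zero-cycle of the base is the push-forward of a zero-cycle of the family, and a
zero-cycle of the family is rationally equivalent to `0` if and only if its push-forward is. -/
def PfBij : Prop :=
  (∀ z ∈ cyc (AlgebraicClosure K) h, ∃ y ∈ cyc2 (AlgebraicClosure K) h A,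
    pushW (AlgebraicClosure K) y = z) ∧
  ∀ z ∈ cyc2 (AlgebraicClosure K) h A, z ∈ ratEq2 (AlgebraicClosure K) h A ↔
    pushW (AlgebraicClosure K) z ∈ ratEq (AlgebraicClosure K) h

variable {K h A}

/-- The class of a cycle. -/
noncomputable def G1.cls (c : Z1 K h) : G1 K h := Quotient.mk _ c

/-- The class of a cycle. -/
noncomputable def G1b.cls (c : Z1 K h) : G1b K h := Quotient.mk _ c

/-- The class of a cycle. -/
noncomputable def G2.cls (c : Z2 K h A) : G2 K h A := Quotient.mk _ c

/-- The class of a cycle. -/
noncomputable def G2b.cls (c : Z2 K h A) : G2b K h A := Quotient.mk _ c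

theorem pfZ_mem (c : D02 K h A) : pushW (AlgebraicClosure K) c.1 ∈ D0 K h := pushW_mem0 c.2

/-- The push-forward of zero-cycles of degree `0` from the family to the base. -/
noncomputable def pfZ (c : Z2 K h A) : Z1 K h := ⟨_, pfZ_mem c⟩

variable (K h A)

/-- The push-forward is surjective on zero-cycles of degree `0` modulo rational equivalence. -/
def PfOnto : Prop := ∀ c : Z1 K h, ∃ c' : Z2 K h A, G1.cls (pfZ c') = G1.cls c

/-- The push-forward is bijective on zero-cycles of degree `0` modulo rational equivalence and
norms. -/
def PfBijN : Prop :=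
  (∀ c : Z1 K h, ∃ c' : Z2 K h A, G1b.cls (pfZ c') = G1b.cls c) ∧
  ∀ c : Z2 K h A, G1b.cls (pfZ c) = 0 → G2b.cls c = 0

end groups

/-! ### Base change -/

section bcs

variable {F : Type} [Field F] {N n r : ℕ} {κ : Type} (E : Type) [Field E] [Algebra F E]

/-- The equations of the base over an extension field. -/
noncomputable def hE (h : κ → MvPolynomial (Fin N) F) : κ → MvPolynomial (Fin N) E :=
  fun j => MvPolynomial.map (algebraMap F E) (h j)

/-- The equations of the family over an extension field. -/
noncomputable def AE (A : Fin r → Matrix (Fin n) (Fin n) (MvPolynomial (Fin N) F)) :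
    Fin r → Matrix (Fin n) (Fin n) (MvPolynomial (Fin N) E) :=
  fun i => (A i).map (MvPolynomial.map (algebraMap F E))

variable (F) in
/-- An embedding of the algebraic closure of `F` in that of an extension field. -/
noncomputable def emb' : AlgebraicClosure F →ₐ[F] AlgebraicClosure E := IsAlgClosed.lift

variable {h : κ → MvPolynomial (Fin N) F}
  {A : Fin r → Matrix (Fin n) (Fin n) (MvPolynomial (Fin N) F)}

theorem bcZ_mem (hh : ∀ j, ∃ d, (h j).IsHomogeneous d) (c : D0 F h) :
    Finsupp.mapDomain (mapPt (emb' F E : AlgebraicClosure F →+* AlgebraicClosure E)) c.1 ∈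
      D0 E (hE E h) := bc_mem0 (emb' F E) hh c.2

/-- Base change of zero-cycles of degree `0` of the base. -/
noncomputable def bcZ (hh : ∀ j, ∃ d, (h j).IsHomogeneous d) (c : Z1 F h) : Z1 E (hE E h) :=
  ⟨_, bcZ_mem E hh c⟩

theorem bcZ2_mem (hh : ∀ j, ∃ d, (h j).IsHomogeneous d)
    (hA : ∀ i, ∃ e, ∀ a b, (A i a b).IsHomogeneous e) (c : D02 F h A) :
    Finsupp.mapDomain (mapPt2 (emb' F E : AlgebraicClosure F →+* AlgebraicClosure E)) c.1 ∈
      D02 E (hE E h) (AE E A) := bc2_mem0 (emb' F E) hh hA c.2

/-- Base change of zero-cycles of degree `0` of the family. -/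
noncomputable def bcZ2 (hh : ∀ j, ∃ d, (h j).IsHomogeneous d)
    (hA : ∀ i, ∃ e, ∀ a b, (A i a b).IsHomogeneous e) (c : Z2 F h A) :
    Z2 E (hE E h) (AE E A) :=
  ⟨_, bcZ2_mem E hh hA c⟩

end bcs

/-! ### Completions of groups -/

section hat

/-- The subgroup of the multiples of `m`. -/
def mlt (G : Type*) [AddCommGroup G] (m : ℕ) : AddSubgroup G := (nsmulAddMonoidHom (α := G) m).range

/-- The completion `lim G/mG`: the families `x m ∈ G/mG`, such that every representative of `x m'`
represents `x m` if `m` divides `m'`. -/
def LHat (G : Type*) [AddCommGroup G] : Type _ :=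
  {x : ∀ m : ℕ+, G ⧸ mlt G m // ∀ m m' : ℕ+, m ∣ m' → ∀ a : G,
    x m' = QuotientAddGroup.mk a → x m = QuotientAddGroup.mk a}

/-- `a` represents the component of `x` in `G/mG`. -/
def LHat.Rep {G : Type*} [AddCommGroup G] (x : LHat G) (m : ℕ+) (a : G) : Prop :=
  x.1 m = QuotientAddGroup.mk a

end hat

/-! ### Adelic groups -/

section adele

variable {F : Type} [Field F] [NumberField F] {N n r : ℕ} {κ : Type}
  (h : κ → MvPolynomial (Fin N) F) (A : Fin r → Matrix (Fin n) (Fin n) (MvPolynomial (Fin N) F))

/-- The families of zero-cycles of degree `0` of the base over all places of `F`. -/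
def ZA : Type :=
  (∀ v : HeightOneSpectrum (𝓞 F), Z1 (FK F v) (hE (FK F v) h)) ×
  (∀ v : InfinitePlace F, Z1 (IK F v) (hE (IK F v) h))

/-- The families of zero-cycles of degree `0` of the family over all places of `F`. -/
def ZA2 : Type :=
  (∀ v : HeightOneSpectrum (𝓞 F), Z2 (FK F v) (hE (FK F v) h) (AE (FK F v) A)) ×
  (∀ v : InfinitePlace F, Z2 (IK F v) (hE (IK F v) h) (AE (IK F v) A))

/-- The adelic group `F^1_A` of the base. -/
def FA : Type :=
  (∀ v : HeightOneSpectrum (𝓞 F), G1 (FK F v) (hE (FK F v) h)) ×
  (∀ v : InfinitePlace F, G1b (IK F v) (hE (IK F v) h))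

/-- The adelic group `F^1_A` of the family. -/
def FA2 : Type :=
  (∀ v : HeightOneSpectrum (𝓞 F), G2 (FK F v) (hE (FK F v) h) (AE (FK F v) A)) ×
  (∀ v : InfinitePlace F, G2b (IK F v) (hE (IK F v) h) (AE (IK F v) A))

noncomputable instance FA.group : AddCommGroup (FA h) := Prod.instAddCommGroup

noncomputable instance FA2.group : AddCommGroup (FA2 h A) := Prod.instAddCommGroup

variable {h A}

/-- The class of a family of cycles. -/
noncomputable def clA (c : ZA h) : FA h := (fun v => G1.cls (c.1 v), fun v => G1b.cls (c.2 v))

/-- The class of a family of cycles. -/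
noncomputable def clA2 (c : ZA2 h A) : FA2 h A :=
  (fun v => G2.cls (c.1 v), fun v => G2b.cls (c.2 v))

/-- The push-forward of families of cycles. -/
noncomputable def pfA (c : ZA2 h A) : ZA h := (fun v => pfZ (c.1 v), fun v => pfZ (c.2 v))

/-- The family of the base changes of a zero-cycle of degree `0` over `F`. -/
noncomputable def dgA (hh : ∀ j, ∃ d, (h j).IsHomogeneous d) (c : Z1 F h) : ZA h :=
  (fun v => bcZ (FK F v) hh c, fun v => bcZ (IK F v) hh c)

/-- The family of the base changes of a zero-cycle of degree `0` over `F`. -/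
noncomputable def dgA2 (hh : ∀ j, ∃ d, (h j).IsHomogeneous d)
    (hA : ∀ i, ∃ e, ∀ a b, (A i a b).IsHomogeneous e) (c : Z2 F h A) : ZA2 h A :=
  (fun v => bcZ2 (FK F v) hh hA c, fun v => bcZ2 (IK F v) hh hA c)

/-- `z` is in the image of `Δ` of the base: there is `x` in the completion of `F^1(W)` such that for
every `m` there is a zero-cycle `c` of degree `0` over `F` which represents `x` modulo `m` and whose
family of base changes represents `z` modulo `m`. -/
def ImD (hh : ∀ j, ∃ d, (h j).IsHomogeneous d) (z : LHat (FA h)) : Prop :=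
  ∃ x : LHat (G1 F h), ∀ m : ℕ+, ∃ c : Z1 F h, x.Rep m (G1.cls c) ∧ z.Rep m (clA (dgA hh c))

/-- `z` is in the image of `Δ` of the family. -/
def ImD2 (hh : ∀ j, ∃ d, (h j).IsHomogeneous d) (hA : ∀ i, ∃ e, ∀ a b, (A i a b).IsHomogeneous e)
    (z : LHat (FA2 h A)) : Prop :=
  ∃ x : LHat (G2 F h A), ∀ m : ℕ+, ∃ c : Z2 F h A,
    x.Rep m (G2.cls c) ∧ z.Rep m (clA2 (dgA2 hh hA c))

end adele

end ZC
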