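import Pool.Agent.Lib.MP_f80667_ag.ZC.Place

/-!
Extension of constants of function fields: `M = E(θ)`, where `θ` is a root of a separable polynomial
`f ∈ k[X]` which stays irreducible over `E`. Every place `w` of `E/k` with a uniformizer has exactly
one extension to `M` for each root of `f` in `Ω`, and it is unramified.
-/

open Polynomial

namespace Fa

open ZC

universe u

/-- `M = E(θ)`, the minimal polynomial of `θ` over `E` is the separable polynomial `f ∈ k[X]`. -/
structure Cst (k E : Type u) {M : Type u} [Field k] [Field E] [Field M] [Algebra k E]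
    [Algebra E M] (f : k[X]) (θ : M) : Prop where
  monic : f.Monic
  sep : f.Separable
  root : aeval θ (f.map (algebraMap k E)) = 0
  min : ∀ p : E[X], p.degree < f.degree → aeval θ p = 0 → p = 0
  gen : ∀ y : M, ∃ p : E[X], aeval θ p = y

section defs

variable {k E M Ω : Type u} [Field k] [Field E] [Field M] [Field Ω] [Algebra k E] [Algebra k Ω]
  [Algebra E M]

/-- The constants in the valuation ring. -/
def kV (w : Place k E Ω) : k →+* w.V where
  toFun a := ⟨algebraMap k E a, w.mem a⟩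
  map_one' := by ext; simp
  map_zero' := by ext; simp
  map_mul' := by intro x y; ext; simp
  map_add' := by intro x y; ext; simp

theorem res_comp_kV (w : Place k E Ω) : w.res.comp (kV w) = algebraMap k Ω := by
  ext a
  exact w.res_k a

theorem subtype_comp_kV (w : Place k E Ω) : w.V.subtype.comp (kV w) = algebraMap k E := rfl

/-- Evaluation at `θ`. -/
noncomputable def ev (w : Place k E Ω) (θ : M) : w.V[X] →+* M :=
  eval₂RingHom ((algebraMap E M).comp w.V.subtype) θ

/-- Evaluation of the reduction at `β`. -/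
noncomputable def ph (w : Place k E Ω) (β : Ω) : w.V[X] →+* Ω := eval₂RingHom w.res β

theorem ev_eq (w : Place k E Ω) (θ : M) (p : w.V[X]) : ev w θ p = aeval θ (p.map w.V.subtype) := by
  rw [ev, coe_eval₂RingHom, aeval_def, eval₂_map]

theorem ev_C (w : Place k E Ω) (θ : M) (a : w.V) : ev w θ (C a) = algebraMap E M a := by
  rw [ev, coe_eval₂RingHom, eval₂_C]
  rfl

theorem ph_C (w : Place k E Ω) (β : Ω) (a : w.V) : ph w β (C a) = w.res a := by
  rw [ph, coe_eval₂RingHom, eval₂_C]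

theorem ev_X (w : Place k E Ω) (θ : M) : ev w θ X = θ := by
  rw [ev, coe_eval₂RingHom, eval₂_X]

theorem ph_X (w : Place k E Ω) (β : Ω) : ph w β X = β := by
  rw [ph, coe_eval₂RingHom, eval₂_X]

variable {f : k[X]} {θ : M} {β : Ω} {w : Place k E Ω}

theorem ev_f (H : Cst k E f θ) : ev w θ (f.map (kV w)) = 0 := by
  rw [ev_eq, Polynomial.map_map, subtype_comp_kV, H.root]

theorem ph_f (hβ : aeval β f = 0) : ph w β (f.map (kV w)) = 0 := by
  rw [ph, coe_eval₂RingHom, eval₂_map, res_comp_kV]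
  exact hβ

theorem wd (H : Cst k E f θ) (hβ : aeval β f = 0) {p : w.V[X]} (h : ev w θ p = 0) :
    ph w β p = 0 := by
  have hm : (f.map (kV w)).Monic := H.monic.map _
  have h1 := modByMonic_add_div p (f.map (kV w))
  have h2 : ev w θ (p %ₘ f.map (kV w)) = 0 := by
    rw [← h1, map_add, map_mul, ev_f H, zero_mul, add_zero] at h
    exact h
  have h3 : (p %ₘ f.map (kV w)).map w.V.subtype = 0 := by
    refine H.min _ ?_ ?_
    · refine lt_of_le_of_lt degree_map_le ?_
      refine lt_of_lt_of_le (degree_modByMonic_lt _ hm) ?_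
      exact degree_map_le
    · rw [← ev_eq]
      exact h2
  have h4 : p %ₘ f.map (kV w) = 0 :=
    (map_injective _ w.V.subtype_injective) (by rw [h3, Polynomial.map_zero])
  rw [← h1, h4, zero_add, map_mul, ph_f hβ, zero_mul]

theorem wd' (H : Cst k E f θ) (hβ : aeval β f = 0) {p q : w.V[X]} (h : ev w θ p = ev w θ q) :
    ph w β p = ph w β q := by
  rw [← sub_eq_zero, ← map_sub]
  exact wd H hβ (by rw [map_sub, h, sub_self])

theorem isLocalHom_res (w : Place k E Ω) : IsLocalHom w.res := by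
  refine ⟨fun x hx => ?_⟩
  by_contra h
  rw [w.res_zero x h] at hx
  exact not_isUnit_zero hx

theorem res_eq_zero_iff (w : Place k E Ω) (x : w.V) : w.res x = 0 ↔ (x : E) ∈ w.V.nonunits := by
  rw [ValuationSubring.coe_mem_nonunits_iff, IsLocalRing.mem_maximalIdeal, mem_nonunits_iff]
  refine ⟨fun h hu => ?_, w.res_zero x⟩
  exact (hu.map w.res).ne_zero h

/-- The local step. -/
theorem step (H : Cst k E f θ) (hβ : aeval β f = 0) {π : E} (hπ0 : π ≠ 0)
    (hπ : ∀ x : E, x ∈ w.V.nonunits ↔ x / π ∈ w.V) {p : w.V[X]} (hp : ph w β p = 0) :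
    ∃ s r : w.V[X], ph w β s ≠ 0 ∧ ev w θ p * ev w θ s = algebraMap E M π * ev w θ r := by
  classical
  have := isLocalHom_res w
  let κ := IsLocalRing.ResidueField w.V
  let ρ : w.V →+* κ := IsLocalRing.residue w.V
  let ι : κ →+* Ω := IsLocalRing.ResidueField.lift w.res
  have hι : ι.comp ρ = w.res := IsLocalRing.ResidueField.lift_comp_residue _
  have hφ : ∀ q : w.V[X], eval₂ ι β (q.map ρ) = ph w β q := by
    intro q
    rw [eval₂_map, hι]
    rfl
  let f' : κ[X] := (f.map (kV w)).map ρ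
  let g' : κ[X] := EuclideanDomain.gcd f' (p.map ρ)
  have hf' : eval₂ ι β f' = 0 := by
    rw [hφ]
    exact ph_f hβ
  have hg' : eval₂ ι β g' = 0 := by
    have h1 : g' = f' * EuclideanDomain.gcdA f' (p.map ρ) +
      p.map ρ * EuclideanDomain.gcdB f' (p.map ρ) := EuclideanDomain.gcd_eq_gcd_ab _ _
    rw [h1, eval₂_add, eval₂_mul, eval₂_mul, hf', hφ, hp, zero_mul, zero_mul, add_zero]
  obtain ⟨h', hh'⟩ : g' ∣ f' := EuclideanDomain.gcd_dvd_left _ _
  obtain ⟨q', hq'⟩ : g' ∣ p.map ρ := EuclideanDomain.gcd_dvd_right _ _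
  have hsep : f'.Separable := (H.sep.map).map
  have hh0 : eval₂ ι β h' ≠ 0 := by
    intro h0
    obtain ⟨a, b, hab⟩ := hsep
    have h1 := congrArg (eval₂ ι β) hab
    rw [eval₂_add, eval₂_mul, eval₂_mul, hf', eval₂_one, mul_zero, zero_add, hh', derivative_mul,
      eval₂_add, eval₂_mul, eval₂_mul, hg', h0, mul_zero, zero_mul, add_zero, mul_zero] at h1
    exact zero_ne_one h1
  obtain ⟨s, hs⟩ := map_surjective ρ IsLocalRing.residue_surjective h'
  obtain ⟨q, hq⟩ := map_surjective ρ IsLocalRing.residue_surjective q'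
  have hπV : π ∈ w.V := by
    have h1 : π ∈ w.V.nonunits := by
      rw [hπ, div_self hπ0]
      exact w.V.one_mem
    exact w.V.nonunits_subset h1
  have hdvd : C (⟨π, hπV⟩ : w.V) ∣ p * s - q * f.map (kV w) := by
    rw [C_dvd_iff_dvd_coeff]
    intro i
    have h1 : (p * s - q * f.map (kV w)).map ρ = 0 := by
      rw [Polynomial.map_sub, Polynomial.map_mul, Polynomial.map_mul, hs, hq, hq']
      show g' * q' * h' - q' * f' = 0
      rw [hh']
      ring
    have h2 : ρ ((p * s - q * f.map (kV w)).coeff i) = 0 := by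
      rw [← coeff_map, h1, coeff_zero]
    have h3 := (IsLocalRing.residue_eq_zero_iff _).1 h2
    rw [← ValuationSubring.coe_mem_nonunits_iff, hπ] at h3
    refine ⟨⟨_, h3⟩, ?_⟩
    ext
    simp only [MulMemClass.coe_mul]
    field_simp
  obtain ⟨r, hr⟩ := hdvd
  refine ⟨s, r, ?_, ?_⟩
  · rw [← hφ, hs]
    exact hh0
  · have h1 : p * s = C (⟨π, hπV⟩ : w.V) * r + q * f.map (kV w) := by rw [← hr]; ring
    rw [← map_mul, h1, map_add, map_mul, map_mul, ev_f H, mul_zero, add_zero, ev_C]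

end defs

open scoped IntermediateField.algebraAdjoinAdjoin in
theorem alg_of_transc {k E : Type u} [Field k] [Field E] [Algebra k E] (hE : IsFunField k E)
    {π : E} (hπ : Transcendental k π) : Algebra.IsAlgebraic (Algebra.adjoin k {π}) E := by
  obtain ⟨t, ht, hfin⟩ := hE
  have h1 : Algebra.IsAlgebraic (Algebra.adjoin k {t}) E :=
    (IsFractionRing.comap_isAlgebraic_iff (A := Algebra.adjoin k {t})
      (K := IntermediateField.adjoin k {t}) (C := E)).2 inferInstance
  have h2 : Algebra.trdeg k E ≤ 1 := by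
    have := Algebra.IsAlgebraic.trdeg_le_cardinalMk k ({t} : Set E)
    simpa using this
  have h3 : AlgebraicIndependent k (fun _ : PUnit.{u + 1} => π) :=
    (algebraicIndependent_unique_type_iff).2 hπ
  have h4 := h3.isTranscendenceBasis_of_trdeg_le_of_finite (by simpa using h2)
  have h5 := h4.isAlgebraic
  rwa [Set.range_const] at h5

theorem fac_X' {R : Type*} [CommRing R] (p : R[X]) (hp : p ≠ 0) :
    ∃ (a : ℕ) (h : R[X]), h.coeff 0 ≠ 0 ∧ p = X ^ a * h := by
  obtain ⟨q, hq⟩ : X ^ p.natTrailingDegree ∣ p := by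
    rw [X_pow_dvd_iff]
    intro d hd
    exact coeff_eq_zero_of_lt_natTrailingDegree hd
  refine ⟨p.natTrailingDegree, q, fun h => ?_, hq⟩
  have h1 : p.coeff p.natTrailingDegree ≠ 0 := by
    have := mt trailingCoeff_eq_zero.1 hp
    exact this
  apply h1
  have h2 := congrArg (fun r : R[X] => r.coeff (0 + p.natTrailingDegree)) hq
  simp only [coeff_X_pow_mul, h] at h2
  simpa using h2

variable {k E Ω : Type u} [Field k] [Field E] [Field Ω] [Algebra k E] [Algebra k Ω]

theorem aeval_unif (w : Place k E Ω) {π : E} (hπ : π ∈ w.V.nonunits) (G : k[X]) :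
    aeval π G ∈ w.V ∧ (G.coeff 0 ≠ 0 → (aeval π G)⁻¹ ∈ w.V) := by
  have hπV : π ∈ w.V := w.V.nonunits_subset hπ
  have h1 : ((eval₂ (kV w) ⟨π, hπV⟩ G : w.V) : E) = aeval π G := by
    have := hom_eval₂ G (kV w) w.V.subtype ⟨π, hπV⟩
    rw [subtype_comp_kV] at this
    exact this
  have h2 : w.res (eval₂ (kV w) ⟨π, hπV⟩ G) = algebraMap k Ω (G.coeff 0) := by
    rw [hom_eval₂, res_comp_kV, (res_eq_zero_iff w ⟨π, hπV⟩).2 hπ, eval₂_at_zero]
  refine ⟨h1 ▸ (eval₂ (kV w) ⟨π, hπV⟩ G).2, fun hG => ?_⟩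
  by_contra h3
  have h4 : aeval π G ∈ w.V.nonunits := (ValuationSubring.mem_nonunits_iff_or _).2 (Or.inr h3)
  rw [← h1, ← res_eq_zero_iff, h2] at h4
  exact hG ((map_eq_zero _).1 h4)

theorem aeval_unif_ne (w : Place k E Ω) {π : E} (hπ : π ∈ w.V.nonunits) (G : k[X])
    (hG : G.coeff 0 ≠ 0) : aeval π G ≠ 0 := by
  have hπV : π ∈ w.V := w.V.nonunits_subset hπ
  intro h0
  have h1 : ((eval₂ (kV w) ⟨π, hπV⟩ G : w.V) : E) = aeval π G := by
    have := hom_eval₂ G (kV w) w.V.subtype ⟨π, hπV⟩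
    rw [subtype_comp_kV] at this
    exact this
  have h2 : w.res (eval₂ (kV w) ⟨π, hπV⟩ G) = algebraMap k Ω (G.coeff 0) := by
    rw [hom_eval₂, res_comp_kV, (res_eq_zero_iff w ⟨π, hπV⟩).2 hπ, eval₂_at_zero]
  have h3 : eval₂ (kV w) ⟨π, hπV⟩ G = 0 := by
    ext
    rw [h1, h0]
    rfl
  rw [h3, map_zero] at h2
  exact hG ((map_eq_zero _).1 h2.symm)

/-- The valuation ring of a place with a uniformizer is discrete. -/
theorem disc (hE : IsFunField k E) (w : Place k E Ω) {π : E} (hπ0 : π ≠ 0)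
    (hπ : ∀ x : E, x ∈ w.V.nonunits ↔ x / π ∈ w.V) {c : E} (hc : c ≠ 0) :
    ∃ n : ℕ, c / π ^ n ∉ w.V := by
  classical
  by_contra hcon
  push Not at hcon
  have hπn : π ∈ w.V.nonunits := by
    rw [hπ, div_self hπ0]
    exact w.V.one_mem
  have hπi : π⁻¹ ∉ w.V := ((ValuationSubring.mem_nonunits_iff_or _).1 hπn).resolve_left hπ0
  have key : ∀ G : k[X], G ≠ 0 → ∃ n : ℕ, ∃ v : E, v ∈ w.V ∧ v⁻¹ ∈ w.V ∧ v ≠ 0 ∧
      aeval π G = π ^ n * v := by
    intro G hG
    obtain ⟨n, G', hG', rfl⟩ := fac_X' G hG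
    have h1 := aeval_unif w hπn G'
    refine ⟨n, aeval π G', h1.1, h1.2 hG', fun h0 => ?_, by simp⟩
    exact aeval_unif_ne w hπn G' hG' h0
  have htr : Transcendental k π := by
    rintro ⟨G, hG, hG0⟩
    obtain ⟨n, v, -, -, hv0, hv⟩ := key G hG
    rw [hG0] at hv
    exact (mul_ne_zero (pow_ne_zero n hπ0) hv0) hv.symm
  obtain ⟨p, hp0, hpc⟩ := (alg_of_transc hE htr).isAlgebraic c
  obtain ⟨a, q, hq0, rfl⟩ := fac_X' p hp0
  have hq : aeval c q = 0 := by
    rw [map_mul, map_pow, aeval_X] at hpc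
    exact (mul_eq_zero.1 hpc).resolve_left (pow_ne_zero a hc)
  -- the elements of `k[π]` are in the valuation ring
  have hmem : ∀ y : Algebra.adjoin k {π}, (y : E) ∈ w.V := by
    intro y
    have h1 : (y : E) ∈ (aeval (R := k) π).range := by
      rw [← Algebra.adjoin_singleton_eq_range_aeval]
      exact y.2
    obtain ⟨G, hG⟩ := h1
    rw [← hG]
    exact (aeval_unif w hπn G).1
  have hcV : c ∈ w.V := by simpa using hcon 0
  have hpoly : ∀ q : (Algebra.adjoin k {π})[X], aeval c q ∈ w.V := by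
    intro q
    rw [aeval_eq_sum_range]
    refine w.V.toSubring.sum_mem fun i _ => ?_
    rw [Algebra.smul_def]
    exact w.V.mul_mem _ _ (hmem _) (w.V.toSubring.pow_mem hcV i)
  obtain ⟨G, hG⟩ : ∃ G : k[X], aeval π G = (q.coeff 0 : E) := by
    have h1 : ((q.coeff 0 : Algebra.adjoin k {π}) : E) ∈ (aeval (R := k) π).range := by
      rw [← Algebra.adjoin_singleton_eq_range_aeval]
      exact (q.coeff 0).2
    obtain ⟨G, hG⟩ := h1
    exact ⟨G, hG⟩
  have hG0 : G ≠ 0 := by
    rintro rfl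
    apply hq0
    ext
    rw [← hG]
    simp
  obtain ⟨n, v, hv1, hv2, hv0, hv⟩ := key G hG0
  have h1 : (q.coeff 0 : E) = - (aeval c q.divX * c) := by
    have h2 := congrArg (aeval c) (divX_mul_X_add q)
    rw [hq, map_add, map_mul, aeval_X, aeval_C] at h2
    have h3 : algebraMap (Algebra.adjoin k {π}) E (q.coeff 0) = (q.coeff 0 : E) := rfl
    rw [h3] at h2
    linear_combination h2
  have h4 : π⁻¹ = - (aeval c q.divX * (c / π ^ (n + 1))) * v⁻¹ := by
    have h5 : π ^ n * v = - (aeval c q.divX * c) := by rw [← hv, hG, h1]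
    field_simp
    linear_combination π * h5
  apply hπi
  rw [h4]
  exact w.V.mul_mem _ _ (w.V.neg_mem _ (w.V.mul_mem _ _ (hpoly _) (hcon (n + 1)))) hv2

end Fa
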