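import Pool.Agent.Lib.MP_f80667_ag.ZC.Tr

/-!
Orbits: an invariant finitely supported function is a combination of sums over orbits; the field of
definition of a point of projective space over an algebraic extension of a field.
-/

open scoped LinearAlgebra.Projectivization

namespace ZC

universe u

/-- An invariant cycle lies in every subgroup which contains the orbit sums of the points of its
support. -/
theorem mem_of_orbits {Y G : Type*} (act : G → Y → Y) (O : Y → Finset Y) (h1 : ∀ y, y ∈ O y)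
    (h2 : ∀ y, ∀ y' ∈ O y, ∃ σ, act σ y = y') (h3 : ∀ y y' σ, act σ y' ∈ O y ↔ y' ∈ O y)
    (S : AddSubgroup (Y →₀ ℤ)) (z : Y →₀ ℤ) (hz : ∀ σ y, z (act σ y) = z y)
    (hS : ∀ y ∈ z.support, (∑ y' ∈ O y, Finsupp.single y' (1 : ℤ)) ∈ S) : z ∈ S := by
  classical
  have hev : ∀ y x, (∑ y' ∈ O y, Finsupp.single y' (1 : ℤ)) x = if x ∈ O y then 1 else 0 := by
    intro y x
    rw [Finsupp.finsetSum_apply]
    simp [Finsupp.single_apply]
  obtain ⟨m, hm⟩ : ∃ m, z.support.card ≤ m := ⟨_, le_rfl⟩
  induction m generalizing z with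
  | zero =>
    have h0 : z.support = ∅ := Finset.card_eq_zero.1 (Nat.le_zero.1 hm)
    rw [Finsupp.support_eq_empty.1 h0]
    exact S.zero_mem
  | succ m ih =>
    by_cases hz0 : z = 0
    · rw [hz0]; exact S.zero_mem
    · obtain ⟨y, hy⟩ : ∃ y, y ∈ z.support := by
        by_contra hcon
        push Not at hcon
        exact hz0 (Finsupp.support_eq_empty.1 (Finset.eq_empty_of_forall_notMem hcon))
      set T : Y →₀ ℤ := ∑ y' ∈ O y, Finsupp.single y' (1 : ℤ) with hT
      have hTS : T ∈ S := hS y hy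
      have hzy : ∀ y' ∈ O y, z y' = z y := by
        intro y' hy'
        obtain ⟨σ, hσ⟩ := h2 y y' hy'
        rw [← hσ, hz]
      have hev' : ∀ x, (z - z y • T) x = if x ∈ O y then 0 else z x := by
        intro x
        rw [Finsupp.sub_apply, Finsupp.smul_apply, hev]
        by_cases hx : x ∈ O y
        · simp [hx, hzy x hx]
        · simp [hx]
      have hsup : (z - z y • T).support ⊆ z.support.erase y := by
        intro x hx
        rw [Finsupp.mem_support_iff, hev'] at hx
        have hxO : x ∉ O y := fun h => hx (by simp [h])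
        rw [Finset.mem_erase, Finsupp.mem_support_iff]
        refine ⟨fun h => hxO (h ▸ h1 y), ?_⟩
        simpa [hxO] using hx
      have hin : z - z y • T ∈ S := by
        apply ih
        · intro σ x
          rw [hev', hev', hz]
          simp only [h3]
        · intro x hx
          exact hS x (Finset.mem_of_mem_erase (hsup hx))
        · have := Finset.card_le_card hsup
          rw [Finset.card_erase_of_mem hy] at this
          omega
      have := S.add_mem hin (S.zsmul_mem hTS (z y))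
      simpa using this

section field

variable {k Ω : Type u} [Field k] [Field Ω] [Algebra k Ω] {n : ℕ}

/-- The coordinates of a point generate a field of definition. -/
theorem exists_field [Algebra.IsAlgebraic k Ω] (x : ℙ Ω (Fin n → Ω)) :
    ∃ (M : IntermediateField k Ω) (_ : FiniteDimensional k M) (P : ℙ M (Fin n → M)),
      mapPt (algebraMap M Ω) P = x ∧
      ∀ (F : Type u) [Field F] [Algebra k F] (σ τ : M →ₐ[k] F),
        mapPt (σ : M →+* F) P = mapPt (τ : M →+* F) P → σ = τ := by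
  classical
  obtain ⟨i, hi⟩ : ∃ i, x.rep i ≠ 0 := by
    by_contra hcon
    push Not at hcon
    exact x.rep_nonzero (funext hcon)
  set S : Set Ω := Set.range (fun j => x.rep j / x.rep i) with hS
  set M : IntermediateField k Ω := IntermediateField.adjoin k S with hM
  have hfin : FiniteDimensional k M := by
    have : Finite S := Set.finite_range _
    exact IntermediateField.finiteDimensional_adjoin
      (fun a _ => (Algebra.IsAlgebraic.isAlgebraic a).isIntegral)
  have hmem : ∀ j, x.rep j / x.rep i ∈ M := fun j =>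
    IntermediateField.subset_adjoin k S ⟨j, rfl⟩
  let v : Fin n → M := fun j => ⟨x.rep j / x.rep i, hmem j⟩
  have hvi : v i = 1 := Subtype.ext (div_self hi)
  have hv : v ≠ 0 := fun h => by
    have := congrFun h i
    rw [hvi] at this
    exact one_ne_zero this
  refine ⟨M, hfin, Projectivization.mk M v hv, ?_, ?_⟩
  · rw [ZCTr.mapPt_mk]
    conv_rhs => rw [← x.mk_rep]
    rw [Projectivization.mk_eq_mk_iff']
    refine ⟨(x.rep i)⁻¹, ?_⟩
    funext j
    change (x.rep i)⁻¹ * x.rep j = x.rep j / x.rep i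
    field_simp
  · intro F _ _ σ τ h
    rw [ZCTr.mapPt_mk, ZCTr.mapPt_mk, Projectivization.mk_eq_mk_iff'] at h
    obtain ⟨a, ha⟩ := h
    have ha1 : a = 1 := by
      have := congrFun ha i
      simpa [hvi] using this
    have hj : ∀ j, τ (v j) = σ (v j) := by
      intro j
      have := congrFun ha j
      simpa [ha1] using this
    refine IntermediateField.algHom_ext_of_eq_adjoin (F := k) (E := Ω) (K := F) hM ?_
    intro s hs
    obtain ⟨j, rfl⟩ := hs
    exact (hj j).symm

/-- Every embedding of a subfield of an algebraic closure is induced by an automorphism. -/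
theorem exists_aut [Algebra.IsAlgebraic k Ω] [IsAlgClosed Ω] (M : IntermediateField k Ω)
    (σ : M →ₐ[k] Ω) : ∃ τ : Ω ≃ₐ[k] Ω, ∀ x : M, τ x = σ x := by
  have : Algebra.IsAlgebraic M Ω := Algebra.IsAlgebraic.tower_top (K := k) M
  obtain ⟨φ, hφ⟩ := IsAlgClosed.surjective_domRestrict_of_isAlgebraic (K := k) (L := M) (M := Ω)
    (E := Ω) σ
  refine ⟨(Algebra.IsAlgebraic.algEquivEquivAlgHom k Ω).symm φ, fun x => ?_⟩
  have := DFunLike.congr_fun hφ x
  rw [← this]
  rfl

/-- A zero-cycle over `k` lies in every subgroup which contains the traces of the points of its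
support, each over its field of definition. -/
theorem cyc_mem_of_tr [Algebra.IsAlgebraic k Ω] [IsAlgClosed Ω]
    (S : AddSubgroup (ℙ Ω (Fin n → Ω) →₀ ℤ)) (z : ℙ Ω (Fin n → Ω) →₀ ℤ)
    (hz : ∀ (σ : Ω ≃ₐ[k] Ω) (x : ℙ Ω (Fin n → Ω)), z (mapPt (σ : Ω →+* Ω) x) = z x)
    (hS : ∀ (M : IntermediateField k Ω) (_ : FiniteDimensional k M) (P : ℙ M (Fin n → M)),
      mapPt (algebraMap M Ω) P ∈ z.support →
      (∀ σ τ : M →ₐ[k] Ω, mapPt (σ : M →+* Ω) P = mapPt (τ : M →+* Ω) P → σ = τ) →
      ZCTr.tr k Ω P ∈ S) : z ∈ S := by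
  classical
  choose M hM P hP hinj using fun x : ℙ Ω (Fin n → Ω) => exists_field (k := k) x
  have hinj' : ∀ x, Function.Injective (fun σ : M x →ₐ[k] Ω => mapPt (σ : M x →+* Ω) (P x)) :=
    fun x σ τ h => hinj x Ω σ τ h
  let O : ℙ Ω (Fin n → Ω) → Finset (ℙ Ω (Fin n → Ω)) := fun x =>
    Finset.univ.image (fun σ : M x →ₐ[k] Ω => mapPt (σ : M x →+* Ω) (P x))
  have hO : ∀ x y, y ∈ O x ↔ ∃ σ : M x →ₐ[k] Ω, mapPt (σ : M x →+* Ω) (P x) = y := by
    intro x y
    simp [O]
  have hval : ∀ x, mapPt ((M x).val : M x →+* Ω) (P x) = x := fun x => hP x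
  refine mem_of_orbits (G := Ω ≃ₐ[k] Ω) (fun σ x => mapPt (σ : Ω →+* Ω) x) O ?_ ?_ ?_ S z hz ?_
  · intro x
    rw [hO]
    exact ⟨(M x).val, hval x⟩
  · intro x y hy
    obtain ⟨σ, hσ⟩ := (hO x y).1 hy
    obtain ⟨τ, hτ⟩ := exists_aut (M x) σ
    refine ⟨τ, ?_⟩
    rw [← hσ]
    conv_lhs => rw [← hval x]
    rw [ZCTr.mapPt_comp]
    congr 1
    ext a
    exact hτ a
  · intro x y τ
    rw [hO, hO]
    constructor
    · rintro ⟨σ, hσ⟩
      refine ⟨(τ.symm : Ω →ₐ[k] Ω).comp σ, ?_⟩
      rw [ZCTr.mapPt_comp_alg, hσ]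
      rw [ZCTr.mapPt_comp]
      conv_rhs => rw [← ZCTr.mapPt_id y]
      congr 1
      ext a
      simp
    · rintro ⟨σ, hσ⟩
      refine ⟨(τ : Ω →ₐ[k] Ω).comp σ, ?_⟩
      rw [ZCTr.mapPt_comp_alg, hσ]
  · intro x hx
    have h1 := hS (M x) (hM x) (P x) (by rw [hP]; exact hx) (fun σ τ h => hinj x Ω σ τ h)
    have h2 : (∑ y' ∈ O x, Finsupp.single y' (1 : ℤ)) = ZCTr.tr k Ω (P x) := by
      rw [ZCTr.tr, ZCTr.trG, Finset.sum_image (fun σ _ τ _ h => hinj' x h)]
    rw [h2]
    exact h1

end field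

end ZC
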