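import Pool.Agent.Lib.MP_f80667_ag.Fa.Quo
import Pool.Agent.Lib.MP_f80667_ag.ZC.Arch

/-!
The archimedean places for a family: if the Galois group of `Ω/k` is finite and acts freely on the
points of the base, all zero-cycles are norms.
-/

open scoped LinearAlgebra.Projectivization
open MvPolynomial

namespace ZC

universe u

/-- An invariant cycle on a set with a free action of a finite group is a sum of norms. -/
theorem mem_of_norms {Y G : Type*} [Group G] [Finite G] (act : G → Y → Y)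
    (hone : ∀ y, act 1 y = y) (hmul : ∀ σ τ y, act (σ * τ) y = act σ (act τ y))
    (S : AddSubgroup (Y →₀ ℤ)) (z : Y →₀ ℤ) (hz : ∀ σ y, z (act σ y) = z y)
    (hfree : ∀ y ∈ z.support, ∀ σ τ, act σ y = act τ y → σ = τ)
    (hS : ∀ y ∈ z.support, (∑ᶠ σ : G, Finsupp.single (act σ y) (1 : ℤ)) ∈ S) : z ∈ S := by
  classical
  have := Fintype.ofFinite G
  refine mem_of_orbits act (fun y => Finset.univ.image fun σ => act σ y) ?_ ?_ ?_ S z hz ?_
  · intro y
    exact Finset.mem_image.2 ⟨1, Finset.mem_univ _, hone y⟩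
  · intro y y' hy'
    obtain ⟨σ, _, hσ⟩ := Finset.mem_image.1 hy'
    exact ⟨σ, hσ⟩
  · intro y y' σ
    simp only [Finset.mem_image, Finset.mem_univ, true_and]
    constructor
    · rintro ⟨τ, hτ⟩
      refine ⟨σ⁻¹ * τ, ?_⟩
      rw [hmul, hτ, ← hmul, inv_mul_cancel, hone]
    · rintro ⟨τ, rfl⟩
      exact ⟨σ * τ, hmul σ τ y⟩
  · intro y hy
    have h1 := hS y hy
    rw [finsum_eq_sum_of_fintype] at h1
    rwa [Finset.sum_image (fun σ _ τ _ h => hfree y hy σ τ h)]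

section arch

variable {k Ω : Type u} [Field k] [Field Ω] [Algebra k Ω] {N n r : ℕ} {κ : Type}
  {h : κ → MvPolynomial (Fin N) k} {A : Fin r → Matrix (Fin n) (Fin n) (MvPolynomial (Fin N) k)}

theorem F1bar_free [Finite (Ω ≃ₐ[k] Ω)]
    (hfree : ∀ w : ℙ Ω (Fin N → Ω), Zer h Ω w.rep → ∀ σ τ : Ω ≃ₐ[k] Ω,
      mapPt (σ : Ω →+* Ω) w = mapPt (τ : Ω →+* Ω) w → σ = τ) : Subsingleton (F1bar Ω h) := by
  rw [QuotientAddGroup.subsingleton_iff, AddSubgroup.addSubgroupOf_eq_top]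
  intro z hz
  have hzc := (AddSubgroup.mem_inf.1 hz).1
  refine AddSubgroup.mem_sup_right ?_
  refine mem_of_norms (G := Ω ≃ₐ[k] Ω) (fun σ x => mapPt (σ : Ω →+* Ω) x) ?_ ?_ _ z hzc.2 ?_ ?_
  · intro y
    exact mapPt_id y
  · intro σ τ y
    rw [mapPt_comp]
    rfl
  · intro y hy
    exact hfree y (hzc.1 y hy)
  · intro y hy
    exact AddSubgroup.subset_closure ⟨y, hzc.1 y hy, rfl⟩

theorem F1bar2_free [Finite (Ω ≃ₐ[k] Ω)]
    (hfree : ∀ w : ℙ Ω (Fin N → Ω), Zer h Ω w.rep → ∀ σ τ : Ω ≃ₐ[k] Ω,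
      mapPt (σ : Ω →+* Ω) w = mapPt (τ : Ω →+* Ω) w → σ = τ) : Subsingleton (F1bar2 Ω h A) := by
  rw [QuotientAddGroup.subsingleton_iff, AddSubgroup.addSubgroupOf_eq_top]
  intro z hz
  have hzc := (AddSubgroup.mem_inf.1 hz).1
  refine AddSubgroup.mem_sup_right ?_
  refine mem_of_norms (G := Ω ≃ₐ[k] Ω) (fun σ x => mapPt2 (σ : Ω →+* Ω) x) ?_ ?_ _ z hzc.2 ?_ ?_
  · intro y
    exact Prod.ext (mapPt_id y.1) (mapPt_id y.2)
  · intro σ τ y
    refine Prod.ext ?_ ?_
    · change mapPt _ _ = mapPt _ (mapPt _ _)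
      rw [mapPt_comp]
      rfl
    · change mapPt _ _ = mapPt _ (mapPt _ _)
      rw [mapPt_comp]
      rfl
  · intro y hy σ τ h1
    exact hfree y.1 (hzc.1 y hy).1 σ τ (congrArg Prod.fst h1)
  · intro y hy
    exact AddSubgroup.subset_closure ⟨y, hzc.1 y hy, rfl⟩

/-- Over a field isomorphic to `ℝ` without points of the base. -/
theorem free_real [IsAlgClosure k Ω] (hh : ∀ j, ∃ d, (h j).IsHomogeneous d) (e : k ≃+* ℝ)
    (hno : ∀ w : Fin N → k, Zer h k w → w = 0) (w : ℙ Ω (Fin N → Ω)) (hw : Zer h Ω w.rep)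
    (σ τ : Ω ≃ₐ[k] Ω) (hst : mapPt (σ : Ω →+* Ω) w = mapPt (τ : Ω →+* Ω) w) : σ = τ := by
  have : Algebra.IsAlgebraic k Ω := IsAlgClosure.isAlgebraic
  have h2 : Module.finrank k Ω = 2 := finrank_two k Ω e
  have hfd : FiniteDimensional k Ω := Module.finite_of_finrank_pos (by omega)
  obtain ⟨M, hM, P, hP, hinj⟩ := exists_field (k := k) w
  have h1 := Module.finrank_mul_finrank k M Ω
  rw [h2] at h1
  have h3 : Module.finrank k M ∣ 2 := ⟨_, h1.symm⟩
  rcases (Nat.dvd_prime Nat.prime_two).1 h3 with h4 | h4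
  · exfalso
    have h5 : M = ⊥ := IntermediateField.finrank_eq_one_iff.1 h4
    subst h5
    have hZ : Zer h (⊥ : IntermediateField k Ω) P.rep := by
      have h6 := zer_mapPt_iff hh (⊥ : IntermediateField k Ω).val P
      apply h6.1
      have h7 : mapPt (((⊥ : IntermediateField k Ω).val : (⊥ : IntermediateField k Ω) →ₐ[k] Ω) :
          (⊥ : IntermediateField k Ω) →+* Ω) P = w := hP
      rw [h7]
      exact hw
    have h8 := hZ.map ((IntermediateField.botEquiv k Ω : _ ≃ₐ[k] k) :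
      (⊥ : IntermediateField k Ω) →ₐ[k] k)
    exact comp_ne (((IntermediateField.botEquiv k Ω : _ ≃ₐ[k] k) :
      (⊥ : IntermediateField k Ω) →ₐ[k] k) : (⊥ : IntermediateField k Ω) →+* k)
      P.rep_nonzero (hno _ h8)
  · rw [h4] at h1
    have h5 : Module.finrank M Ω = 1 := by omega
    have h6 : M = ⊤ := IntermediateField.finrank_eq_one_iff_eq_top.1 h5
    have h7 := hinj Ω ((σ : Ω →ₐ[k] Ω).comp M.val) ((τ : Ω →ₐ[k] Ω).comp M.val) (by
      have e1 : ∀ ρ : Ω ≃ₐ[k] Ω, mapPt ((((ρ : Ω →ₐ[k] Ω).comp M.val : M →ₐ[k] Ω)) : M →+* Ω) P =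
          mapPt (ρ : Ω →+* Ω) w := by
        intro ρ
        rw [← hP, mapPt_comp]
        rfl
      rw [e1, e1, hst])
    ext x
    have hx : x ∈ M := by rw [h6]; trivial
    exact DFunLike.congr_fun h7 ⟨x, hx⟩

theorem finite_real [IsAlgClosure k Ω] (e : k ≃+* ℝ) : Finite (Ω ≃ₐ[k] Ω) := by
  have h2 : Module.finrank k Ω = 2 := finrank_two k Ω e
  have hfd : FiniteDimensional k Ω := Module.finite_of_finrank_pos (by omega)
  infer_instance

/-- Over an algebraically closed field there is only the trivial automorphism. -/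
theorem subsingleton_complex [IsAlgClosure k Ω] [IsAlgClosed k] : Subsingleton (Ω ≃ₐ[k] Ω) := by
  have : Algebra.IsAlgebraic k Ω := IsAlgClosure.isAlgebraic
  have hb : Function.Bijective (algebraMap k Ω) := IsAlgClosed.algebraMap_bijective_of_isIntegral
  refine ⟨fun σ τ => ?_⟩
  ext x
  obtain ⟨a, rfl⟩ := hb.2 x
  rw [σ.commutes, τ.commutes]

end arch

end ZC
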