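import Pool.Agent.Lib.MP_f80667_ag.Fa.Push
import Pool.Agent.Lib.MP_f80667_ag.ZC.Conic
import Pool.Agent.Lib.MP_f80667_ag.ZC.Tr

/-!
Two points of the same fibre of a family of intersections of quadrics, over the same point of the
base, have rationally equivalent traces.
-/

open Polynomial
open scoped LinearAlgebra.Projectivization

namespace ZC

universe u

section rel

variable {k M Ω : Type u} [Field k] [Field M] [Field Ω] [Algebra k Ω]
  [Algebra k M] [FiniteDimensional k M] {n N r : ℕ} {κ : Type}

/-- A curve in the fibre over a point of the base which does not move. -/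
theorem rel2_gen (h : κ → MvPolynomial (Fin N) k)
    (A : Fin r → Matrix (Fin n) (Fin n) (MvPolynomial (Fin N) k)) (y : Fin N → M) (hy : y ≠ 0)
    (a c : Fin n → M) (ha : a ≠ 0) (hc : c ≠ 0)
    (P P' : Fin n → M[X]) (d : ℕ) (hP0 : (fun j => (P j).eval 0) = a)
    (hP0' : (fun j => (P' j).eval 0) = c)
    (hPP : ∀ j, aeval (RatFunc.X : RatFunc M) (P j) =
      RatFunc.X ^ d * aeval (RatFunc.X : RatFunc M)⁻¹ (P' j))
    (hz : Zer2 h A M[X] (fun j => Polynomial.C (y j)) P) :
    ZCTr.tr2 k Ω (Projectivization.mk M y hy) (Projectivization.mk M a ha) -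
      ZCTr.tr2 k Ω (Projectivization.mk M y hy) (Projectivization.mk M c hc) ∈ ratEq2 Ω h A := by
  classical
  have H := gen_X M
  have H' := H.inv
  have hX : (RatFunc.X : RatFunc M) ≠ 0 := H.ne_zero
  set p : Fin n → RatFunc M := fun j => aeval (RatFunc.X : RatFunc M) (P j) with hp
  set q : Fin N → RatFunc M := fun j => algebraMap M (RatFunc M) (y j) with hq
  have hpp' : p = fun j => (RatFunc.X : RatFunc M) ^ d * aeval (RatFunc.X : RatFunc M)⁻¹ (P' j) :=
    funext hPP
  have hval0 : ∀ ι : M →ₐ[k] Ω, (H.place ι).IsVal p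
      (mapPt (ι : M →+* Ω) (Projectivization.mk M a ha)) := by
    intro ι
    have h := H.place_val ι P (by rw [hP0]; exact ha) 1 one_ne_zero
    simp only [one_mul] at h
    convert h using 3
    exact hP0.symm
  have hval1 : ∀ ι : M →ₐ[k] Ω, (H'.place ι).IsVal p
      (mapPt (ι : M →+* Ω) (Projectivization.mk M c hc)) := by
    intro ι
    have h := H'.place_val ι P' (by rw [hP0']; exact hc) (RatFunc.X ^ d) (pow_ne_zero _ hX)
    rw [hpp']
    convert h using 3
    exact hP0'.symm
  have hC0 : (fun j => ((fun j => Polynomial.C (y j)) j : M[X]).eval 0) = y := by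
    funext j
    simp
  have hqval0 : ∀ ι : M →ₐ[k] Ω, (H.place ι).IsVal q
      (mapPt (ι : M →+* Ω) (Projectivization.mk M y hy)) := by
    intro ι
    have h := H.place_val ι (fun j => Polynomial.C (y j)) (by rw [hC0]; exact hy) 1 one_ne_zero
    simp only [one_mul, aeval_C] at h
    convert h using 3
    exact hC0.symm
  have hqval1 : ∀ ι : M →ₐ[k] Ω, (H'.place ι).IsVal q
      (mapPt (ι : M →+* Ω) (Projectivization.mk M y hy)) := by
    intro ι
    have h := H'.place_val ι (fun j => Polynomial.C (y j)) (by rw [hC0]; exact hy) 1 one_ne_zero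
    simp only [one_mul, aeval_C] at h
    convert h using 3
    exact hC0.symm
  have hqne : q ≠ 0 := fun h0 => hy (funext fun j => by
    have := congrFun h0 j
    exact (map_eq_zero (algebraMap M (RatFunc M))).1 this)
  have hpne : p ≠ 0 := by
    intro h
    apply ha
    rw [← hP0]
    funext j
    have h1 : P j = 0 := by
      by_contra hcon
      exact H.ne hcon (congrFun h j)
    rw [h1]
    simp
  apply AddSubgroup.subset_closure
  refine ⟨RatFunc M, inferInstance, inferInstance, isFunField_ratFunc k M, RatFunc.X, q, p, hX,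
    hqne, hpne, ?_, ?_⟩
  · have h1 := hz.map (IsScalarTower.toAlgHom k M[X] (RatFunc M))
    have e1 : (fun i => IsScalarTower.toAlgHom k M[X] (RatFunc M) (Polynomial.C (y i))) = q := by
      funext j
      exact (IsScalarTower.algebraMap_apply M M[X] (RatFunc M) (y j)).symm
    have e2 : (fun i => IsScalarTower.toAlgHom k M[X] (RatFunc M) (P i)) = p := by
      funext j
      simp [hp, RatFunc.aeval_X_left_eq_algebraMap]
    rwa [e1, e2] at h1
  · have hinj0 : Function.Injective (fun ι : M →ₐ[k] Ω => H.place ι) := by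
      intro a b hab
      have := congrArg (fun w => Place.emb (M := M) w) hab
      simpa [H.place_emb] using this
    have hinj1 : Function.Injective (fun ι : M →ₐ[k] Ω => H'.place ι) := by
      intro a b hab
      have := congrArg (fun w => Place.emb (M := M) w) hab
      simpa [H'.place_emb] using this
    have hn0 : ∀ ι : M →ₐ[k] Ω, (RatFunc.X : RatFunc M) ∈ (H.place ι).V.nonunits :=
      fun ι => H.place_mem_nonunits ι
    have hn1 : ∀ ι : M →ₐ[k] Ω, (RatFunc.X : RatFunc M) ∉ (H'.place ι).V.nonunits := by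
      intro ι h
      have h1 := H'.place_mem_nonunits ι
      rw [ValuationSubring.inv_mem_nonunits_iff] at h1
      rcases h1 with h1 | h1
      · exact hX h1
      · exact h1 ((H'.place ι).V.nonunits_le h)
    refine ⟨Finset.univ.image (fun ι : M →ₐ[k] Ω => H.place ι) ∪
      Finset.univ.image (fun ι : M →ₐ[k] Ω => H'.place ι),
      fun w => if (RatFunc.X : RatFunc M) ∈ w.V.nonunits then 1 else -1,
      fun w => if (RatFunc.X : RatFunc M) ∈ w.V.nonunits then
        (mapPt (w.emb (M := M) : M →+* Ω) (Projectivization.mk M y hy),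
          mapPt (w.emb (M := M) : M →+* Ω) (Projectivization.mk M a ha)) else
        (mapPt (w.emb (M := M) : M →+* Ω) (Projectivization.mk M y hy),
          mapPt (w.emb (M := M) : M →+* Ω) (Projectivization.mk M c hc)), ?_, ?_, ?_⟩
    · intro w hw
      simp only [Finset.mem_union, Finset.mem_image, Finset.mem_univ, true_and, not_or,
        not_exists] at hw
      constructor
      · by_contra hcon
        have h1 : (RatFunc.X : RatFunc M)⁻¹ ∈ w.V.nonunits := by
          rw [ValuationSubring.inv_mem_nonunits_iff]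
          exact Or.inr hcon
        exact hw.2 _ (H'.eq_place w h1).symm
      · by_contra hcon
        have h1 : (RatFunc.X : RatFunc M) ∈ w.V.nonunits := by
          rw [ValuationSubring.mem_nonunits_iff_or]
          exact Or.inr hcon
        exact hw.1 _ (H.eq_place w h1).symm
    · intro w hw
      simp only [Finset.mem_union, Finset.mem_image, Finset.mem_univ, true_and] at hw
      rcases hw with ⟨ι, rfl⟩ | ⟨ι, rfl⟩
      · beta_reduce
        rw [if_pos (hn0 ι), if_pos (hn0 ι), H.place_emb]
        exact ⟨H.place_ord ι, hqval0 ι, hval0 ι⟩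
      · beta_reduce
        rw [if_neg (hn1 ι), if_neg (hn1 ι), H'.place_emb]
        refine ⟨?_, hqval1 ι, hval1 ι⟩
        have := H'.place_ord_inv ι
        rwa [inv_inv] at this
    · rw [Finset.sum_union, Finset.sum_image (fun a _ b _ h => hinj0 h),
        Finset.sum_image (fun a _ b _ h => hinj1 h), ZCTr.tr2, ZCTr.tr2, ZCTr.trG, ZCTr.trG,
        sub_eq_add_neg, ← Finset.sum_neg_distrib]
      · congr 1
        · apply Finset.sum_congr rfl
          intro ι _
          beta_reduce
          rw [if_pos (hn0 ι), if_pos (hn0 ι), H.place_emb]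
        · apply Finset.sum_congr rfl
          intro ι _
          beta_reduce
          rw [if_neg (hn1 ι), if_neg (hn1 ι), H'.place_emb, Finsupp.single_neg]
      · rw [Finset.disjoint_left]
        intro w h1 h2
        simp only [Finset.mem_image, Finset.mem_univ, true_and] at h1 h2
        obtain ⟨ι, rfl⟩ := h1
        obtain ⟨ι', h'⟩ := h2
        apply hn1 ι'
        rw [h']
        exact hn0 ι

/-- The equations of a conic in the fibre over a point of the base which does not move. -/
theorem rel2 (h : κ → MvPolynomial (Fin N) k)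
    (A : Fin r → Matrix (Fin n) (Fin n) (MvPolynomial (Fin N) k)) (y : Fin N → M) (hy : y ≠ 0)
    (a b c : Fin n → M) (ha : a ≠ 0) (hc : c ≠ 0) (hw : Zer h M y)
    (hz : ∀ i, qv ((A i).map (MvPolynomial.aeval y)) a = 0 ∧
      bv ((A i).map (MvPolynomial.aeval y)) a b = 0 ∧
      qv ((A i).map (MvPolynomial.aeval y)) b + bv ((A i).map (MvPolynomial.aeval y)) a c = 0 ∧
      bv ((A i).map (MvPolynomial.aeval y)) b c = 0 ∧
      qv ((A i).map (MvPolynomial.aeval y)) c = 0) :
    ZCTr.tr2 k Ω (Projectivization.mk M y hy) (Projectivization.mk M a ha) -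
      ZCTr.tr2 k Ω (Projectivization.mk M y hy) (Projectivization.mk M c hc) ∈ ratEq2 Ω h A := by
  have hX : (RatFunc.X : RatFunc M) ≠ 0 := (gen_X M).ne_zero
  refine rel2_gen h A y hy a c ha hc (fun j => Polynomial.C (a j) + X * Polynomial.C (b j) +
      X ^ 2 * Polynomial.C (c j)) (fun j => Polynomial.C (c j) + X * Polynomial.C (b j) +
      X ^ 2 * Polynomial.C (a j)) 2 (by funext j; simp) (by funext j; simp) ?_ ?_
  · intro j
    simp only [map_add, map_mul, map_pow, aeval_X, aeval_C]
    field_simp
    ring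
  · refine ⟨hw.map (IsScalarTower.toAlgHom k M M[X]), fun i => ?_⟩
    obtain ⟨h1, h2, h3, h4, h5⟩ := hz i
    have h6 := qv_curve ((A i).map (MvPolynomial.aeval y)) a b c h1 h2 h3 h4 h5
    rw [qv] at h6
    rw [← h6]
    simp only [dotProduct, Matrix.mulVec, Finset.mul_sum, Matrix.map_apply]
    apply Finset.sum_congr rfl; intro i' _
    apply Finset.sum_congr rfl; intro j' _
    have h7 : MvPolynomial.aeval (fun j => Polynomial.C (y j)) (A i i' j') =
        algebraMap M M[X] (MvPolynomial.aeval y (A i i' j')) :=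
      (MvPolynomial.aeval_algebraMap_apply M[X] y (A i i' j'))
    rw [h7]
    ring

/-- Two points over `M` of the fibre over the same point of the base have rationally equivalent
traces. -/
theorem join2 {s : ℕ} (h : κ → MvPolynomial (Fin N) k)
    (A : Fin (s + 1) → Matrix (Fin n) (Fin n) (MvPolynomial (Fin N) k))
    (hn : 6 * s + 3 ≤ n) (hM : Iso M s) (y : Fin N → M) (hy : y ≠ 0) (P Q : Fin n → M)
    (hP : P ≠ 0) (hQ : Q ≠ 0) (zP : Zer2 h A M y P) (zQ : Zer2 h A M y Q) :
    ZCTr.tr2 k Ω (Projectivization.mk M y hy) (Projectivization.mk M P hP) -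
      ZCTr.tr2 k Ω (Projectivization.mk M y hy) (Projectivization.mk M Q hQ) ∈ ratEq2 Ω h A := by
  set B : Fin (s + 1) → Matrix (Fin n) (Fin n) M := fun i => (A i).map (MvPolynomial.aeval y)
    with hB
  have hBm : ∀ i, (B i).map (algebraMap M M) = B i := by
    intro i
    ext a b
    simp
  have qP : ∀ i, qv (B i) P = 0 := fun i => by
    rw [qv_eq_dot, hBm]; exact zP.2 i
  have qQ : ∀ i, qv (B i) Q = 0 := fun i => by
    rw [qv_eq_dot, hBm]; exact zQ.2 i
  have qz : ∀ i, qv (B i) (0 : Fin n → M) = 0 := by intro i; simp [qv]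
  have bz : ∀ i (y : Fin n → M), bv (B i) (0 : Fin n → M) y = 0 := by intro i y; simp [bv]
  have bz' : ∀ i (y : Fin n → M), bv (B i) y (0 : Fin n → M) = 0 := by intro i y; simp [bv]
  by_cases hβ : ∀ i, bv (B i) P Q = 0
  · apply rel2 h A y hy P 0 Q hP hQ zP.1
    intro i
    exact ⟨qP i, bz' i P, by rw [qz, hβ, add_zero], bz i Q, qQ i⟩
  · push Not at hβ
    obtain ⟨i0, hi0⟩ := hβ
    obtain ⟨R, hR, hPR, hRQ, c, hc⟩ := exists_mem_polar B hn hM P Q
      (fun i => bv (B i) P Q) i0 hi0
    by_cases hc0 : c = 0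
    · have qR : ∀ i, qv (B i) R = 0 := by intro i; rw [hc, hc0, zero_mul]
      have h1 : ZCTr.tr2 k Ω (Projectivization.mk M y hy) (Projectivization.mk M P hP) -
          ZCTr.tr2 k Ω (Projectivization.mk M y hy) (Projectivization.mk M R hR) ∈
          ratEq2 Ω h A := by
        apply rel2 h A y hy P 0 R hP hR zP.1
        intro i
        exact ⟨qP i, bz' i P, by rw [qz, hPR, add_zero], bz i R, qR i⟩
      have h2 : ZCTr.tr2 k Ω (Projectivization.mk M y hy) (Projectivization.mk M R hR) -
          ZCTr.tr2 k Ω (Projectivization.mk M y hy) (Projectivization.mk M Q hQ) ∈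
          ratEq2 Ω h A := by
        apply rel2 h A y hy R 0 Q hR hQ zP.1
        intro i
        exact ⟨qR i, bz' i R, by rw [qz, hRQ, add_zero], bz i Q, qQ i⟩
      have h3 := add_mem h1 h2
      rwa [sub_add_sub_cancel] at h3
    · have hcQ : (-c) • Q ≠ 0 := smul_ne_zero (neg_ne_zero.2 hc0) hQ
      have h1 : ZCTr.tr2 k Ω (Projectivization.mk M y hy) (Projectivization.mk M P hP) -
          ZCTr.tr2 k Ω (Projectivization.mk M y hy)
            (Projectivization.mk M ((-c) • Q) hcQ) ∈ ratEq2 Ω h A := by
        apply rel2 h A y hy P R ((-c) • Q) hP hcQ zP.1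
        intro i
        refine ⟨qP i, hPR i, ?_, ?_, ?_⟩
        · rw [hc, bv_smul_right]; ring
        · rw [bv_smul_right, hRQ, mul_zero]
        · rw [qv_smul, qQ, mul_zero]
      have h2 : Projectivization.mk M ((-c) • Q) hcQ = Projectivization.mk M Q hQ := by
        rw [Projectivization.mk_eq_mk_iff']
        exact ⟨-c, rfl⟩
      rwa [h2] at h1

/-- Two points over `M` of the fibre over the same point of the base have rationally equivalent
traces. -/
theorem join2_pt (h : κ → MvPolynomial (Fin N) k)
    (A : Fin r → Matrix (Fin n) (Fin n) (MvPolynomial (Fin N) k))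
    (hn : 6 * r ≤ n + 3) (hM : ∀ s ≤ r, Iso M s) (y : ℙ M (Fin N → M)) (P Q : ℙ M (Fin n → M))
    (zP : Zer2 h A M y.rep P.rep) (zQ : Zer2 h A M y.rep Q.rep) :
    ZCTr.tr2 k Ω y P - ZCTr.tr2 k Ω y Q ∈ ratEq2 Ω h A := by
  rcases r with _ | s
  · have h1 := rel2 (Ω := Ω) h A y.rep y.rep_nonzero P.rep 0 Q.rep P.rep_nonzero Q.rep_nonzero zP.1
      (fun i => i.elim0)
    simpa only [Projectivization.mk_rep] using h1
  · have h1 := join2 (Ω := Ω) h A (by omega) (hM s (Nat.le_succ s)) y.rep y.rep_nonzero P.rep Q.rep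
      P.rep_nonzero Q.rep_nonzero zP zQ
    simpa only [Projectivization.mk_rep] using h1

end rel

end ZC
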