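import Pool.Agent.Lib.MP_f80667_ag.Fa.Orbit

/-!
Galois invariant cycles on a product of two projective spaces whose image in the first factor is
zero are sums of combinations of degree zero of traces of points over one point of the first factor.
-/

set_option autoImplicit false

open scoped LinearAlgebra.Projectivization

namespace ZCOrb

open ZC ZCTr

universe u

section norm

variable {n : ℕ}

theorem exists_norm {M : Type*} [Field M] (x : ℙ M (Fin n → M)) :
    ∃ (i : Fin n) (v : Fin n → M) (hv : v ≠ 0), v i = 1 ∧ x = Projectivization.mk M v hv := by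
  obtain ⟨i, hi⟩ := Function.ne_iff.mp x.rep_nonzero
  have hi' : x.rep i ≠ 0 := hi
  refine ⟨i, fun j => (x.rep i)⁻¹ * x.rep j, ?_, inv_mul_cancel₀ hi', ?_⟩
  · intro h
    have := congrFun h i
    rw [inv_mul_cancel₀ hi'] at this
    exact one_ne_zero this
  · conv_lhs => rw [← x.mk_rep]
    rw [Projectivization.mk_eq_mk_iff']
    refine ⟨x.rep i, ?_⟩
    funext j
    rw [Pi.smul_apply, smul_eq_mul, mul_inv_cancel_left₀ hi']

theorem eq_of_norm {M : Type*} [Field M] {i : Fin n} {v v' : Fin n → M} (hv : v ≠ 0)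
    (hv' : v' ≠ 0) (h1 : v i = 1) (h1' : v' i = 1)
    (h : Projectivization.mk M v hv = Projectivization.mk M v' hv') : v = v' := by
  rw [Projectivization.mk_eq_mk_iff'] at h
  obtain ⟨a, ha⟩ := h
  have : a = 1 := by
    have := congrFun ha i
    rw [Pi.smul_apply, smul_eq_mul, h1', mul_one, h1] at this
    exact this
  rw [← ha, this, one_smul]

end norm

section fields

variable {k Ω : Type u} [Field k] [Field Ω] [Algebra k Ω] {N n : ℕ}

/-- `M'` is the field of definition of `x` relative to `M` -/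
theorem exists_field_over [Algebra.IsAlgebraic k Ω] (M : IntermediateField k Ω)
    [FiniteDimensional k M] (x : ℙ Ω (Fin n → Ω)) :
    ∃ (M' : IntermediateField k Ω) (hle : M ≤ M') (x0 : ℙ M' (Fin n → M')),
      FiniteDimensional k M' ∧ mapPt (algebraMap M' Ω) x0 = x ∧
      ∀ σ τ : M' →ₐ[k] Ω, σ.comp (IntermediateField.inclusion hle) =
        τ.comp (IntermediateField.inclusion hle) →
        mapPt (σ : M' →+* Ω) x0 = mapPt (τ : M' →+* Ω) x0 → σ = τ := by
  obtain ⟨i, v, hv, h1, rfl⟩ := exists_norm x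
  set S : Set Ω := (M : Set Ω) ∪ Set.range v with hS
  have hle : M ≤ IntermediateField.adjoin k S := by
    intro a ha
    exact IntermediateField.subset_adjoin k S (Or.inl ha)
  have hmem : ∀ j, v j ∈ IntermediateField.adjoin k S := fun j =>
    IntermediateField.subset_adjoin k S (Or.inr ⟨j, rfl⟩)
  have hv0 : (fun j => (⟨v j, hmem j⟩ : IntermediateField.adjoin k S)) ≠ 0 := by
    intro h
    apply hv
    funext j
    exact congrArg Subtype.val (congrFun h j)
  refine ⟨IntermediateField.adjoin k S, hle, Projectivization.mk _ _ hv0, ?_, ?_, ?_⟩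
  · have h2 : IntermediateField.adjoin k S = M ⊔ IntermediateField.adjoin k (Set.range v) := by
      rw [hS, IntermediateField.adjoin_union, IntermediateField.adjoin_self]
    have h3 : FiniteDimensional k (IntermediateField.adjoin k (Set.range v)) :=
      IntermediateField.finiteDimensional_adjoin fun a _ =>
        (Algebra.IsAlgebraic.isAlgebraic a).isIntegral
    rw [h2]
    exact IntermediateField.finiteDimensional_sup M _
  · rw [mapPt_mk]
    rfl
  · intro σ τ hMst hx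
    rw [mapPt_mk, mapPt_mk] at hx
    have h4 := eq_of_norm (i := i) _ _ ?_ ?_ hx
    · refine IntermediateField.adjoin_algHom_ext k fun a ha => ?_
      rcases ha with ha | ⟨j, rfl⟩
      · exact DFunLike.congr_fun hMst ⟨a, ha⟩
      · exact congrFun h4 j
    · have : (⟨v i, hmem i⟩ : IntermediateField.adjoin k S) = 1 := Subtype.ext h1
      change σ ⟨v i, hmem i⟩ = 1
      rw [this, map_one]
    · have : (⟨v i, hmem i⟩ : IntermediateField.adjoin k S) = 1 := Subtype.ext h1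
      change τ ⟨v i, hmem i⟩ = 1
      rw [this, map_one]

/-- the Galois action on pairs of points -/
noncomputable def act (σ : Ω ≃ₐ[k] Ω) (y : ℙ Ω (Fin N → Ω) × ℙ Ω (Fin n → Ω)) :
    ℙ Ω (Fin N → Ω) × ℙ Ω (Fin n → Ω) :=
  (mapPt (σ : Ω →+* Ω) y.1, mapPt (σ : Ω →+* Ω) y.2)

theorem mapPt_mul (σ τ : Ω ≃ₐ[k] Ω) (x : ℙ Ω (Fin n → Ω)) :
    mapPt (σ : Ω →+* Ω) (mapPt (τ : Ω →+* Ω) x) = mapPt ((σ * τ : Ω ≃ₐ[k] Ω) : Ω →+* Ω) x := by
  rw [mapPt_comp]
  rfl

theorem mapPt_one (x : ℙ Ω (Fin n → Ω)) : mapPt ((1 : Ω ≃ₐ[k] Ω) : Ω →+* Ω) x = x := by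
  conv_rhs => rw [← mapPt_id x]
  rfl

theorem act_mul (σ τ : Ω ≃ₐ[k] Ω) (y : ℙ Ω (Fin N → Ω) × ℙ Ω (Fin n → Ω)) :
    act σ (act τ y) = act (σ * τ) y := by
  rw [act, act, act]
  exact Prod.ext (mapPt_mul σ τ y.1) (mapPt_mul σ τ y.2)

theorem act_one (y : ℙ Ω (Fin N → Ω) × ℙ Ω (Fin n → Ω)) : act (1 : Ω ≃ₐ[k] Ω) y = y :=
  Prod.ext (mapPt_one y.1) (mapPt_one y.2)

/-- the orbit of a pair of points is the set of the conjugates over a field of definition -/
theorem orbit_eq [Algebra.IsAlgebraic k Ω] [IsAlgClosed Ω] (M' : IntermediateField k Ω)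
    (w : ℙ M' (Fin N → M')) (x : ℙ M' (Fin n → M')) (y : ℙ Ω (Fin N → Ω) × ℙ Ω (Fin n → Ω)) :
    (∃ τ : Ω ≃ₐ[k] Ω, act τ (mapPt (algebraMap M' Ω) w, mapPt (algebraMap M' Ω) x) = y) ↔
      ∃ σ : M' →ₐ[k] Ω, (mapPt (σ : M' →+* Ω) w, mapPt (σ : M' →+* Ω) x) = y := by
  constructor
  · rintro ⟨τ, rfl⟩
    refine ⟨(τ : Ω →ₐ[k] Ω).comp M'.val, ?_⟩
    rw [act]
    refine Prod.ext ?_ ?_
    · change mapPt _ w = mapPt _ (mapPt _ w)
      rw [mapPt_comp]
      rfl
    · change mapPt _ x = mapPt _ (mapPt _ x)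
      rw [mapPt_comp]
      rfl
  · rintro ⟨σ, rfl⟩
    obtain ⟨τ, hτ⟩ := exists_aut M' σ
    have h : ((τ : Ω →+* Ω)).comp (algebraMap M' Ω) = (σ : M' →+* Ω) := by
      ext a
      exact hτ a
    refine ⟨τ, ?_⟩
    rw [act]
    refine Prod.ext ?_ ?_
    · change mapPt _ (mapPt _ w) = mapPt _ w
      rw [mapPt_comp, h]
    · change mapPt _ (mapPt _ x) = mapPt _ x
      rw [mapPt_comp, h]

/-- orbits are finite -/
theorem orbit_finite [Algebra.IsAlgebraic k Ω] [IsAlgClosed Ω]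
    (y : ℙ Ω (Fin N → Ω) × ℙ Ω (Fin n → Ω)) :
    {y' | ∃ τ : Ω ≃ₐ[k] Ω, act τ y = y'}.Finite := by
  obtain ⟨M, hM, w, hw, -⟩ := exists_field (k := k) y.1
  obtain ⟨M', hle, x, hM', hx, -⟩ := exists_field_over M y.2
  have h1 : mapPt (algebraMap M' Ω)
      (mapPt ((IntermediateField.inclusion hle : M →ₐ[k] M') : M →+* M') w) = y.1 := by
    rw [mapPt_comp, ← hw]
    rfl
  have h2 : y = (mapPt (algebraMap M' Ω)
      (mapPt ((IntermediateField.inclusion hle : M →ₐ[k] M') : M →+* M') w),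
      mapPt (algebraMap M' Ω) x) := Prod.ext h1.symm hx.symm
  rw [h2]
  have h3 : {y' | ∃ τ : Ω ≃ₐ[k] Ω, act τ (mapPt (algebraMap M' Ω)
      (mapPt ((IntermediateField.inclusion hle : M →ₐ[k] M') : M →+* M') w),
      mapPt (algebraMap M' Ω) x) = y'} = Set.range fun σ : M' →ₐ[k] Ω =>
        (mapPt (σ : M' →+* Ω)
          (mapPt ((IntermediateField.inclusion hle : M →ₐ[k] M') : M →+* M') w),
        mapPt (σ : M' →+* Ω) x) := by
    ext y'
    exact orbit_eq M' _ _ y'
  rw [h3]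
  exact Set.finite_range _

/-- the orbit sum is the trace -/
theorem sum_orbit [Algebra.IsAlgebraic k Ω] [IsAlgClosed Ω] (M' : IntermediateField k Ω)
    [FiniteDimensional k M'] (w : ℙ M' (Fin N → M')) (x : ℙ M' (Fin n → M'))
    (hinj : ∀ σ τ : M' →ₐ[k] Ω, mapPt (σ : M' →+* Ω) w = mapPt (τ : M' →+* Ω) w →
      mapPt (σ : M' →+* Ω) x = mapPt (τ : M' →+* Ω) x → σ = τ)
    (y : ℙ Ω (Fin N → Ω) × ℙ Ω (Fin n → Ω)) (τ₀ : Ω ≃ₐ[k] Ω)
    (hy : act τ₀ (mapPt (algebraMap M' Ω) w, mapPt (algebraMap M' Ω) x) = y) :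
    ∑ y' ∈ (orbit_finite (k := k) y).toFinset, Finsupp.single y' (1 : ℤ) = tr2 k Ω w x := by
  classical
  have h1 : (orbit_finite (k := k) y).toFinset = Finset.univ.image fun σ : M' →ₐ[k] Ω =>
      (mapPt (σ : M' →+* Ω) w, mapPt (σ : M' →+* Ω) x) := by
    ext y'
    rw [Set.Finite.mem_toFinset, Finset.mem_image]
    have h2 := orbit_eq (k := k) M' w x y'
    constructor
    · rintro ⟨τ, hτ⟩
      obtain ⟨σ, hσ⟩ := h2.mp ⟨τ * τ₀, by rw [← act_mul, hy, hτ]⟩
      exact ⟨σ, Finset.mem_univ _, hσ⟩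
    · rintro ⟨σ, -, hσ⟩
      obtain ⟨τ, hτ⟩ := h2.mpr ⟨σ, hσ⟩
      refine ⟨τ * τ₀⁻¹, ?_⟩
      rw [← hy, act_mul, inv_mul_cancel_right, hτ]
  rw [h1, Finset.sum_image, tr2, trG]
  intro σ _ τ _ h
  exact hinj σ τ (congrArg Prod.fst h) (congrArg Prod.snd h)

/-- the group generated by the traces of the points `(w, x)` of the support of `z` -/
noncomputable def fibTr (z : ℙ Ω (Fin N → Ω) × ℙ Ω (Fin n → Ω) →₀ ℤ) (M : IntermediateField k Ω)
    (w : ℙ M (Fin N → M)) : AddSubgroup (ℙ Ω (Fin N → Ω) × ℙ Ω (Fin n → Ω) →₀ ℤ) :=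
  AddSubgroup.closure {t | ∃ (M' : IntermediateField k Ω) (_ : FiniteDimensional k M')
    (hle : M ≤ M') (x : ℙ M' (Fin n → M')),
    (mapPt (algebraMap M Ω) w, mapPt (algebraMap M' Ω) x) ∈ z.support ∧
    t = tr2 k Ω (mapPt ((IntermediateField.inclusion hle : M →ₐ[k] M') : M →+* M') w) x}

/-- the degree of a cycle -/
noncomputable def degF {Y : Type*} : (Y →₀ ℤ) →+ ℤ :=
  Finsupp.liftAddHom (fun _ => AddMonoidHom.id ℤ)

theorem degF_single {Y : Type*} (y : Y) (a : ℤ) : degF (Finsupp.single y a) = a := by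
  simp [degF]

theorem degF_mapDomain {Y Z : Type*} (f : Y → Z) (z : Y →₀ ℤ) :
    degF (Finsupp.mapDomain f z) = degF z := by
  induction z using Finsupp.induction_linear with
  | zero => simp
  | add a b ha hb => rw [Finsupp.mapDomain_add, map_add, map_add, ha, hb]
  | single a b => rw [Finsupp.mapDomain_single, degF_single, degF_single]

theorem filter_mapDomain {Y Z : Type*} (f : Y → Z) (p : Z → Prop) [DecidablePred p]
    [DecidablePred fun y => p (f y)] (z : Y →₀ ℤ) :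
    Finsupp.mapDomain f (z.filter fun y => p (f y)) = (Finsupp.mapDomain f z).filter p := by
  induction z using Finsupp.induction_linear with
  | zero => rw [Finsupp.filter_zero, Finsupp.mapDomain_zero, Finsupp.filter_zero]
  | add a b ha hb =>
    rw [Finsupp.filter_add, Finsupp.mapDomain_add, Finsupp.mapDomain_add, Finsupp.filter_add, ha,
      hb]
  | single a b =>
    by_cases h : p (f a)
    · rw [Finsupp.filter_single_of_pos (fun y => p (f y)) h, Finsupp.mapDomain_single,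
        Finsupp.filter_single_of_pos p h]
    · rw [Finsupp.filter_single_of_neg (fun y => p (f y)) h, Finsupp.mapDomain_single,
        Finsupp.filter_single_of_neg p h, Finsupp.mapDomain_zero]

/-- a cycle supported over the orbit of `w` is a combination of traces of points over `w` -/
theorem mem_fibTr [Algebra.IsAlgebraic k Ω] [IsAlgClosed Ω] (z₀ : ℙ Ω (Fin N → Ω) × ℙ Ω (Fin n → Ω) →₀ ℤ)
    (hz₀ : ∀ (σ : Ω ≃ₐ[k] Ω) y, z₀ (act σ y) = z₀ y)
    (M : IntermediateField k Ω) [FiniteDimensional k M] (w : ℙ M (Fin N → M))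
    (hinj : ∀ σ τ : M →ₐ[k] Ω, mapPt (σ : M →+* Ω) w = mapPt (τ : M →+* Ω) w → σ = τ)
    (z : ℙ Ω (Fin N → Ω) × ℙ Ω (Fin n → Ω) →₀ ℤ) (hz : ∀ (σ : Ω ≃ₐ[k] Ω) y, z (act σ y) = z y)
    (hsup : z.support ⊆ z₀.support)
    (horb : ∀ y ∈ z.support, ∃ σ : Ω ≃ₐ[k] Ω,
      mapPt (σ : Ω →+* Ω) (mapPt (algebraMap M Ω) w) = y.1) :
    z ∈ fibTr z₀ M w := by
  refine mem_of_orbits (G := Ω ≃ₐ[k] Ω) act (fun y => (orbit_finite (k := k) y).toFinset)
    ?_ ?_ ?_ (fibTr z₀ M w) z hz ?_
  · intro y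
    rw [Set.Finite.mem_toFinset]
    exact ⟨1, act_one y⟩
  · intro y y' hy'
    rw [Set.Finite.mem_toFinset] at hy'
    exact hy'
  · intro y y' σ
    rw [Set.Finite.mem_toFinset, Set.Finite.mem_toFinset]
    constructor
    · rintro ⟨τ, hτ⟩
      refine ⟨σ⁻¹ * τ, ?_⟩
      rw [← act_mul, hτ, act_mul, inv_mul_cancel, act_one]
    · rintro ⟨τ, hτ⟩
      exact ⟨σ * τ, by rw [← act_mul, hτ]⟩
  · intro y hy
    obtain ⟨τ₀, hτ₀⟩ := horb y hy
    obtain ⟨M', hle, x, hM', hx, hx'⟩ :=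
      exists_field_over M (mapPt ((τ₀⁻¹ : Ω ≃ₐ[k] Ω) : Ω →+* Ω) y.2)
    set w' : ℙ M' (Fin N → M') :=
      mapPt ((IntermediateField.inclusion hle : M →ₐ[k] M') : M →+* M') w with hw'
    have hw1 : mapPt (algebraMap M' Ω) w' = mapPt (algebraMap M Ω) w := by
      rw [hw', mapPt_comp]
      rfl
    have hy1 : act τ₀ (mapPt (algebraMap M' Ω) w', mapPt (algebraMap M' Ω) x) = y := by
      refine Prod.ext ?_ ?_
      · change mapPt (τ₀ : Ω →+* Ω) (mapPt (algebraMap M' Ω) w') = y.1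
        rw [hw1, hτ₀]
      · change mapPt (τ₀ : Ω →+* Ω) (mapPt (algebraMap M' Ω) x) = y.2
        rw [hx, mapPt_mul, mul_inv_cancel, mapPt_one]
    have hsum := sum_orbit (k := k) M' w' x ?_ y τ₀ hy1
    · change ∑ y' ∈ (orbit_finite (k := k) y).toFinset, Finsupp.single y' (1 : ℤ) ∈ fibTr z₀ M w
      rw [hsum]
      refine AddSubgroup.subset_closure ⟨M', hM', hle, x, ?_, rfl⟩
      rw [← hw1]
      have h5 := hsup hy
      rw [Finsupp.mem_support_iff] at h5 ⊢
      rw [← hz₀ τ₀, hy1]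
      exact h5
    · intro σ τ h1 h2
      refine hx' σ τ (hinj _ _ ?_) h2
      rw [hw', mapPt_comp, mapPt_comp] at h1
      exact h1

/-- an invariant cycle with image `0` in the first factor lies in every subgroup which contains the
combinations of degree `0` of traces of points over one point of the first factor -/
theorem fibre_mem [Algebra.IsAlgebraic k Ω] [IsAlgClosed Ω]
    (A : AddSubgroup (ℙ Ω (Fin N → Ω) × ℙ Ω (Fin n → Ω) →₀ ℤ))
    (z : ℙ Ω (Fin N → Ω) × ℙ Ω (Fin n → Ω) →₀ ℤ)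
    (hz : ∀ (σ : Ω ≃ₐ[k] Ω) (y : ℙ Ω (Fin N → Ω) × ℙ Ω (Fin n → Ω)),
      z (mapPt (σ : Ω →+* Ω) y.1, mapPt (σ : Ω →+* Ω) y.2) = z y)
    (hp : Finsupp.mapDomain Prod.fst z = 0)
    (hA : ∀ (M : IntermediateField k Ω) (_ : FiniteDimensional k M) (w : ℙ M (Fin N → M)),
      ∀ t ∈ fibTr z M w, degF t = 0 → t ∈ A) : z ∈ A := by
  classical
  suffices H : ∀ m : ℕ, ∀ z' : ℙ Ω (Fin N → Ω) × ℙ Ω (Fin n → Ω) →₀ ℤ,
      (∀ (σ : Ω ≃ₐ[k] Ω) y, z' (act σ y) = z' y) → Finsupp.mapDomain Prod.fst z' = 0 →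
      z'.support ⊆ z.support → z'.support.card ≤ m → z' ∈ A from
    H _ z hz hp (Finset.Subset.refl _) le_rfl
  intro m
  induction m with
  | zero =>
    intro z' _ _ _ hm
    have h0 : z'.support = ∅ := Finset.card_eq_zero.1 (Nat.le_zero.1 hm)
    rw [Finsupp.support_eq_empty.1 h0]
    exact A.zero_mem
  | succ m ih =>
    intro z' hz' hp' hsup hm
    by_cases h0 : z' = 0
    · rw [h0]; exact A.zero_mem
    obtain ⟨y, hy⟩ : ∃ y, y ∈ z'.support := by
      by_contra hcon
      push Not at hcon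
      exact h0 (Finsupp.support_eq_empty.1 (Finset.eq_empty_of_forall_notMem hcon))
    obtain ⟨M, hM, w, hw, hinj⟩ := exists_field (k := k) y.1
    set p : ℙ Ω (Fin N → Ω) → Prop := fun v => ∃ σ : Ω ≃ₐ[k] Ω, mapPt (σ : Ω →+* Ω) y.1 = v
      with hpdef
    set z1 := z'.filter fun y' => p y'.1 with hz1
    have hpy : p y.1 := ⟨1, mapPt_one _⟩
    have hpact : ∀ (σ : Ω ≃ₐ[k] Ω) (v : ℙ Ω (Fin N → Ω)), p (mapPt (σ : Ω →+* Ω) v) ↔ p v := by
      intro σ v
      constructor
      · rintro ⟨τ, hτ⟩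
        refine ⟨σ⁻¹ * τ, ?_⟩
        rw [← mapPt_mul, hτ, mapPt_mul, inv_mul_cancel, mapPt_one]
      · rintro ⟨τ, hτ⟩
        exact ⟨σ * τ, by rw [← mapPt_mul, hτ]⟩
    have hz1' : ∀ (σ : Ω ≃ₐ[k] Ω) y, z1 (act σ y) = z1 y := by
      intro σ y'
      rw [hz1, Finsupp.filter_apply, Finsupp.filter_apply, hz']
      have : p (act σ y').1 ↔ p y'.1 := hpact σ y'.1
      simp only [this]
    have hz1sup : z1.support ⊆ z'.support := by
      intro y' hy'
      rw [hz1, Finsupp.support_filter] at hy'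
      exact (Finset.mem_filter.mp hy').1
    have hz1p : Finsupp.mapDomain Prod.fst z1 = 0 := by
      rw [hz1, filter_mapDomain Prod.fst p z', hp', Finsupp.filter_zero]
    have hz1A : z1 ∈ A := by
      refine hA M hM w z1 (mem_fibTr z hz M w (fun σ τ h => hinj Ω σ τ h) z1 hz1'
        (hz1sup.trans hsup) ?_) ?_
      · intro y' hy'
        rw [hz1, Finsupp.support_filter] at hy'
        rw [hw]
        exact (Finset.mem_filter.mp hy').2
      · rw [← degF_mapDomain Prod.fst, hz1p, map_zero]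
    have h2 : z' - z1 ∈ A := by
      refine ih (z' - z1) ?_ ?_ ?_ ?_
      · intro σ y'
        rw [Finsupp.sub_apply, Finsupp.sub_apply, hz', hz1']
      · rw [Finsupp.mapDomain_sub, hp', hz1p, sub_zero]
      · intro y' hy'
        by_contra hcon
        rw [Finsupp.notMem_support_iff] at hcon
        have h3 : z' y' = 0 := by
          by_contra h4
          exact (Finsupp.mem_support_iff.mp (hsup (Finsupp.mem_support_iff.mpr h4))) hcon
        have h4 : z1 y' = 0 := by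
          by_contra h5
          exact (Finsupp.mem_support_iff.mp (hz1sup (Finsupp.mem_support_iff.mpr h5))) h3
        rw [Finsupp.mem_support_iff, Finsupp.sub_apply, h3, h4] at hy'
        exact hy' (sub_zero 0)
      · have h3 : (z' - z1).support ⊆ z'.support.erase y := by
          intro y' hy'
          rw [Finsupp.mem_support_iff, Finsupp.sub_apply] at hy'
          have hne : y' ≠ y := by
            rintro rfl
            apply hy'
            rw [hz1, Finsupp.filter_apply, if_pos hpy, sub_self]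
          rw [Finset.mem_erase, Finsupp.mem_support_iff]
          refine ⟨hne, fun h4 => hy' ?_⟩
          have h5 : z1 y' = 0 := by
            by_contra h6
            exact (Finsupp.mem_support_iff.mp (hz1sup (Finsupp.mem_support_iff.mpr h6))) h4
          rw [h4, h5, sub_zero]
        have h4 := Finset.card_le_card h3
        rw [Finset.card_erase_of_mem hy] at h4
        omega
    have := A.add_mem h2 hz1A
    simpa using this

end fields

end ZCOrb
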