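import Pool.Agent.Lib.MP_f80667_ag.Fa.Join
import Pool.Agent.Lib.MP_f80667_ag.Fa.Orb
import Pool.Agent.Lib.MP_f80667_ag.ZC.Good

/-!
Zero-cycles of a family of intersections of quadrics whose image in the base is the cycle `0` are
rationally equivalent to `0`.
-/

set_option autoImplicit false

open scoped LinearAlgebra.Projectivization

namespace ZC

universe u

section ker

variable {k : Type u} [Field k] [CharZero k] {Ω : Type u} [Field Ω] [Algebra k Ω]
  [IsAlgClosure k Ω] {N n r : ℕ} {κ : Type} {h : κ → MvPolynomial (Fin N) k}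
  {A : Fin r → Matrix (Fin n) (Fin n) (MvPolynomial (Fin N) k)}

theorem tr2_le {K M : IntermediateField k Ω} [FiniteDimensional k K] [FiniteDimensional k M]
    (hle : K ≤ M) (w : ℙ K (Fin N → K)) (y : ℙ K (Fin n → K)) :
    (Module.finrank k K : ℤ) • ZCTr.tr2 k Ω
        (mapPt ((IntermediateField.inclusion hle : K →ₐ[k] M) : K →+* M) w)
        (mapPt ((IntermediateField.inclusion hle : K →ₐ[k] M) : K →+* M) y) =
      (Module.finrank k M : ℤ) • ZCTr.tr2 k Ω w y := by
  have : IsAlgClosed Ω := IsAlgClosure.isAlgClosed k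
  let _ : Algebra K M := (IntermediateField.inclusion hle).toRingHom.toAlgebra
  have _ : IsScalarTower k K M := IsScalarTower.of_algebraMap_eq (fun x => rfl)
  have _ : FiniteDimensional K M := FiniteDimensional.right k K M
  have _ : CharZero K := charZero_of_injective_algebraMap (algebraMap k K).injective
  have h1 := ZCTr.tr2_base (k := k) Ω (M := M) w y
  have h2 := Module.finrank_mul_finrank k K M
  rw [← h2, Nat.cast_mul, mul_smul, ← h1]
  rfl

omit [CharZero k] [IsAlgClosure k Ω] in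
theorem fin_dvd {K M : IntermediateField k Ω} [FiniteDimensional k K] [FiniteDimensional k M]
    (hle : K ≤ M) : ∃ e : ℕ, Module.finrank k M = e * Module.finrank k K := by
  let _ : Algebra K M := (IntermediateField.inclusion hle).toRingHom.toAlgebra
  have _ : IsScalarTower k K M := IsScalarTower.of_algebraMap_eq (fun x => rfl)
  have h2 := Module.finrank_mul_finrank k K M
  exact ⟨Module.finrank K M, by rw [← h2, mul_comm]⟩

/-- The statement which is proved by induction on the generators. -/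
def St2 (h : κ → MvPolynomial (Fin N) k)
    (A : Fin r → Matrix (Fin n) (Fin n) (MvPolynomial (Fin N) k)) (K : IntermediateField k Ω)
    (w : ℙ K (Fin N → K)) (z : Pt2 Ω N n →₀ ℤ) : Prop :=
  ∃ e : ℤ, ZCOrb.degF z = e * Module.finrank k K ∧ ∃ D : ℕ, D ≠ 0 ∧
    ∀ (L : IntermediateField k Ω) (_ : FiniteDimensional k L)
      (_ : FiniteDimensional k (K ⊔ L : IntermediateField k Ω)),
    (Module.finrank k L).Coprime D →
    (∀ M : IntermediateField k Ω, FiniteDimensional k M → L ≤ M → ∀ s ≤ r, Iso M s) →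
    ∀ P0 : ℙ (K ⊔ L : IntermediateField k Ω) (Fin n → (K ⊔ L : IntermediateField k Ω)),
      Zer2 h A (K ⊔ L : IntermediateField k Ω)
        (mapPt ((IntermediateField.inclusion le_sup_left :
          K →ₐ[k] (K ⊔ L : IntermediateField k Ω)) : K →+* (K ⊔ L : IntermediateField k Ω)) w).rep
        P0.rep →
      (Module.finrank k L : ℤ) • z - e • ZCTr.tr2 k Ω
        (mapPt ((IntermediateField.inclusion le_sup_left :
          K →ₐ[k] (K ⊔ L : IntermediateField k Ω)) : K →+* (K ⊔ L : IntermediateField k Ω)) w)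
        P0 ∈ ratEq2 Ω h A

theorem st2_tr (hh : ∀ j, ∃ d, (h j).IsHomogeneous d)
    (hA : ∀ i, ∃ e, ∀ a b, (A i a b).IsHomogeneous e) (hn : 6 * r ≤ n + 3)
    (K : IntermediateField k Ω) [FiniteDimensional k K] (w : ℙ K (Fin N → K))
    (M' : IntermediateField k Ω) [FiniteDimensional k M'] (hle : K ≤ M')
    (x : ℙ M' (Fin n → M'))
    (hx : Zer2 h A Ω (mapPt (algebraMap K Ω) w).rep (mapPt (algebraMap M' Ω) x).rep) :
    St2 h A K w (ZCTr.tr2 k Ω
      (mapPt ((IntermediateField.inclusion hle : K →ₐ[k] M') : K →+* M') w) x) := by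
  have hcl : IsAlgClosed Ω := IsAlgClosure.isAlgClosed k
  obtain ⟨e, he⟩ := fin_dvd hle
  have hKpos : Module.finrank k K ≠ 0 := Module.finrank_pos.ne'
  have hM'pos : Module.finrank k M' ≠ 0 := Module.finrank_pos.ne'
  refine ⟨e, ?_, Module.finrank k M', hM'pos, ?_⟩
  · have : ZCOrb.degF (ZCTr.tr2 k Ω
      (mapPt ((IntermediateField.inclusion hle : K →ₐ[k] M') : K →+* M') w) x) =
      Module.finrank k M' := ZCTr.deg_trG _
    rw [this, he, Nat.cast_mul]
  · intro L hL hKL hcop hIso P0 hP0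
    set T : IntermediateField k Ω := M' ⊔ L with hT
    have hfd : FiniteDimensional k T := IntermediateField.finiteDimensional_sup M' L
    have hfin : Module.finrank k T = Module.finrank k M' * Module.finrank k L :=
      (IntermediateField.LinearDisjoint.of_finrank_coprime hcop.symm).finrank_sup
    have hcop' : (Module.finrank k L).Coprime (Module.finrank k K) :=
      hcop.coprime_dvd_right ⟨e, by rw [he, mul_comm]⟩
    have hfin' : Module.finrank k (K ⊔ L : IntermediateField k Ω) =
        Module.finrank k K * Module.finrank k L :=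
      (IntermediateField.LinearDisjoint.of_finrank_coprime hcop'.symm).finrank_sup
    have hM'T : M' ≤ T := le_sup_left
    have hLT : L ≤ T := le_sup_right
    have hKLT : (K ⊔ L : IntermediateField k Ω) ≤ T := sup_le (hle.trans hM'T) hLT
    have hLpos : Module.finrank k L ≠ 0 := Module.finrank_pos.ne'
    set wM := mapPt ((IntermediateField.inclusion hle : K →ₐ[k] M') : K →+* M') w with hwM
    set wL := mapPt ((IntermediateField.inclusion le_sup_left :
          K →ₐ[k] (K ⊔ L : IntermediateField k Ω)) : K →+* (K ⊔ L : IntermediateField k Ω)) w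
      with hwL
    set wT := mapPt ((IntermediateField.inclusion hM'T : M' →ₐ[k] T) : M' →+* T) wM with hwT
    have hwT' : wT = mapPt ((IntermediateField.inclusion hKLT :
        (K ⊔ L : IntermediateField k Ω) →ₐ[k] T) : (K ⊔ L : IntermediateField k Ω) →+* T) wL := by
      rw [hwT, hwM, hwL, mapPt_comp, mapPt_comp]
      rfl
    set xT := mapPt ((IntermediateField.inclusion hM'T : M' →ₐ[k] T) : M' →+* T) x with hxT
    set PT := mapPt ((IntermediateField.inclusion hKLT :
        (K ⊔ L : IntermediateField k Ω) →ₐ[k] T) : (K ⊔ L : IntermediateField k Ω) →+* T) P0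
      with hPT
    have hzx : Zer2 h A M' wM.rep x.rep := by
      have h1 := (zer2_mapPt_iff hh hA M'.val ((wM, x) : Pt2 M' N n)).mp
      apply h1
      have h2 : (mapPt2 ((M'.val : M' →ₐ[k] Ω) : M' →+* Ω) ((wM, x) : Pt2 M' N n)).1 =
          mapPt (algebraMap K Ω) w := by
        change mapPt _ wM = _
        rw [hwM, mapPt_comp]
        rfl
      rw [h2]
      exact hx
    have hzxT : Zer2 h A T wT.rep xT.rep :=
      (zer2_mapPt_iff hh hA (IntermediateField.inclusion hM'T) ((wM, x) : Pt2 M' N n)).mpr hzx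
    have hzPT : Zer2 h A T wT.rep PT.rep := by
      rw [hwT']
      exact (zer2_mapPt_iff hh hA (IntermediateField.inclusion hKLT)
        ((wL, P0) : Pt2 (K ⊔ L : IntermediateField k Ω) N n)).mpr hP0
    have hj := join2_pt (Ω := Ω) h A hn (hIso T hfd hLT) wT xT PT hzxT hzPT
    have h1 : ZCTr.tr2 k Ω wT xT = (Module.finrank k L : ℤ) • ZCTr.tr2 k Ω wM x := by
      have h2 := tr2_le (Ω := Ω) hM'T wM x
      rw [hfin, Nat.cast_mul, mul_smul] at h2
      exact smul_right_injective _ (Nat.cast_ne_zero.mpr hM'pos) h2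
    have h2 : ZCTr.tr2 k Ω wT PT = (e : ℤ) • ZCTr.tr2 k Ω wL P0 := by
      have h3 := tr2_le (Ω := Ω) hKLT wL P0
      rw [hfin, hfin', he] at h3
      have h4 : ((e * Module.finrank k K * Module.finrank k L : ℕ) : ℤ) =
          ((Module.finrank k K * Module.finrank k L : ℕ) : ℤ) * e := by
        push_cast; ring
      rw [h4, mul_smul, ← hwT'] at h3
      exact smul_right_injective _ (Nat.cast_ne_zero.mpr (mul_ne_zero hKpos hLpos)) h3
    rw [h1, h2] at hj
    exact hj

theorem st2_all (hh : ∀ j, ∃ d, (h j).IsHomogeneous d)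
    (hA : ∀ i, ∃ e, ∀ a b, (A i a b).IsHomogeneous e) (hn : 6 * r ≤ n + 3)
    {z : Pt2 Ω N n →₀ ℤ} (hz : z ∈ cyc2 Ω h A) (K : IntermediateField k Ω)
    [FiniteDimensional k K] (w : ℙ K (Fin N → K)) (t : Pt2 Ω N n →₀ ℤ)
    (ht : t ∈ ZCOrb.fibTr z K w) : St2 h A K w t := by
  refine AddSubgroup.closure_induction (p := fun t _ => St2 h A K w t) ?_ ?_ ?_ ?_ ht
  · rintro t ⟨M', hM', hle, x, hx, ht'⟩
    have hx' := hz.1 _ hx
    dsimp only at hx'
    have h1 := st2_tr hh hA hn K w M' hle x hx'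
    rw [ht']
    exact h1
  · exact ⟨0, by simp, 1, one_ne_zero, fun L _ _ _ _ P0 _ => by simp⟩
  · rintro a b _ _ ⟨e, he, D, hD, ha⟩ ⟨e', he', D', hD', hb⟩
    refine ⟨e + e', by rw [map_add, he, he', add_mul], D * D', mul_ne_zero hD hD', ?_⟩
    intro L hL hKL hcop hIso P0 hP0
    have h1 := ha L hL hKL (hcop.coprime_dvd_right ⟨D', rfl⟩) hIso P0 hP0
    have h2 := hb L hL hKL (hcop.coprime_dvd_right ⟨D, mul_comm _ _⟩) hIso P0 hP0
    have h3 := add_mem h1 h2
    rw [smul_add, add_smul]
    convert h3 using 1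
    abel
  · rintro a _ ⟨e, he, D, hD, ha⟩
    refine ⟨-e, by rw [map_neg, he, neg_mul], D, hD, ?_⟩
    intro L hL hKL hcop hIso P0 hP0
    have h1 := neg_mem (ha L hL hKL hcop hIso P0 hP0)
    rw [smul_neg, neg_smul]
    convert h1 using 1
    abel

omit [CharZero k] [IsAlgClosure k Ω] in
theorem exists_pt2 (hh : ∀ j, ∃ d, (h j).IsHomogeneous d)
    (hA : ∀ i, ∃ e, ∀ a b, (A i a b).IsHomogeneous e) {M : Type u} [Field M] [Algebra k M]
    (hM : Iso M r) (hn : 4 * r < n) (w : ℙ M (Fin N → M)) (hw : Zer h M w.rep) :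
    ∃ P : ℙ M (Fin n → M), Zer2 h A M w.rep P.rep := by
  obtain ⟨x, hx, hz⟩ := hM n hn (fun i => (A i).map (MvPolynomial.aeval w.rep))
  refine ⟨Projectivization.mk M x hx, ?_⟩
  have h1 := (zer2_mk_iff hh hA w.rep w.rep_nonzero x hx).mpr ⟨hw, hz⟩
  have h2 : Projectivization.mk M w.rep w.rep_nonzero = w := w.mk_rep
  rw [h2] at h1
  exact h1

/-- Step 1: zero-cycles with vanishing push-forward are rationally equivalent to `0`. -/
theorem fam_ker' (hG : Good k Ω r) (hh : ∀ j, ∃ d, (h j).IsHomogeneous d)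
    (hA : ∀ i, ∃ e, ∀ a b, (A i a b).IsHomogeneous e) (hn : 6 * r ≤ n + 3) (hn' : 4 * r < n)
    {z : Pt2 Ω N n →₀ ℤ} (hz : z ∈ cyc2 Ω h A) (h0 : pushW Ω z = 0) : z ∈ ratEq2 Ω h A := by
  have hcl : IsAlgClosed Ω := IsAlgClosure.isAlgClosed k
  have halg : Algebra.IsAlgebraic k Ω := IsAlgClosure.isAlgebraic
  refine ZCOrb.fibre_mem (k := k) (ratEq2 Ω h A) z (fun σ y => hz.2 σ y) h0 ?_
  intro K hK w t ht hdeg
  by_cases hw : Zer h K w.rep
  · obtain ⟨e, he, D, hD, H⟩ := st2_all hh hA hn hz K w t ht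
    have hKpos : (Module.finrank k K : ℤ) ≠ 0 := Nat.cast_ne_zero.mpr Module.finrank_pos.ne'
    have he0 : e = 0 := by
      rw [hdeg] at he
      exact (mul_eq_zero.mp he.symm).resolve_right hKpos
    subst he0
    have key : ∀ L : IntermediateField k Ω, FiniteDimensional k L →
        (Module.finrank k L).Coprime D →
        (∀ M : IntermediateField k Ω, FiniteDimensional k M → L ≤ M → ∀ s ≤ r, Iso M s) →
        (Module.finrank k L : ℤ) • t ∈ ratEq2 Ω h A := by
      intro L hL hcop hIso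
      have hKL : FiniteDimensional k (K ⊔ L : IntermediateField k Ω) :=
        IntermediateField.finiteDimensional_sup K L
      obtain ⟨P, hP⟩ := exists_pt2 hh hA (hIso _ hKL le_sup_right r le_rfl) hn'
        (mapPt ((IntermediateField.inclusion le_sup_left :
          K →ₐ[k] (K ⊔ L : IntermediateField k Ω)) : K →+* (K ⊔ L : IntermediateField k Ω)) w)
        ((zer_mapPt_iff hh (IntermediateField.inclusion le_sup_left) w).mpr hw)
      have h1 := H L hL hKL hcop hIso P hP
      rwa [zero_smul, sub_zero] at h1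
    obtain ⟨L, hL, hcop, hLM⟩ := hG D hD
    have hLpos : Module.finrank k L ≠ 0 := Module.finrank_pos.ne'
    have h1 := key L hL hcop hLM
    obtain ⟨L', hL', hcop', hLM'⟩ := hG (D * Module.finrank k L) (mul_ne_zero hD hLpos)
    have h2 := key L' hL' (hcop'.coprime_dvd_right ⟨_, rfl⟩) hLM'
    have hc : IsCoprime (Module.finrank k L : ℤ) (Module.finrank k L' : ℤ) :=
      Nat.isCoprime_iff_coprime.2 (hcop'.coprime_dvd_right ⟨D, mul_comm _ _⟩).symm
    obtain ⟨a, b, hab⟩ := hc
    have h3 := add_mem (zsmul_mem h1 a) (zsmul_mem h2 b)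
    rw [smul_smul, smul_smul, ← add_smul, hab, one_smul] at h3
    exact h3
  · have hle : ZCOrb.fibTr z K w ≤ ratEq2 Ω h A := by
      refine (AddSubgroup.closure_le _).mpr ?_
      rintro t ⟨M', hM', hle, x, hx, rfl⟩
      exfalso
      apply hw
      exact (zer_mapPt_iff hh K.val w).mp (hz.1 _ hx).1
    exact hle ht

/-- Step 1: zero-cycles with vanishing push-forward are rationally equivalent to `0`. -/
theorem fam_ker (hG : ∀ s, Good k Ω s) (hh : ∀ j, ∃ d, (h j).IsHomogeneous d)
    (hA : ∀ i, ∃ e, ∀ a b, (A i a b).IsHomogeneous e) (hn : 8 * r < n)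
    {z : Pt2 Ω N n →₀ ℤ} (hz : z ∈ cyc2 Ω h A) (h0 : pushW Ω z = 0) : z ∈ ratEq2 Ω h A :=
  fam_ker' (hG r) hh hA (by omega) (by omega) hz h0

end ker

end ZC
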