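import Pool.Agent.Lib.MP_f80667_ag.Fa.Orbit
import Pool.Agent.Lib.MP_f80667_ag.ZC.Good
import Pool.Agent.Lib.MP_f80667_ag.Fa.Push

/-!
Surjectivity of the push-forward of zero-cycles for a family of intersections of quadrics.
-/

open scoped LinearAlgebra.Projectivization

namespace Fa

open ZC ZCTr

universe u

variable {k Ω : Type u} [Field k] [Field Ω] [Algebra k Ω] {n N r : ℕ}

/-- Over a finite extension `M₀` of `k` there are finite extensions of degree prime to a given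
number over which intersections of quadrics have points. -/
theorem exists_ext (hG : Good k Ω r) (M₀ : IntermediateField k Ω) [FiniteDimensional k M₀]
    (m : ℕ) (hm : m ≠ 0) :
    ∃ (M₁ : IntermediateField k Ω) (_ : M₀ ≤ M₁) (_ : FiniteDimensional k M₁) (d : ℕ),
      Module.finrank k M₁ = Module.finrank k M₀ * d ∧ d.Coprime m ∧ d ≠ 0 ∧
      ∀ s ≤ r, Iso M₁ s := by
  have hpos : Module.finrank k M₀ ≠ 0 := Module.finrank_pos.ne'
  obtain ⟨L, hL, hc, hI⟩ := hG (Module.finrank k M₀ * m) (mul_ne_zero hpos hm)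
  have hc1 : (Module.finrank k M₀).Coprime (Module.finrank k L) :=
    (Nat.Coprime.coprime_mul_right_right hc).symm
  have hfin : FiniteDimensional k (M₀ ⊔ L : IntermediateField k Ω) :=
    IntermediateField.finiteDimensional_sup M₀ L
  refine ⟨M₀ ⊔ L, le_sup_left, hfin, Module.finrank k L, ?_,
    Nat.Coprime.coprime_mul_left_right hc, Module.finrank_pos.ne', ?_⟩
  · exact (IntermediateField.LinearDisjoint.of_finrank_coprime hc1).finrank_sup
  · exact hI _ hfin le_sup_right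

/-- The core of the surjectivity: if over every finite extension `M₁` of `M₀` with `Iso M₁` the
fibre over the point `P` of the base has a point, then the trace of `P` is the image of a
combination of traces of pairs. -/
theorem sur_core [CharZero k] [IsAlgClosed Ω] (hG : Good k Ω r) (M₀ : IntermediateField k Ω)
    [FiniteDimensional k M₀] (P : ℙ M₀ (Fin N → M₀))
    (S : AddSubgroup (ℙ Ω (Fin N → Ω) × ℙ Ω (Fin n → Ω) →₀ ℤ))
    (hS : ∀ (M₁ : IntermediateField k Ω) (h : M₀ ≤ M₁) (_ : FiniteDimensional k M₁),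
      (∀ s ≤ r, Iso M₁ s) → ∃ Q : ℙ M₁ (Fin n → M₁),
        tr2 k Ω (mapPt (IntermediateField.inclusion h : M₀ →+* M₁) P) Q ∈ S) :
    ∃ z ∈ S, Finsupp.mapDomain Prod.fst z = tr k Ω P := by
  obtain ⟨M₁, h₁, hf₁, d₁, hd₁, -, hd₁0, hI₁⟩ := exists_ext hG M₀ 1 one_ne_zero
  obtain ⟨M₂, h₂, hf₂, d₂, hd₂, hc, -, hI₂⟩ := exists_ext hG M₀ d₁ hd₁0
  obtain ⟨Q₁, hQ₁⟩ := hS M₁ h₁ hf₁ hI₁
  obtain ⟨Q₂, hQ₂⟩ := hS M₂ h₂ hf₂ hI₂
  let : Algebra M₀ M₁ := (IntermediateField.inclusion h₁ : M₀ →+* M₁).toAlgebra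
  let : Algebra M₀ M₂ := (IntermediateField.inclusion h₂ : M₀ →+* M₂).toAlgebra
  have : IsScalarTower k M₀ M₁ := IsScalarTower.of_algebraMap_eq (fun x => rfl)
  have : IsScalarTower k M₀ M₂ := IsScalarTower.of_algebraMap_eq (fun x => rfl)
  have : FiniteDimensional M₀ M₁ := FiniteDimensional.right k M₀ M₁
  have : FiniteDimensional M₀ M₂ := FiniteDimensional.right k M₀ M₂
  have hpos : 0 < Module.finrank k M₀ := Module.finrank_pos
  have e₁ : Module.finrank M₀ M₁ = d₁ := by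
    have := Module.finrank_mul_finrank k M₀ M₁
    rw [hd₁] at this
    exact Nat.eq_of_mul_eq_mul_left hpos this
  have e₂ : Module.finrank M₀ M₂ = d₂ := by
    have := Module.finrank_mul_finrank k M₀ M₂
    rw [hd₂] at this
    exact Nat.eq_of_mul_eq_mul_left hpos this
  obtain ⟨a, b, hab⟩ := exists_lift (k := k) Ω (M₀ := M₀) (M₁ := M₁) (M₂ := M₂)
    (by rw [e₁, e₂]; exact hc.symm) P Q₁ Q₂
  exact ⟨_, S.add_mem (S.zsmul_mem hQ₁ a) (S.zsmul_mem hQ₂ b), hab⟩

variable {κ : Type} {h : κ → MvPolynomial (Fin N) k}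
  {A : Fin r → Matrix (Fin n) (Fin n) (MvPolynomial (Fin N) k)}

/-- The trace of a point of the family over `M` is a zero-cycle of the family. -/
theorem tr2_mem_cyc2 (hh : ∀ j, ∃ d, (h j).IsHomogeneous d)
    (hA : ∀ i, ∃ e, ∀ a b, (A i a b).IsHomogeneous e) {M : Type u} [Field M] [Algebra k M]
    [FiniteDimensional k M] (P : ℙ M (Fin N → M)) (Q : ℙ M (Fin n → M))
    (hz : Zer2 h A M P.rep Q.rep) : tr2 k Ω P Q ∈ cyc2 Ω h A := by
  constructor
  · intro x hx
    obtain ⟨σ, rfl⟩ := mem_supp_tr2 Ω hx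
    exact (zer2_mapPt_iff hh hA σ (P, Q)).2 hz
  · intro σ x
    exact tr2_inv Ω P Q σ x

/-- Every zero-cycle of the base is the push-forward of a zero-cycle of the family, over a good
field. -/
theorem surj [CharZero k] [IsAlgClosure k Ω] (hG : Good k Ω r)
    (hh : ∀ j, ∃ d, (h j).IsHomogeneous d) (hA : ∀ i, ∃ e, ∀ a b, (A i a b).IsHomogeneous e)
    (hn : 4 * r < n) {z : ℙ Ω (Fin N → Ω) →₀ ℤ} (hz : z ∈ cyc Ω h) :
    ∃ z' ∈ cyc2 Ω h A, pushW Ω z' = z := by
  have : IsAlgClosed Ω := IsAlgClosure.isAlgClosed k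
  have : Algebra.IsAlgebraic k Ω := IsAlgClosure.isAlgebraic
  have key : z ∈ AddSubgroup.map (pushW Ω) (cyc2 Ω h A) := by
    refine cyc_mem_of_tr (k := k) _ z hz.2 ?_
    intro M₀ hM₀ P hP _
    have hZ : Zer h M₀ P.rep := (zer_mapPt_iff hh M₀.val P).1 (hz.1 _ hP)
    obtain ⟨z', hz', h2⟩ := sur_core (n := n) hG M₀ P (cyc2 Ω h A) (by
      intro M₁ hle _ hI
      set P₁ : ℙ M₁ (Fin N → M₁) := mapPt (IntermediateField.inclusion hle : M₀ →+* M₁) P
        with hP₁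
      have hZ₁ : Zer h M₁ P₁.rep := (zer_mapPt_iff hh (IntermediateField.inclusion hle) P).2 hZ
      obtain ⟨x, hx, hq⟩ := hI r le_rfl n hn (fun i => (A i).map (MvPolynomial.aeval P₁.rep))
      refine ⟨Projectivization.mk M₁ x hx, tr2_mem_cyc2 hh hA _ _ ?_⟩
      have h3 : Zer2 h A M₁ P₁.rep x := ⟨hZ₁, hq⟩
      have h4 := (zer2_mk_iff hh hA P₁.rep P₁.rep_nonzero x hx).2 h3
      rwa [Projectivization.mk_rep] at h4)
    exact ⟨z', hz', h2⟩
  obtain ⟨z', hz', h1⟩ := key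
  exact ⟨z', hz', h1⟩

end Fa

namespace ZC

open Fa

universe u

/-- Every zero-cycle of the base is a push-forward. -/
theorem fam_surj {k : Type u} [Field k] [CharZero k] {Ω : Type u} [Field Ω] [Algebra k Ω]
    [IsAlgClosure k Ω] {N n r : ℕ} {κ : Type} {h : κ → MvPolynomial (Fin N) k}
    {A : Fin r → Matrix (Fin n) (Fin n) (MvPolynomial (Fin N) k)}
    (hG : ∀ s, Good k Ω s) (hh : ∀ j, ∃ d, (h j).IsHomogeneous d)
    (hA : ∀ i, ∃ e, ∀ a b, (A i a b).IsHomogeneous e) (hn : 4 * r < n)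
    {z : ℙ Ω (Fin N → Ω) →₀ ℤ} (hz : z ∈ cyc Ω h) : ∃ z' ∈ cyc2 Ω h A, pushW Ω z' = z :=
  surj (hG r) hh hA hn hz

end ZC
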