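import Pool.Agent.Lib.MP_f80667_ag.Fa.Bc
import Pool.Agent.Lib.MP_f80667_ag.Fa.Sur

/-!
Zero-cycles of degree `0` of a family modulo rational equivalence, and the homomorphisms induced by
the projection to the base and by a section.
-/

open scoped LinearAlgebra.Projectivization
open MvPolynomial

namespace ZC

universe u

section ind

variable {P Q : Type*} [AddCommGroup P] [AddCommGroup Q]

/-- The homomorphism of quotients `C/(R ∩ C) → C'/(R' ∩ C')` induced by `φ`. -/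
def indMap (φ : P →+ Q) {C R : AddSubgroup P} {C' R' : AddSubgroup Q} (hC : ∀ z ∈ C, φ z ∈ C')
    (hR : ∀ z ∈ R, φ z ∈ R') : (C ⧸ R.addSubgroupOf C) →+ (C' ⧸ R'.addSubgroupOf C') :=
  QuotientAddGroup.map _ _ ((φ.comp C.subtype).codRestrict C' (fun z => hC z z.2))
    (fun z hz => hR z hz)

theorem indMap_mk (φ : P →+ Q) {C R : AddSubgroup P} {C' R' : AddSubgroup Q}
    (hC : ∀ z ∈ C, φ z ∈ C') (hR : ∀ z ∈ R, φ z ∈ R') (z : C) :
    indMap φ hC hR (QuotientAddGroup.mk z) = QuotientAddGroup.mk ⟨φ z, hC z z.2⟩ := rfl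

theorem indMap_bijective (φ : P →+ Q) {C R : AddSubgroup P} {C' R' : AddSubgroup Q}
    (hC : ∀ z ∈ C, φ z ∈ C') (hR : ∀ z ∈ R, φ z ∈ R') (hs : ∀ z ∈ C', ∃ y ∈ C, φ y = z)
    (hi : ∀ z ∈ C, φ z ∈ R' → z ∈ R) : Function.Bijective (indMap φ hC hR) := by
  constructor
  · rw [injective_iff_map_eq_zero]
    intro x
    obtain ⟨z, rfl⟩ := QuotientAddGroup.mk_surjective x
    intro h
    rw [indMap_mk, QuotientAddGroup.eq_zero_iff, AddSubgroup.mem_addSubgroupOf] at h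
    rw [QuotientAddGroup.eq_zero_iff, AddSubgroup.mem_addSubgroupOf]
    exact hi z z.2 h
  · intro x
    obtain ⟨z, rfl⟩ := QuotientAddGroup.mk_surjective x
    obtain ⟨y, hy, hyz⟩ := hs z z.2
    refine ⟨QuotientAddGroup.mk ⟨y, hy⟩, ?_⟩
    rw [indMap_mk]
    congr 1
    exact Subtype.ext hyz

end ind

section quo

variable {k : Type u} [Field k] (Ω : Type u) [Field Ω] [Algebra k Ω] {N n r : ℕ} {κ : Type}

/-- The zero-cycles of degree `0` of the family. -/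
noncomputable def cyc02 (h : κ → MvPolynomial (Fin N) k)
    (A : Fin r → Matrix (Fin n) (Fin n) (MvPolynomial (Fin N) k)) :
    AddSubgroup (Pt2 Ω N n →₀ ℤ) :=
  cyc2 Ω h A ⊓ (deg2 Ω).ker

/-- Zero-cycles of degree `0` of the family modulo rational equivalence. -/
abbrev F12 (h : κ → MvPolynomial (Fin N) k)
    (A : Fin r → Matrix (Fin n) (Fin n) (MvPolynomial (Fin N) k)) : Type u :=
  cyc02 Ω h A ⧸ (ratEq2 Ω h A).addSubgroupOf (cyc02 Ω h A)

/-- The group generated by the norms of the points of the family over `Ω`. -/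
noncomputable def normCyc2 (h : κ → MvPolynomial (Fin N) k)
    (A : Fin r → Matrix (Fin n) (Fin n) (MvPolynomial (Fin N) k)) :
    AddSubgroup (Pt2 Ω N n →₀ ℤ) :=
  AddSubgroup.closure {z | ∃ x : Pt2 Ω N n, Zer2 h A Ω x.1.rep x.2.rep ∧
    z = ∑ᶠ σ : Ω ≃ₐ[k] Ω, Finsupp.single (mapPt2 (σ : Ω →+* Ω) x) 1}

/-- The image of `F12` in the zero-cycles modulo rational equivalence and norms. -/
abbrev F1bar2 (h : κ → MvPolynomial (Fin N) k)
    (A : Fin r → Matrix (Fin n) (Fin n) (MvPolynomial (Fin N) k)) : Type u :=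
  cyc02 Ω h A ⧸ (ratEq2 Ω h A ⊔ normCyc2 Ω h A).addSubgroupOf (cyc02 Ω h A)

variable {Ω} {h : κ → MvPolynomial (Fin N) k}
  {A : Fin r → Matrix (Fin n) (Fin n) (MvPolynomial (Fin N) k)}

theorem pushW_mem0 {z : Pt2 Ω N n →₀ ℤ} (hz : z ∈ cyc02 Ω h A) : pushW Ω z ∈ cyc0 Ω h := by
  obtain ⟨h1, h2⟩ := AddSubgroup.mem_inf.1 hz
  refine AddSubgroup.mem_inf.2 ⟨pushW_mem h1, ?_⟩
  rw [AddMonoidHom.mem_ker] at h2 ⊢
  rw [deg_pushW, h2]

theorem pushW_norm {z : Pt2 Ω N n →₀ ℤ} (hz : z ∈ normCyc2 Ω h A) :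
    pushW Ω z ∈ normCyc Ω h := by
  induction hz using AddSubgroup.closure_induction with
  | mem z hz =>
    obtain ⟨x, hx, rfl⟩ := hz
    by_cases hfin : Finite (Ω ≃ₐ[k] Ω)
    · refine AddSubgroup.subset_closure ⟨x.1, hx.1, ?_⟩
      rw [AddMonoidHom.map_finsum _ (Set.toFinite _)]
      simp only [pushW_single]
      rfl
    · have h0 : (∑ᶠ σ : Ω ≃ₐ[k] Ω, Finsupp.single (mapPt2 (σ : Ω →+* Ω) x) (1 : ℤ)) = 0 := by
        apply finsum_of_infinite_support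
        have : (Function.support fun σ : Ω ≃ₐ[k] Ω =>
            Finsupp.single (mapPt2 (σ : Ω →+* Ω) x) (1 : ℤ)) = Set.univ := by
          rw [Set.eq_univ_iff_forall]
          intro σ
          rw [Function.mem_support, Ne, Finsupp.single_eq_zero]
          exact one_ne_zero
        rw [this]
        have : Infinite (Ω ≃ₐ[k] Ω) := not_finite_iff_infinite.1 hfin
        exact Set.infinite_univ
      rw [h0, map_zero]
      exact zero_mem _
  | zero => rw [map_zero]; exact zero_mem _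
  | add a b _ _ ha hb => rw [map_add]; exact add_mem ha hb
  | neg a _ ha => rw [map_neg]; exact neg_mem ha

variable (Ω h A) in
/-- The push-forward on zero-cycles of degree `0` modulo rational equivalence. -/
noncomputable def pushF1 : F12 Ω h A →+ F1 Ω h :=
  indMap (pushW Ω) (fun _ hz => pushW_mem0 hz) (fun _ hz => pushW_ratEq hz)

variable (Ω h A) in
/-- The push-forward modulo rational equivalence and norms. -/
noncomputable def pushF1bar : F1bar2 Ω h A →+ F1bar Ω h :=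
  indMap (pushW Ω) (fun _ hz => pushW_mem0 hz) (fun z hz => by
    obtain ⟨a, ha, b, hb, rfl⟩ := AddSubgroup.mem_sup.1 hz
    rw [map_add]
    exact AddSubgroup.mem_sup.2 ⟨_, pushW_ratEq ha, _, pushW_norm hb, rfl⟩)

/-- If the push-forward is surjective on zero-cycles and detects rational equivalence, it induces
a bijection. -/
theorem pushF1_bijective
    (hs : ∀ z ∈ cyc Ω h, ∃ y ∈ cyc2 Ω h A, pushW Ω y = z)
    (hi : ∀ z ∈ cyc2 Ω h A, pushW Ω z ∈ ratEq Ω h → z ∈ ratEq2 Ω h A) :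
    Function.Bijective (pushF1 Ω h A) := by
  refine indMap_bijective _ _ _ (fun z hz => ?_) (fun z hz => hi z (AddSubgroup.mem_inf.1 hz).1)
  obtain ⟨h1, h2⟩ := AddSubgroup.mem_inf.1 hz
  obtain ⟨y, hy, rfl⟩ := hs z h1
  refine ⟨y, AddSubgroup.mem_inf.2 ⟨hy, ?_⟩, rfl⟩
  rw [AddMonoidHom.mem_ker] at h2 ⊢
  rw [← deg_pushW, h2]

/-! ### Sections -/

variable {s : Fin n → MvPolynomial (Fin N) k}

theorem secC_mem0 (hS : IsSection h A s) (hh : ∀ j, ∃ d, (h j).IsHomogeneous d)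
    (hA : ∀ i, ∃ e, ∀ a b, (A i a b).IsHomogeneous e) (y₀ : ℙ Ω (Fin n → Ω))
    {z : ℙ Ω (Fin N → Ω) →₀ ℤ} (hz : z ∈ cyc0 Ω h) : secC s y₀ z ∈ cyc02 Ω h A := by
  obtain ⟨h1, h2⟩ := AddSubgroup.mem_inf.1 hz
  refine AddSubgroup.mem_inf.2 ⟨secC_mem hS hh hA y₀ h1, ?_⟩
  rw [AddMonoidHom.mem_ker] at h2 ⊢
  rw [deg2_secC, h2]

/-- The homomorphism induced by a section. -/
noncomputable def secF1 (hS : IsSection h A s) (hh : ∀ j, ∃ d, (h j).IsHomogeneous d)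
    (hA : ∀ i, ∃ e, ∀ a b, (A i a b).IsHomogeneous e) (y₀ : ℙ Ω (Fin n → Ω)) :
    F1 Ω h →+ F12 Ω h A :=
  indMap (secC s y₀) (fun _ hz => secC_mem0 hS hh hA y₀ hz) (fun _ hz => ratEq_secC hS hh y₀ hz)

/-! ### Base change -/

variable {K : Type u} [Field K] [Algebra k K] {Ω' : Type u} [Field Ω'] [Algebra K Ω']
  [Algebra k Ω'] [IsScalarTower k K Ω']

theorem bc_mem0 [IsAlgClosure k Ω] (e : Ω →ₐ[k] Ω') (hh : ∀ j, ∃ d, (h j).IsHomogeneous d)
    {z : ℙ Ω (Fin N → Ω) →₀ ℤ} (hz : z ∈ cyc0 Ω h) : bc e z ∈ cyc0 Ω' (hK K h) := by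
  obtain ⟨h1, h2⟩ := AddSubgroup.mem_inf.1 hz
  refine AddSubgroup.mem_inf.2 ⟨bc_mem e hh h1, ?_⟩
  rw [AddMonoidHom.mem_ker] at h2 ⊢
  rw [deg_bc, h2]

theorem bc2_mem0 [IsAlgClosure k Ω] (e : Ω →ₐ[k] Ω') (hh : ∀ j, ∃ d, (h j).IsHomogeneous d)
    (hA : ∀ i, ∃ e, ∀ a b, (A i a b).IsHomogeneous e)
    {z : Pt2 Ω N n →₀ ℤ} (hz : z ∈ cyc02 Ω h A) : bc2 e z ∈ cyc02 Ω' (hK K h) (AK K A) := by
  obtain ⟨h1, h2⟩ := AddSubgroup.mem_inf.1 hz
  refine AddSubgroup.mem_inf.2 ⟨bc2_mem e hh hA h1, ?_⟩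
  rw [AddMonoidHom.mem_ker] at h2 ⊢
  rw [deg2_bc2, h2]

end quo

end ZC
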