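import Mathlib
import Pool.Agent.Lib.MP_f80667_ag.Fa.Lift
import Pool.Agent.Lib.MP_f80667_ag.Fa.Ker
import Pool.Agent.Lib.MP_f80667_ag.Fa.Quo

/-!
The push-forward of zero-cycles from a family of intersections of quadrics to its base is an
isomorphism modulo rational equivalence.
-/

open scoped LinearAlgebra.Projectivization

namespace ZC

universe u

variable {k : Type u} [Field k] [CharZero k] {Ω : Type u} [Field Ω] [Algebra k Ω]
  [IsAlgClosure k Ω] {N n r : ℕ} {κ : Type} {h : κ → MvPolynomial (Fin N) k}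
  {A : Fin r → Matrix (Fin n) (Fin n) (MvPolynomial (Fin N) k)}

theorem mem_of_coprime {G : Type*} [AddCommGroup G] {S : AddSubgroup G} {z : G} {m m' : ℕ}
    (hc : m.Coprime m') (h : m • z ∈ S) (h' : m' • z ∈ S) : z ∈ S := by
  have h1 : (m : ℤ) * Int.gcdA m m' + m' * Int.gcdB m m' = 1 := by
    rw [← Int.gcd_eq_gcd_ab, Int.gcd_natCast_natCast, Nat.Coprime.gcd_eq_one hc]
    rfl
  have h3 : z = Int.gcdA m m' • (m • z) + Int.gcdB m m' • (m' • z) := by
    rw [← natCast_zsmul, ← natCast_zsmul, smul_smul, smul_smul, ← add_smul,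
      mul_comm (Int.gcdA _ _), mul_comm (Int.gcdB _ _), h1, one_smul]
  rw [h3]
  exact add_mem (zsmul_mem h _) (zsmul_mem h' _)

/-- **The family theorem, injectivity.** A zero-cycle of the family whose push-forward is rationally
equivalent to `0` on the base is rationally equivalent to `0` on the family. -/
theorem fam_inj (hG : ∀ s, Good k Ω s) (hh : ∀ j, ∃ d, (h j).IsHomogeneous d)
    (hA : ∀ i, ∃ e, ∀ a b, (A i a b).IsHomogeneous e) (hn : 8 * r < n)
    {z : Pt2 Ω N n →₀ ℤ} (hz : z ∈ cyc2 Ω h A) (h0 : pushW Ω z ∈ ratEq Ω h) :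
    z ∈ ratEq2 Ω h A := by
  have key : ∀ D : ℕ, D ≠ 0 → ∃ m : ℕ, m.Coprime D ∧ m • z ∈ ratEq2 Ω h A := by
    intro D hD
    obtain ⟨m, hm, y, hy, hyz⟩ := fam_lift (A := A) hG hn h0 D hD
    refine ⟨m, hm, ?_⟩
    have h1 : m • z - y ∈ ratEq2 Ω h A := by
      refine fam_ker hG hh hA hn (sub_mem (nsmul_mem hz m) (ratEq2_le hh hA hy)) ?_
      rw [map_sub, map_nsmul, hyz, sub_self]
    have h2 := add_mem h1 hy
    rwa [sub_add_cancel] at h2
  obtain ⟨m, hm, hmz⟩ := key 2 two_ne_zero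
  have hm0 : m ≠ 0 := by
    rintro rfl
    norm_num at hm
  obtain ⟨m', hm', hmz'⟩ := key m hm0
  exact mem_of_coprime hm'.symm hmz hmz'

variable (Ω h A) in
/-- The push-forward on zero-cycles modulo rational equivalence. -/
noncomputable def pushCH :
    (cyc2 Ω h A ⧸ (ratEq2 Ω h A).addSubgroupOf (cyc2 Ω h A)) →+
      (cyc Ω h ⧸ (ratEq Ω h).addSubgroupOf (cyc Ω h)) :=
  indMap (pushW Ω) (fun _ hz => pushW_mem hz) (fun _ hz => pushW_ratEq hz)

/-- **The family theorem.** -/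
theorem pushCH_bijective (hG : ∀ s, Good k Ω s) (hh : ∀ j, ∃ d, (h j).IsHomogeneous d)
    (hA : ∀ i, ∃ e, ∀ a b, (A i a b).IsHomogeneous e) (hn : 8 * r < n) :
    Function.Bijective (pushCH Ω h A) :=
  indMap_bijective _ _ _ (fun _ hz => fam_surj hG hh hA (by omega) hz)
    (fun _ hz h0 => fam_inj hG hh hA hn hz h0)

/-- The family theorem in degree `0`. -/
theorem pushF1_bij (hG : ∀ s, Good k Ω s) (hh : ∀ j, ∃ d, (h j).IsHomogeneous d)
    (hA : ∀ i, ∃ e, ∀ a b, (A i a b).IsHomogeneous e) (hn : 8 * r < n) :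
    Function.Bijective (pushF1 Ω h A) :=
  pushF1_bijective (fun _ hz => fam_surj hG hh hA (by omega) hz)
    (fun _ hz h0 => fam_inj hG hh hA hn hz h0)

end ZC
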