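import Pool.Agent.Lib.MP_f80667_ag.Fa.Inv

/-!
Sections of a family: the map on zero-cycles induced by a section, and its compatibility with
rational equivalence.
-/

open scoped LinearAlgebra.Projectivization
open MvPolynomial

namespace ZC

universe u

/-- The image of an invariant cycle under an equivariant map is invariant. -/
theorem mapDomain_inv {Y Z : Type*} (f : Y → Z) (a : Y ≃ Y) (b : Z ≃ Z) (z : Y →₀ ℤ)
    (hf : ∀ y ∈ z.support, f (a y) = b (f y)) (hz : ∀ y, z (a y) = z y) (x : Z) :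
    Finsupp.mapDomain f z (b x) = Finsupp.mapDomain f z x := by
  have h4 : Finsupp.mapDomain a z = z := by
    ext y
    obtain ⟨y', rfl⟩ := a.surjective y
    rw [Finsupp.mapDomain_apply a.injective]
    exact (hz y').symm
  have h5 : Finsupp.mapDomain b (Finsupp.mapDomain f z) = Finsupp.mapDomain f z := by
    conv_rhs => rw [← h4]
    rw [← Finsupp.mapDomain_comp, ← Finsupp.mapDomain_comp]
    exact Finsupp.mapDomain_congr fun y hy => (hf y hy).symm
  have h6 : Finsupp.mapDomain b (Finsupp.mapDomain f z) (b x) = Finsupp.mapDomain f z x :=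
    Finsupp.mapDomain_apply b.injective _ _
  rw [h5] at h6
  exact h6

section sec

variable {k : Type u} [Field k] {N n r : ℕ} {κ : Type}

/-- The vector `(s_1(w), ..., s_n(w))`. -/
noncomputable def secV (s : Fin n → MvPolynomial (Fin N) k) {E : Type*} [CommRing E] [Algebra k E]
    (w : Fin N → E) : Fin n → E := fun j => aeval w (s j)

/-- The polynomials `s_1, ..., s_n`, homogeneous of the same degree, define a section of the
family: over every extension field `E` of `k` and for every `[w] ∈ W(E)` the vector `s(w)` is not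
`0` and the pair `(w, s(w))` is in `X(E)`. -/
structure IsSection (h : κ → MvPolynomial (Fin N) k)
    (A : Fin r → Matrix (Fin n) (Fin n) (MvPolynomial (Fin N) k))
    (s : Fin n → MvPolynomial (Fin N) k) : Prop where
  hom : ∃ d, ∀ j, (s j).IsHomogeneous d
  sec : ∀ (E : Type u) [Field E] [Algebra k E] (w : Fin N → E), w ≠ 0 → Zer h E w →
    secV s w ≠ 0 ∧ Zer2 h A E w (secV s w)

theorem secV_smul {s : Fin n → MvPolynomial (Fin N) k} {d : ℕ} (hs : ∀ j, (s j).IsHomogeneous d)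
    {E : Type*} [CommRing E] [Algebra k E] (c : E) (w : Fin N → E) :
    secV s (c • w) = c ^ d • secV s w := by
  funext j
  simp only [secV, Pi.smul_apply, smul_eq_mul]
  exact aeval_smul_of_hom (hs j) c w

theorem secV_map (s : Fin n → MvPolynomial (Fin N) k) {E E' : Type*} [CommRing E] [Algebra k E]
    [CommRing E'] [Algebra k E'] (φ : E →ₐ[k] E') (w : Fin N → E) :
    secV s (fun i => φ (w i)) = fun j => φ (secV s w j) := by
  funext j
  simp only [secV]
  rw [comp_aeval_apply]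

variable {Ω : Type u} [Field Ω] [Algebra k Ω]

open Classical in
/-- The map from the points of the base to pairs of points; `y₀` is a dummy value. -/
noncomputable def secPt (s : Fin n → MvPolynomial (Fin N) k) (y₀ : ℙ Ω (Fin n → Ω))
    (x : ℙ Ω (Fin N → Ω)) : Pt2 Ω N n :=
  (x, if h0 : secV s x.rep ≠ 0 then Projectivization.mk Ω (secV s x.rep) h0 else y₀)

variable {h : κ → MvPolynomial (Fin N) k}
  {A : Fin r → Matrix (Fin n) (Fin n) (MvPolynomial (Fin N) k)}
  {s : Fin n → MvPolynomial (Fin N) k}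

theorem secPt_mk (hS : IsSection h A s) (hh : ∀ j, ∃ d, (h j).IsHomogeneous d)
    (y₀ : ℙ Ω (Fin n → Ω)) (v : Fin N → Ω) (hv : v ≠ 0) (hz : Zer h Ω v) :
    secPt s y₀ (Projectivization.mk Ω v hv) =
      (Projectivization.mk Ω v hv, Projectivization.mk Ω (secV s v) (hS.sec Ω v hv hz).1) := by
  obtain ⟨d, hd⟩ := hS.hom
  have h1 : secV s (Projectivization.mk Ω v hv).rep ≠ 0 :=
    (hS.sec Ω _ (Projectivization.rep_nonzero _) ((zer_mk_iff hh v hv).2 hz)).1
  rw [secPt, dif_pos h1]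
  congr 1
  obtain ⟨a, ha, hr⟩ := exists_rep v hv
  rw [Projectivization.mk_eq_mk_iff']
  refine ⟨a ^ d, ?_⟩
  rw [hr, secV_smul hd]

/-- The value of `s(p)` at a place is `s` of the value of `p`. -/
theorem Place.IsVal.sec {E : Type u} [Field E] [Algebra k E] {v : Place k E Ω}
    (hS : IsSection h A s) (hh : ∀ j, ∃ d, (h j).IsHomogeneous d) (y₀ : ℙ Ω (Fin n → Ω))
    {p : Fin N → E} (hp : Zer h E p) {x : ℙ Ω (Fin N → Ω)} (hx : v.IsVal p x) :
    v.IsVal (secV s p) (secPt s y₀ x).2 := by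
  have hzx : Zer h Ω x.rep := v.zer hh hp hx
  obtain ⟨c, hc, h0, rfl⟩ := hx
  obtain ⟨d, hd⟩ := hS.hom
  let : Algebra k v.V := ((algebraMap k E).codRestrict v.V.toSubring v.mem).toAlgebra
  let φ : v.V →ₐ[k] E := { v.V.subtype with commutes' := fun a => rfl }
  let ψ : v.V →ₐ[k] Ω := { v.res with commutes' := fun a => v.res_k a }
  set q : Fin N → v.V := fun i => ⟨c * p i, hc i⟩ with hq
  have hφ : (fun i => φ (q i)) = c • p := rfl
  have e1 : ∀ j, c ^ d * secV s p j = φ (secV s q j) := by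
    intro j
    have h2 := congrFun (secV_map s φ q) j
    rw [← h2, hφ, secV_smul hd]
    rfl
  have hz : Zer h Ω (fun i => v.res (q i)) := (zer_mk_iff hh _ h0).1 hzx
  have e2 : (fun j => v.res (secV s q j)) = secV s (fun i => v.res (q i)) :=
    (secV_map s ψ q).symm
  have hmem : ∀ j, c ^ d * secV s p j ∈ v.V := by
    intro j
    rw [e1]
    exact (secV s q j).2
  have e3 : (fun j => v.res ⟨c ^ d * secV s p j, hmem j⟩) = secV s (fun i => v.res (q i)) := by
    rw [← e2]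
    funext j
    congr 1
    exact Subtype.ext (e1 j)
  have hne := (hS.sec Ω _ h0 hz).1
  refine ⟨c ^ d, hmem, ?_, ?_⟩
  · rw [e3]
    exact hne
  · rw [secPt_mk hS hh y₀ _ h0 hz]
    simp only [e3]
    rfl

/-- The map on cycles induced by a section. -/
noncomputable def secC (s : Fin n → MvPolynomial (Fin N) k) (y₀ : ℙ Ω (Fin n → Ω)) :
    (ℙ Ω (Fin N → Ω) →₀ ℤ) →+ (Pt2 Ω N n →₀ ℤ) :=
  Finsupp.mapDomain.addMonoidHom (secPt s y₀)

theorem secC_single (y₀ : ℙ Ω (Fin n → Ω)) (x : ℙ Ω (Fin N → Ω)) (m : ℤ) :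
    secC s y₀ (Finsupp.single x m) = Finsupp.single (secPt s y₀ x) m := by
  simp [secC]

theorem pushW_secC (y₀ : ℙ Ω (Fin n → Ω)) (z : ℙ Ω (Fin N → Ω) →₀ ℤ) :
    pushW Ω (secC s y₀ z) = z := by
  induction z using Finsupp.induction_linear with
  | zero => simp
  | add f g hf hg => rw [map_add, map_add, hf, hg]
  | single x m => rw [secC_single, pushW_single]; rfl

theorem ratEq_secC (hS : IsSection h A s) (hh : ∀ j, ∃ d, (h j).IsHomogeneous d)
    (y₀ : ℙ Ω (Fin n → Ω)) {z : ℙ Ω (Fin N → Ω) →₀ ℤ} (hz : z ∈ ratEq Ω h) :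
    secC s y₀ z ∈ ratEq2 Ω h A := by
  induction hz using AddSubgroup.closure_induction with
  | mem z hz =>
    obtain ⟨E, _, _, hE, g, p, hg, hp, hZ, S, m, x, h1, h2, rfl⟩ := hz
    refine AddSubgroup.subset_closure ⟨E, _, _, hE, g, p, secV s p, hg, hp,
      (hS.sec E p hp hZ).1, (hS.sec E p hp hZ).2, S, m, fun v => secPt s y₀ (x v), h1,
      fun v hv => ⟨(h2 v hv).1, (h2 v hv).2, (h2 v hv).2.sec hS hh y₀ hZ⟩, ?_⟩
    rw [map_sum]
    simp only [secC_single]
  | zero => rw [map_zero]; exact zero_mem _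
  | add a b _ _ ha hb => rw [map_add]; exact add_mem ha hb
  | neg a _ ha => rw [map_neg]; exact neg_mem ha

theorem secPt_zer2 (hS : IsSection h A s) (hh : ∀ j, ∃ d, (h j).IsHomogeneous d)
    (hA : ∀ i, ∃ e, ∀ a b, (A i a b).IsHomogeneous e)
    (y₀ : ℙ Ω (Fin n → Ω)) {x : ℙ Ω (Fin N → Ω)} (hx : Zer h Ω x.rep) :
    Zer2 h A Ω (secPt s y₀ x).1.rep (secPt s y₀ x).2.rep := by
  have h1 := secPt_mk (Ω := Ω) hS hh y₀ x.rep x.rep_nonzero hx
  rw [Projectivization.mk_rep] at h1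
  rw [h1]
  dsimp only
  have h2 := (zer2_mk_iff hh hA x.rep x.rep_nonzero _ (hS.sec Ω _ x.rep_nonzero hx).1).2
    (hS.sec Ω _ x.rep_nonzero hx).2
  rwa [Projectivization.mk_rep] at h2

/-- A section commutes with homomorphisms of fields. -/
theorem secPt_mapPt (hS : IsSection h A s) (hh : ∀ j, ∃ d, (h j).IsHomogeneous d)
    {Ω' : Type u} [Field Ω'] [Algebra k Ω'] (e : Ω →ₐ[k] Ω') (y₀ : ℙ Ω (Fin n → Ω))
    (y₁ : ℙ Ω' (Fin n → Ω')) {x : ℙ Ω (Fin N → Ω)} (hx : Zer h Ω x.rep) :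
    secPt s y₁ (mapPt (e : Ω →+* Ω') x) = mapPt2 (e : Ω →+* Ω') (secPt s y₀ x) := by
  have h1 := secPt_mk (Ω := Ω) hS hh y₀ x.rep x.rep_nonzero hx
  rw [Projectivization.mk_rep] at h1
  have h2 : Zer h Ω' (fun i => e (x.rep i)) := hx.map e
  have h3 := secPt_mk (Ω := Ω') hS hh y₁ _ (comp_ne (e : Ω →+* Ω') x.rep_nonzero) h2
  rw [h1, mapPt2]
  change secPt s y₁ (Projectivization.mk Ω' _ (comp_ne (e : Ω →+* Ω') x.rep_nonzero)) = _
  rw [h3]
  refine Prod.ext rfl ?_
  dsimp only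
  rw [mapPt_mk]
  congr 1
  exact secV_map s e x.rep

/-- The image of a zero-cycle of the base under a section is a zero-cycle of the family. -/
theorem secC_mem (hS : IsSection h A s) (hh : ∀ j, ∃ d, (h j).IsHomogeneous d)
    (hA : ∀ i, ∃ e, ∀ a b, (A i a b).IsHomogeneous e) (y₀ : ℙ Ω (Fin n → Ω))
    {z : ℙ Ω (Fin N → Ω) →₀ ℤ} (hz : z ∈ cyc Ω h) : secC s y₀ z ∈ cyc2 Ω h A := by
  classical
  constructor
  · intro x hx
    have h3 := Finsupp.mapDomain_support (f := secPt s y₀) (s := z) hx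
    obtain ⟨y, hy, rfl⟩ := Finset.mem_image.1 h3
    exact secPt_zer2 hS hh hA y₀ (hz.1 y hy)
  · intro σ x
    exact mapDomain_inv (secPt s y₀) (perm1 σ) (perm2 σ) z
      (fun y hy => secPt_mapPt hS hh (σ : Ω →ₐ[k] Ω) y₀ y₀ (hz.1 y hy)) (hz.2 σ) x

theorem deg2_secC (y₀ : ℙ Ω (Fin n → Ω)) (z : ℙ Ω (Fin N → Ω) →₀ ℤ) :
    deg2 Ω (secC s y₀ z) = deg Ω z := by
  rw [← deg_pushW, pushW_secC]

end sec

end ZC
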