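import Pool.Agent.Lib.MP_f80667_ag.Fa.Glob

/-!
Transfer of the exactness of the complex of zero-cycles from the base to the family.
-/

open MvPolynomial IsDedekindDomain NumberField

namespace ZC

variable {F : Type} [Field F] [NumberField F] {N n r : ℕ} {κ : Type}
  {h : κ → MvPolynomial (Fin N) F} {A : Fin r → Matrix (Fin n) (Fin n) (MvPolynomial (Fin N) F)}

/-- If the push-forward is bijective at all finite places and the base has no real points, then the
push-forward is bijective on the completed adelic groups, and if there is a section, the image of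
`Δ` of the family is the inverse image of the image of `Δ` of the base. -/
theorem transfer (hh : ∀ j, ∃ d, (h j).IsHomogeneous d)
    (hA : ∀ i, ∃ e, ∀ a b, (A i a b).IsHomogeneous e)
    (hfin : ∀ v : HeightOneSpectrum (𝓞 F), Function.Bijective
      (pushF1 (AlgebraicClosure (v.adicCompletion F)) (hK (v.adicCompletion F) h)
        (AK (v.adicCompletion F) A)))
    (hreal : ∀ v : InfinitePlace F, v.IsReal →
      ∀ w : Fin N → v.Completion, Zer (hK v.Completion h) v.Completion w → w = 0) (hn : 0 < n) :
    Function.Bijective (Hat.map (pushA h A)) ∧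
    ∀ s : Fin n → MvPolynomial (Fin N) F, IsSection h A s →
      ∀ z : Hat (F1A2 h A), z ∈ imDelta2 h A hh hA ↔ Hat.map (pushA h A) z ∈ imDelta h hh := by
  have hb := pushA_bijective hh hfin hreal
  exact ⟨Hat.map_bijective _ hb, fun s hS z =>
    ⟨fun hz => imDelta2_push hh hA hz, fun hz => mem_imDelta2 hh hA hb hS hn hz⟩⟩

/-- Formal consequence: let `B → B'` be any map and `PW`, `PX` pairings of the completed adelic
groups of the base with `B` and of the family with `B'`, related by the projection formula. If all
elements orthogonal to `B` are in the image of `Δ` of the base, then all elements orthogonal to `B'`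
are in the image of `Δ` of the family. -/
theorem exact_transfer (hh : ∀ j, ∃ d, (h j).IsHomogeneous d)
    (hA : ∀ i, ∃ e, ∀ a b, (A i a b).IsHomogeneous e)
    (ht : ∀ z : Hat (F1A2 h A), z ∈ imDelta2 h A hh hA ↔ Hat.map (pushA h A) z ∈ imDelta h hh)
    {B B' T : Type*} [Zero T] (b : B → B') (PW : Hat (F1A h) → B → T)
    (PX : Hat (F1A2 h A) → B' → T)
    (hproj : ∀ z β, PX z (b β) = PW (Hat.map (pushA h A) z) β)
    (hW : ∀ y, (∀ β, PW y β = 0) → y ∈ imDelta h hh) (z : Hat (F1A2 h A))
    (hz : ∀ β, PX z β = 0) : z ∈ imDelta2 h A hh hA := by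
  rw [ht]
  apply hW
  intro β
  rw [← hproj, hz]

end ZC
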